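import Pool.Agent.Lib.THU.NB.Defs
import Pool.Agent.Lib.FBC.RH.Defs

/-!
An invariant system of horoballs gives a discrete subgroup of the Lorentz group.
-/

namespace Pool.Agent.Lib.THU.CV

open Matrix Complex FBC.RH
open scoped ComplexConjugate

namespace Fin4

/-- the Lorentz form -/
noncomputable def LB : LinearMap.BilinForm ℝ (Fin 4 → ℝ) := Matrix.toBilin' lorJ

lemma LB_ap (x y : Fin 4 → ℝ) : LB x y = -(x 0 * y 0) + x 1 * y 1 + x 2 * y 2 + x 3 * y 3 := by
  simp [LB, Matrix.toBilin'_apply', lorJ, dotProduct, Fin.sum_univ_four, mulVec_diagonal]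

/-- the light-like vector of a vector of the complex plane -/
noncomputable def lv (v : Fin 2 → ℂ) : Fin 4 → ℝ :=
  ![(normSq (v 0) + normSq (v 1)) / 2, (v 0 * conj (v 1)).re, (v 0 * conj (v 1)).im,
    (normSq (v 0) - normSq (v 1)) / 2]

lemma LB_lv (v w : Fin 2 → ℂ) : LB (lv v) (lv w) = -(‖NB.om v w‖ ^ 2 / 2) := by
  rw [LB_ap, Complex.sq_norm]
  simp [lv, NB.om, normSq_apply]
  ring

lemma cs {x y : Fin 4 → ℝ} (hx : LB x x ≤ 0) :
    (LB x y + x 0 * y 0) ^ 2 ≤ x 0 ^ 2 * (LB y y + y 0 ^ 2) := by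
  simp only [LB_ap] at *
  nlinarith [sq_nonneg (x 1 * y 2 - x 2 * y 1), sq_nonneg (x 1 * y 3 - x 3 * y 1),
    sq_nonneg (x 2 * y 3 - x 3 * y 2), mul_nonneg (neg_nonneg.2 hx)
      (by positivity : 0 ≤ y 1 ^ 2 + y 2 ^ 2 + y 3 ^ 2)]

/-- a permutation of a spanning family that keeps the Gram matrix is induced by an isometry -/
lemma gram {ι : Type} {u : ι → Fin 4 → ℝ} (hu : Submodule.span ℝ (Set.range u) = ⊤) {e : ι → ι}
    (he : Function.Surjective e) (h : ∀ i j, LB (u (e i)) (u (e j)) = LB (u i) (u j)) :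
    ∃ L : Module.End ℝ (Fin 4 → ℝ), (∀ i, L (u i) = u (e i)) ∧ LB.comp L L = LB := by
  obtain ⟨s, hs⟩ := (Finsupp.linearCombination ℝ u).exists_rightInverse_of_surjective
    ((Finsupp.range_linearCombination ℝ).trans hu)
  have k : LB.compl₁₂ (Finsupp.linearCombination ℝ (u ∘ e)) (Finsupp.linearCombination ℝ (u ∘ e)) =
      LB.compl₁₂ (Finsupp.linearCombination ℝ u) (Finsupp.linearCombination ℝ u) := by
    ext i j; simp [h]
  have k' := fun x y => LinearMap.congr_fun₂ k x y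
  have s' := LinearMap.congr_fun hs
  simp only [LinearMap.compl₁₂_apply, LinearMap.comp_apply, LinearMap.id_apply] at k' s'
  refine ⟨Finsupp.linearCombination ℝ (u ∘ e) ∘ₗ s, fun i => ?_, LinearMap.ext₂ fun x y => by
    simp [k', s']⟩
  have : LB (Finsupp.linearCombination ℝ (u ∘ e) (s (u i))) = LB (u (e i)) :=
    LinearMap.ext_on_range hu fun j => by
      obtain ⟨j, rfl⟩ := he j
      simpa [s', h] using k' (s (u i)) (.single j 1)
  have q := fun j => LinearMap.congr_fun this (Pi.single j 1)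
  ext j
  have := q j
  fin_cases j <;> simpa [LB_ap] using this

end Fin4

open Fin4

theorem final (G : Type) [Group G] (P : Type) [MulAction G P]
    (tf : ∀ (g : G) (n : ℕ), 0 < n → g ^ n = 1 → g = 1) (a b : P) (hab : a ≠ b)
    (fix2 : ∀ g : G, g • a = a → g • b = b → g = 1) (v : P → Fin 2 → ℂ)
    (low : ∀ p q, p ≠ q → 1 ≤ ‖NB.om (v p) (v q)‖)
    (inv : ∀ (g : G) p q, ‖NB.om (v (g • p)) (v (g • q))‖ = ‖NB.om (v p) (v q)‖) : Hyp3 G := by
  set V : P → Fin 4 → ℝ := fun p => lv (v p) with hV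
  have z : ∀ p, LB (V p) (V p) = 0 := fun p => by simp [V, LB_lv, NB.om, mul_comm]
  have lo : ∀ p q, -(1 / 2) < LB (V p) (V q) → p = q := fun p q h => by_contra fun c => by
    rw [LB_lv] at h; nlinarith [low p q c]
  have sy : ∀ x y, LB x y = LB y x := fun x y => by rw [LB_ap, LB_ap]; ring
  have tl : ∀ p q, p ≠ q → LB (V p + V q) (V p + V q) < 0 ∧ 0 < (V p + V q) 0 := fun p q h => by
    have n : ∀ p, 0 ≤ V p 0 := fun p =>
      div_nonneg (add_nonneg (normSq_nonneg _) (normSq_nonneg _)) two_pos.le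
    have : LB (V p + V q) (V p + V q) < 0 := by
      simp only [map_add, LinearMap.add_apply, z, sy (V q) (V p)]
      linarith [mt (lo p q) h]
    refine ⟨this, (add_nonneg (n p) (n q)).lt_of_ne fun c => ?_⟩
    rw [LB_ap, ← show 0 = (V p + V q) 0 from c] at this
    nlinarith
  set W := Submodule.span ℝ (Set.range V)
  have mW : ∀ p, V p ∈ W := fun p => Submodule.subset_span ⟨p, rfl⟩
  have cp : IsCompl W (LB.orthogonal W) :=
    (LinearMap.BilinForm.isCompl_orthogonal_iff_disjoint fun x y h => (sy y x).trans h).2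
      (Submodule.disjoint_def.2 fun x h1 h2 => by
        have k1 : LB x x = 0 := h2 x h1
        have k2 : LB (V a + V b) x = 0 := h2 _ (add_mem (mW a) (mW b))
        have k3 := cs (y := V a + V b) k1.le
        rw [sy, k2] at k3
        have k4 : x 0 ^ 2 ≤ 0 := by nlinarith [(tl a b hab).1]
        rw [LB_ap] at k1
        ext j
        fin_cases j <;> simp <;> nlinarith [sq_nonneg (x 1), sq_nonneg (x 2), sq_nonneg (x 3)])
  set u : P ⊕ LB.orthogonal W → Fin 4 → ℝ := Sum.elim V Subtype.val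
  have hu : Submodule.span ℝ (Set.range u) = ⊤ := by
    rw [Set.Sum.elim_range, Submodule.span_union, Subtype.range_coe, Submodule.span_eq]
    exact cp.sup_eq_top
  choose L h1 h2 using fun g : G => gram hu (e := Sum.map (g • ·) id)
    ((MulAction.surjective g).sumMap Function.surjective_id) (by
      rintro (p | x) (q | y)
      · simp [u, V, LB_lv, inv]
      · exact (y.2 _ (mW _)).trans (y.2 _ (mW _)).symm
      · exact (sy _ _).trans (((x.2 _ (mW _)).trans (x.2 _ (mW _)).symm).trans (sy _ _))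
      · rfl)
  have hL : ∀ g p, L g (V p) = V (g • p) := fun g p => h1 g (.inl p)
  have hB : ∀ g x y, LB (L g x) (L g y) = LB x y := fun g => LinearMap.congr_fun₂ (h2 g)
  let ρ₀ : G →* Module.End ℝ (Fin 4 → ℝ) :=
    { toFun := L
      map_one' := LinearMap.ext_on_range hu fun i => by rw [h1]; cases i <;> simp
      map_mul' := fun g h => LinearMap.ext_on_range hu fun i => by
        rw [Module.End.mul_apply, h1, h1, h1]; cases i <;> simp [mul_smul] }
  let ρ : G →* GL (Fin 4) ℝ := ((LinearMap.toMatrixAlgEquiv' (R := ℝ) (n := Fin 4) :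
    _ →* _).comp ρ₀).toHomUnits
  have hρ : ∀ g, (ρ g : Matrix (Fin 4) (Fin 4) ℝ) = LinearMap.toMatrix' (L g) := fun _ => rfl
  have key : ∀ g, -(1 / 2) < LB (V a) ((ρ g : Matrix _ _ ℝ) *ᵥ V a) →
      -(1 / 2) < LB (V b) ((ρ g : Matrix _ _ ℝ) *ᵥ V b) → g = 1 := fun g k1 k2 => by
    rw [hρ, LinearMap.toMatrix'_mulVec, hL] at k1 k2
    exact fix2 g (lo _ _ k1).symm (lo _ _ k2).symm
  have inj : Function.Injective ρ := (injective_iff_map_eq_one ρ).2 fun g h =>
    key g (by simp [h, z]) (by simp [h, z])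
  refine ⟨ρ.range, ?_, discreteTopology_of_isOpen_singleton_one ?_, ?_, ⟨MonoidHom.ofInjective inj⟩⟩
  · rintro _ ⟨g, rfl⟩
    refine ⟨by simpa [LB, hρ, LinearMap.BilinForm.toMatrix'_comp] using
      (congrArg LinearMap.BilinForm.toMatrix' (h2 g)), lt_of_not_ge fun c => ?_⟩
    have c' : L g (Pi.single 0 1) 0 ≤ 0 := by simpa [hρ] using c
    have t1 := tl a b hab
    have t2 := tl _ _ ((MulAction.injective g).ne hab)
    have k := cs (x := L g (Pi.single 0 1)) (y := L g (V a + V b)) (by simp [hB, LB_ap])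
    have s : LB (L g (Pi.single 0 1)) (L g (V a + V b)) = -(V a + V b) 0 := by
      rw [hB, LB_ap]; simp
    rw [s, hB, map_add (L g), hL, hL] at k
    nlinarith [mul_nonneg t1.2.le (mul_nonneg (neg_nonneg.2 c') t2.2.le), pow_pos t1.2 2,
      mul_nonneg (sq_nonneg (L g (Pi.single 0 1) 0)) (neg_nonneg.2 t1.1.le)]
  · have c : ∀ p, IsOpen {A : ρ.range | -(1 / 2) < LB (V p) ((A.1 : Matrix _ _ ℝ) *ᵥ V p)} :=
      fun p => isOpen_lt continuous_const (by simp only [LB_ap]; fun_prop)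
    refine (congrArg IsOpen (Set.ext fun A => ?_)).mp ((c a).inter (c b))
    obtain ⟨_, g, rfl⟩ := A
    exact ⟨fun h => Subtype.ext ((key g h.1 h.2).symm ▸ ρ.map_one), fun h => by
      simp [show ρ g = 1 from congrArg Subtype.val h, z]⟩
  · rintro _ ⟨g, rfl⟩ h
    obtain ⟨n, n0, hn⟩ := isOfFinOrder_iff_pow_eq_one.1 h
    rw [tf g n n0 (inj (by simpa using hn)), map_one]

end Pool.Agent.Lib.THU.CV
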