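import Pool.Agent.Lib.THU.FA.Ord

/-!
Two invariant triangulations of the cusps carry the same class modulo two.
-/

namespace Pool.Agent.Lib.THU.CV

open Pool.Agent.Lib.THU.FA OnePoint
open scoped Classical

/-- third vertex of the Farey triangle on the positive side of an oriented edge -/
def apex (a b : P) : P := pt (nu a + D a b * nu b) (de a + D a b * de b)

/-- oriented Farey edges -/
abbrev FP : Type := {x : P × P // |D x.1 x.2| = 1}

lemma ab_symm (p q : P) : |D q p| = |D p q| := by rw [D_swap, abs_neg]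

lemma pm {x : ℤ} (h : |x| = 1) : x = 1 ∨ x = -1 := (abs_eq zero_le_one).1 h

lemma fa_ne {p q : P} (h : |D p q| = 1) : p ≠ q := by
  rintro rfl
  simp [D_self] at h

lemma comb {p q : P} (h : |D p q| = 1) (k : ℤ) : ∃ η : ℤ, (η = 1 ∨ η = -1) ∧
    ∀ x, D (pt (nu p + k * nu q) (de p + k * de q)) x = η * (D p x + k * D q x) := by
  have hc : IsCoprime (nu p + k * nu q) (de p + k * de q) := by
    rcases pm h with e | e <;> unfold D at e
    · exact ⟨de q, -nu q, by linear_combination e⟩
    · exact ⟨-de q, nu q, by linear_combination -e⟩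
  obtain ⟨η, h1, h2, h3⟩ := vec_pt hc
  exact ⟨η, h1, fun x => by simp only [D, h2, h3]; ring⟩

lemma apex_D {a b : P} (h : |D a b| = 1) : ∃ η : ℤ, (η = 1 ∨ η = -1) ∧
    ∀ x, D (apex a b) x = η * (D a x + D a b * D b x) := comb h _

lemma apex_r {a b : P} (h : |D a b| = 1) : |D b (apex a b)| = 1 := by
  obtain ⟨η, h1, h2⟩ := apex_D h
  rw [← ab_symm, h2, D_self]
  rcases h1 with rfl | rfl <;> simpa using h

lemma apex_l {a b : P} (h : |D a b| = 1) : |D (apex a b) a| = 1 := by
  obtain ⟨η, h1, h2⟩ := apex_D h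
  rw [h2, D_self, D_swap a b]
  rcases h1 with rfl | rfl <;> rcases pm h with e | e <;> simp [e]

lemma apex_rot {a b : P} (h : |D a b| = 1) : apex b (apex a b) = a := by
  obtain ⟨η, h1, h2⟩ := apex_D h
  obtain ⟨θ, -, k2⟩ := apex_D (apex_r h)
  apply D_eq_zero.1
  rw [k2, D_swap (apex a b) b, h2, h2, D_self, D_self, D_swap a b]
  rcases h1 with rfl | rfl <;> rcases pm h with e | e <;> simp [e]

lemma apex_rot2 {a b : P} (h : |D a b| = 1) : apex (apex a b) a = b := by
  have := apex_rot (apex_r h)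
  rwa [apex_rot h] at this

lemma apex_or {a b e : P} (h : |D a b| = 1) (h1 : |D a e| = 1) (h2 : |D b e| = 1) :
    e = apex a b ∨ e = apex b a := by
  obtain ⟨η, -, k1⟩ := apex_D h
  obtain ⟨θ, -, k2⟩ := apex_D ((ab_symm a b).trans h)
  have : D (apex a b) e = 0 ∨ D (apex b a) e = 0 := by
    rw [k1, k2, D_swap a b]
    rcases pm h with e0 | e0 <;> rcases pm h1 with e1 | e1 <;> rcases pm h2 with e2 | e2 <;>
      simp [e0, e1, e2]
  exact this.imp (fun t => (D_eq_zero.1 t).symm) (fun t => (D_eq_zero.1 t).symm)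

/-- one step around the triangle -/
def rt (x : FP) : FP := ⟨(x.1.2, apex x.1.1 x.1.2), apex_r x.2⟩

lemma rt3 (x : FP) : rt (rt (rt x)) = x := by
  apply Subtype.ext
  simp only [rt, apex_rot x.2, apex_rot2 x.2]

/-- rotation of the triangle -/
def rot : FP ≃ FP := ⟨rt, fun x => rt (rt x), rt3, rt3⟩

/-- reversal of an edge -/
def swp (x : FP) : FP := ⟨(x.1.2, x.1.1), (ab_symm _ _).trans x.2⟩

lemma swp_swp (x : FP) : swp (swp x) = x := rfl

lemma swp_ne (x : FP) : swp x ≠ x := fun h => fa_ne x.2 (congrArg (fun y : FP => y.1.2) h)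

lemma two (x : ZMod 2) : x + x = 0 := CharTwo.add_self_eq_zero x

lemma sum_swp (E : FP → ZMod 2) (hs : ∀ x, E (swp x) = E x) (hf : (Function.support E).Finite) :
    ∑ᶠ x, E x = 0 := by
  rw [finsum_eq_sum _ hf]
  refine Finset.sum_involution (fun x _ => swp x) (fun x _ => by rw [hs, two])
    (fun x _ _ => swp_ne x) (fun x hx => ?_) (fun x _ => rfl)
  simpa [hs] using hx

lemma supp_rt {E : FP → ZMod 2} (hf : (Function.support E).Finite) :
    (Function.support fun x => E (rt x)).Finite :=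
  hf.preimage (f := rt) rot.injective.injOn

/-- coboundary -/
def dd (E : FP → ZMod 2) (x : FP) : ZMod 2 := E x + E (rt x) + E (rt (rt x))

lemma supp_dd {E : FP → ZMod 2} (hf : (Function.support E).Finite) :
    (Function.support (dd E)).Finite :=
  ((hf.union (supp_rt hf)).subset (Function.support_add _ _)).union
    (supp_rt (supp_rt hf)) |>.subset (Function.support_add _ _)

lemma sum_dd {E : FP → ZMod 2} (hf : (Function.support E).Finite) :
    ∑ᶠ x, dd E x = ∑ᶠ x, E x := by
  unfold dd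
  have e : ∀ F : FP → ZMod 2, ∑ᶠ x, F (rt x) = ∑ᶠ x, F x := fun F => finsum_comp_equiv rot
  rw [finsum_add_distrib ((hf.union (supp_rt hf)).subset (Function.support_add _ _))
    (supp_rt (supp_rt hf)), finsum_add_distrib hf (supp_rt hf), e E,
    e (fun x => E (rt x)), e E, two, zero_add]

/-- the edge terms cancel -/
theorem edge_cancel (E : P → P → ZMod 2) (hs : ∀ a b, |D a b| = 1 → E a b = E b a)
    (hf : {x : FP | E x.1.1 x.1.2 ≠ 0}.Finite) :
    ∑ᶠ x : FP, (E x.1.1 x.1.2 + E x.1.2 (apex x.1.1 x.1.2) + E (apex x.1.1 x.1.2) x.1.1) = 0 := by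
  have := sum_dd (E := fun x : FP => E x.1.1 x.1.2) hf
  rw [sum_swp (fun x : FP => E x.1.1 x.1.2) (fun x => (hs _ _ x.2).symm) hf] at this
  rw [← this]
  refine finsum_congr fun x => ?_
  simp only [dd, rt, apex_rot x.2]

/-- the dual tree is connected -/
lemma conn (Q : P → P → Prop) (hs : ∀ a b, |D a b| = 1 → Q a b → Q b a)
    (hr : ∀ a b, |D a b| = 1 → Q a b → Q b (apex a b)) (h0 : Q ∞ ((0 : ℚ) : P)) :
    ∀ a b, |D a b| = 1 → Q a b := by
  have r2 : ∀ a b, |D a b| = 1 → Q (apex a b) a → Q a b := fun a b h k => by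
    have := hr _ _ (apex_l h) k
    rwa [apex_rot2 h] at this
  have r1 : ∀ a b, |D a b| = 1 → Q b (apex a b) → Q a b := fun a b h k => by
    have := hr _ _ (apex_r h) k
    rw [apex_rot h] at this
    exact r2 a b h this
  have t1 : ∀ a b e, |D a b| = 1 → |D a e| = 1 → |D b e| = 1 → Q a e → Q a b := by
    intro a b e h h1 h2 k
    rcases apex_or h h1 h2 with rfl | rfl
    · exact r2 a b h (hs _ _ h1 k)
    · have h' := (ab_symm a b).trans h
      exact hs _ _ h' (r1 b a h' k)
  have dn : ∀ m n : ℤ, D ((m : ℚ) : P) ((n : ℚ) : P) = m - n := fun m n => by simp [D]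
  have di : ∀ m : ℤ, |D ∞ ((m : ℚ) : P)| = 1 := fun m => by simp [D]
  have hz : ∀ n : ℤ, Q ∞ ((n : ℚ) : P) := by
    intro n
    induction n using Int.induction_on with
    | zero => simpa using h0
    | succ n ih => exact t1 _ _ _ (di _) (di _) (by rw [dn]; simp) ih
    | pred n ih =>
      exact t1 _ _ _ (di _) (di _) (by rw [dn, sub_sub_cancel_left, abs_neg, abs_one]) ih
  have hi : ∀ b, |D ∞ b| = 1 → Q ∞ b := by
    intro b hb
    cases b using OnePoint.rec with
    | infty => simp [D] at hb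
    | coe q =>
      have : q.den = 1 := by
        have : (q.den : ℤ) = 1 := by simpa [D] using hb
        exact_mod_cast this
      rw [← Rat.coe_int_num_of_den_eq_one this]
      exact hz _
  have key : ∀ n : ℕ, ∀ a b, |D a ∞| + |D b ∞| ≤ n → |D a ∞| ≤ |D b ∞| → |D a b| = 1 → Q a b := by
    intro n
    induction n with
    | zero =>
      intro a b h1 h2 h
      have := abs_nonneg (D a ∞)
      have ha : a = ∞ := D_eq_zero.1 (abs_eq_zero.1 (by push_cast at h1; omega))
      subst ha
      exact hi b h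
    | succ n ih =>
      intro a b h1 h2 h
      by_cases ha : a = ∞
      · subst ha
        exact hi b h
      have p0 := abs_pos.2 (D_ne ha)
      obtain ⟨e, e1, e2, e3⟩ : ∃ e, |D a e| = 1 ∧ |D b e| = 1 ∧ |D e ∞| = |D b ∞| - |D a ∞| := by
        have h' := (ab_symm a b).trans h
        obtain ⟨η, k0, k1⟩ := apex_D h
        obtain ⟨θ, l0, l1⟩ := apex_D h'
        have k2 : |D (apex a b) ∞| = |D a ∞ + D a b * D b ∞| := by
          rw [k1]; rcases k0 with rfl | rfl <;> simp only [one_mul, neg_mul, abs_neg]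
        have l2 : |D (apex b a) ∞| = |D b ∞ - D a b * D a ∞| := by
          rw [l1, D_swap a b]
          rcases l0 with rfl | rfl <;> simp only [one_mul, neg_mul, abs_neg, sub_eq_add_neg]
        have : |D (apex a b) ∞| = |D b ∞| - |D a ∞| ∨ |D (apex b a) ∞| = |D b ∞| - |D a ∞| := by
          rw [k2, l2]
          rcases pm h with e0 | e0 <;> rw [e0] <;>
            simp only [abs_eq_max_neg] at h2 ⊢ <;> omega
        rcases this with t | t
        · exact ⟨_, (ab_symm _ _).trans (apex_l h), apex_r h, t⟩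
        · exact ⟨_, apex_r h', (ab_symm _ _).trans (apex_l h'), t⟩
      refine t1 a b e h e1 e2 ?_
      rcases le_total |D a ∞| |D e ∞| with t | t
      · exact ih a e (by push_cast at h1 ⊢; omega) t e1
      · have e1' := (ab_symm a e).trans e1
        exact hs _ _ e1' (ih e a (by push_cast at h1 ⊢; omega) t e1')
  intro a b h
  have n0 : ∀ a b : P, |D a ∞| + |D b ∞| ≤ ((|D a ∞| + |D b ∞|).toNat : ℕ) := fun a b =>
    Int.self_le_toNat _
  rcases le_total |D a ∞| |D b ∞| with t | t
  · exact key _ a b (n0 a b) t h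
  · have h' := (ab_symm a b).trans h
    exact hs _ _ h' (key _ b a (n0 b a) t h')

/-- indicator of an oriented edge -/
noncomputable def ind (x y : FP) : ZMod 2 := if y = x then 1 else 0

lemma supp_ind (x : FP) : (Function.support (ind x)).Finite :=
  (Set.finite_singleton x).subset fun y hy => by
    by_contra h
    exact hy (if_neg h)

lemma dd_ind_rt (x : FP) : dd (ind (rt x)) = dd (ind x) := by
  funext y
  have i : ∀ u v : FP, rt u = rt v ↔ u = v := fun u v => rot.injective.eq_iff
  have e1 : ind (rt x) (rt y) = ind x y := by simp only [ind, i]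
  have e2 : ind (rt x) (rt (rt y)) = ind x (rt y) := by simp only [ind, i]
  have e3 : ind (rt x) y = ind x (rt (rt y)) := by
    have : y = rt x ↔ rt (rt y) = x := by rw [← i (rt (rt y)), rt3]
    simp only [ind, this]
  simp only [dd, e1, e2, e3]
  ring

/-- a finitely supported function on triangles of total sum zero is a coboundary -/
lemma prim (F : FP → ZMod 2) (hf : (Function.support F).Finite) (hr : ∀ x, F (rt x) = F x)
    (h0 : ∑ᶠ x, F x = 0) :
    ∃ g : FP → ZMod 2, (Function.support g).Finite ∧ (∀ x, g (swp x) = g x) ∧ dd g = F := by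
  let x0 : FP := ⟨(∞, ((0 : ℚ) : P)), by simp [D]⟩
  have key : ∀ x : FP, ∃ g : FP → ZMod 2, (Function.support g).Finite ∧ (∀ y, g (swp y) = g y) ∧
      ∀ y, dd g y = dd (ind x) y + dd (ind x0) y := by
    intro x
    refine conn (fun a b => ∀ h : |D a b| = 1, ∃ g : FP → ZMod 2, (Function.support g).Finite ∧
      (∀ y, g (swp y) = g y) ∧ ∀ y, dd g y = dd (ind ⟨(a, b), h⟩) y + dd (ind x0) y)
      ?_ ?_ ?_ _ _ x.2 x.2
    · intro a b h k h'
      obtain ⟨g, g1, g2, g3⟩ := k h
      refine ⟨fun y => g y + (ind ⟨(a, b), h⟩ y + ind ⟨(b, a), h'⟩ y), ?_, fun y => ?_, fun y => ?_⟩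
      · exact (g1.union (((supp_ind _).union (supp_ind _)).subset
          (Function.support_add _ _))).subset (Function.support_add _ _)
      · have s : ∀ u v : FP, ind u (swp v) = ind (swp u) v := fun u v => by
          have : swp v = u ↔ v = swp u := ⟨fun t => t ▸ rfl, fun t => t ▸ rfl⟩
          simp only [ind, this]
        beta_reduce
        rw [g2, s, s, add_comm (ind _ y)]
        rfl
      · have := g3 y
        have t := two (dd (ind ⟨(a, b), h⟩) y)
        simp only [dd] at this t ⊢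
        linear_combination this + t
    · intro a b h k h'
      obtain ⟨g, g1, g2, g3⟩ := k h
      exact ⟨g, g1, g2, fun y => by rw [g3, ← dd_ind_rt]; rfl⟩
    · intro h
      exact ⟨0, by simp, fun _ => rfl, fun y => by rw [two]; simp [dd]⟩
  choose γ γ1 γ2 γ3 using key
  refine ⟨fun y => ∑ x ∈ hf.toFinset, F x * γ x y, ?_, fun y => by simp only [γ2], ?_⟩
  · refine (hf.biUnion fun x _ => γ1 x).subset fun y hy => ?_
    obtain ⟨x, hx, h⟩ := Finset.exists_ne_zero_of_sum_ne_zero hy
    exact Set.mem_biUnion (hf.mem_toFinset.1 hx) (right_ne_zero_of_mul h)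
  · funext y
    have e : ∀ z, ∑ x ∈ hf.toFinset, F x * ind x z = F z := fun z => by
      rw [Finset.sum_eq_single z (fun x _ h => by simp [ind, h.symm])
        (fun h => by simpa [ind] using h)]
      simp [ind]
    rw [finsum_eq_sum _ hf] at h0
    have : dd (fun y => ∑ x ∈ hf.toFinset, F x * γ x y) y =
        ∑ x ∈ hf.toFinset, F x * dd (γ x) y := by
      simp only [dd, ← Finset.sum_add_distrib, mul_add]
    rw [this]
    simp only [γ3, mul_add, Finset.sum_add_distrib, ← Finset.sum_mul, h0, zero_mul, add_zero]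
    simp only [dd, mul_add, Finset.sum_add_distrib, e, hr, two, zero_add]

lemma exists_par {a c : P} (h : a ≠ c) : ∃ b, |D a b| = 1 ∧ |D b c| < |D a c| := by
  obtain ⟨A, hA⟩ := exists_inf a
  have h0 : |D (A • ((0 : ℚ) : P)) a| = 1 := by rw [← hA, abs_D_smul]; simp [D]
  generalize A • ((0 : ℚ) : P) = z at h0
  have n0 := D_ne h
  obtain ⟨η, b1, b2⟩ := comb h0 (-(D z c / D a c))
  have ab : ∀ x : ℤ, |η * x| = |x| := fun x => by rcases b1 with rfl | rfl <;> simp
  refine ⟨_, by rw [← ab_symm, b2, ab, D_self, mul_zero, add_zero, h0], ?_⟩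
  have r0 := Int.emod_nonneg (D z c) n0
  have r1 := Int.emod_lt_abs (D z c) n0
  have r2 := Int.emod_add_ediv_mul (D z c) (D a c)
  rw [b2, ab, show D z c + -(D z c / D a c) * D a c = D z c % D a c by linarith, abs_of_nonneg r0]
  exact r1

/-- extension of an edge function to all pairs along a Farey path -/
noncomputable def ext (g : P → P → ZMod 2) (f : P → P → P → ZMod 2) (c a : P) : ZMod 2 :=
  if h : a = c then 0 else
    g a (exists_par h).choose + ext g f c (exists_par h).choose + f a (exists_par h).choose c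
termination_by (D a c).natAbs
decreasing_by
  have := (exists_par h).choose_spec.2
  generalize (exists_par h).choose = z at this ⊢
  rwa [Int.abs_eq_natAbs, Int.abs_eq_natAbs, Int.ofNat_lt] at this

lemma ext_self (g : P → P → ZMod 2) (f : P → P → P → ZMod 2) (c : P) : ext g f c c = 0 := by
  rw [ext, dif_pos rfl]

lemma ext_step (g : P → P → ZMod 2) (f : P → P → P → ZMod 2) {a c : P} (h : a ≠ c) :
    ∃ b, |D a b| = 1 ∧ |D b c| < |D a c| ∧ ext g f c a = g a b + ext g f c b + f a b c :=
  ⟨_, (exists_par h).choose_spec.1, (exists_par h).choose_spec.2, by rw [ext, dif_neg h]⟩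

/-- symmetric cocycle on tuples of complexity at most `M` -/
structure Coc (M : ℤ) (f : P → P → P → ZMod 2) : Prop where
  s1 : ∀ a b c, f a b c = f b a c
  s2 : ∀ a b c, f a b c = f a c b
  dg : ∀ a b, f a a b = 0
  coc : ∀ a b c e, |D a b| ≤ M → |D a c| ≤ M → |D a e| ≤ M → |D b c| ≤ M → |D b e| ≤ M →
    |D c e| ≤ M → f a b c + f a b e + f a c e + f b c e = 0
  fin : {x : P × P × P | |D x.1 x.2.1| ≤ M ∧ |D x.1 x.2.2| ≤ M ∧ |D x.2.1 x.2.2| ≤ M ∧
    f x.1 x.2.1 x.2.2 ≠ 0}.Finite

section
variable {M : ℤ} {f : P → P → P → ZMod 2} {g : P → P → ZMod 2}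

lemma claim1 (hM : 1 ≤ M) (hf : Coc M f) (gs : ∀ a b, |D a b| = 1 → g a b = g b a)
    (gd : ∀ a b e, |D a b| = 1 → |D a e| = 1 → |D b e| = 1 → g a b + g b e + g a e = f a b e)
    (c : P) : ∀ n : ℕ, ∀ a b, |D a c| + |D b c| ≤ n → |D a b| = 1 → |D a c| ≤ M → |D b c| ≤ M →
      ext g f c a + ext g f c b = g a b + f a b c := by
  intro n
  induction n with
  | zero =>
    intro a b h1 h _ _
    have := abs_nonneg (D a c)
    have := abs_nonneg (D b c)
    have ha : a = c := D_eq_zero.1 (abs_eq_zero.1 (by push_cast at h1; omega))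
    have hb : b = c := D_eq_zero.1 (abs_eq_zero.1 (by push_cast at h1; omega))
    exact absurd (ha.trans hb.symm) (fa_ne h)
  | succ n ih =>
    have key : ∀ a b, |D a c| + |D b c| ≤ (n + 1 : ℕ) → |D a b| = 1 → |D b c| ≤ M →
        |D a c| ≤ |D b c| → ext g f c a + ext g f c b = g a b + f a b c := by
      intro a b h1 h h3 h4
      have hb : b ≠ c := by
        rintro rfl
        rw [D_self, abs_zero] at h4
        exact fa_ne h (D_eq_zero.1 (abs_nonpos_iff.1 h4))
      obtain ⟨e, e1, e2, e3⟩ := ext_step g f hb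
      by_cases hae : a = e
      · subst hae
        rw [e3, gs _ _ h, hf.s1 a b c]
        linear_combination two (ext g f c a)
      have h5 : |D a e| = 1 := by
        have p := pluecker a e b c
        have q : |D a e| * |D b c| ≤ |D e c| + |D a c| := by
          rw [← abs_mul, p]
          refine (abs_sub _ _).trans ?_
          rw [abs_mul, abs_mul, h, ab_symm b e, e1]
          simp
        have := abs_pos.2 (D_ne hae)
        by_contra hc
        have h6 : 2 ≤ |D a e| := by omega
        have := mul_le_mul_of_nonneg_right h6 (abs_nonneg (D b c))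
        omega
      have i := ih a e (by push_cast at h1 ⊢; omega) h5 (by omega) (by omega)
      have j := hf.coc a b e c (by omega) (by omega) (by omega) (by omega) h3 (by omega)
      have k := gd a b e h h5 e1
      rw [e3]
      linear_combination i + j + k - two (g a b) - two (f a b c)
    intro a b h1 h h2 h3
    rcases le_total |D a c| |D b c| with t | t
    · exact key a b h1 h h3 t
    · rw [add_comm, key b a (by omega) ((ab_symm a b).trans h) h2 t, gs _ _ h, hf.s1]

lemma claim2 {M0 : ℤ} (hM : 1 ≤ M0) (hf : Coc M f) (gs : ∀ a b, |D a b| = 1 → g a b = g b a)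
    (gd : ∀ a b e, |D a b| = 1 → |D a e| = 1 → |D b e| = 1 → g a b + g b e + g a e = f a b e)
    {b c : P} (hbc : |D b c| ≤ M0) : ∀ n : ℕ, ∀ a, |D a b| ≤ n → |D a c| + n * M0 ≤ M → M0 ≤ M →
      ext g f c a + ext g f c b + ext g f b a = f a b c := by
  intro n
  induction n with
  | zero =>
    intro a h1 _ _
    have ha : a = b := D_eq_zero.1 (abs_nonpos_iff.1 (by simpa using h1))
    subst ha
    rw [two, ext_self, hf.dg, add_zero]
  | succ n ih =>
    intro a h1 h2 h3
    by_cases ha : a = b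
    · subst ha
      rw [two, ext_self, hf.dg, add_zero]
    obtain ⟨e, e1, e2, e3⟩ := ext_step g f ha
    have z0 := abs_nonneg (D a c)
    have z1 := abs_nonneg (D e b)
    have z2 := abs_nonneg (D e c)
    push_cast at h1 h2
    have z3 : (n : ℤ) * 1 ≤ n * M0 := mul_le_mul_of_nonneg_left hM (by positivity)
    have h5 : |D e c| ≤ |D a c| + M0 := by
      have p := pluecker a b e c
      have q : |D a b| * |D e c| ≤ |D b c| + |D a c| * |D e b| := by
        rw [← abs_mul, p]
        refine (abs_sub _ _).trans ?_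
        rw [abs_mul, abs_mul, e1, ab_symm e b]
        simp
      by_contra hc
      push Not at hc
      nlinarith
    have i := ih e (by omega) (by linarith) h3
    have j := hf.coc a e b c (by omega) (by linarith) (by linarith) (by linarith) (by linarith)
      (by omega)
    have k := claim1 (by omega) hf gs gd c _ a e (Int.self_le_toNat _) e1 (by linarith)
      (by linarith)
    rw [e3]
    have s1 := hf.s1 a e b
    linear_combination i + j + k + two (g a e) - two (ext g f c e) - two (f a b c)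

lemma ext_ne (hM : 1 ≤ M) (b : P) : ∀ n : ℕ, ∀ a, |D a b| ≤ n → |D a b| ≤ M → ext g f b a ≠ 0 →
    ∃ x y, |D x y| = 1 ∧ |D x b| ≤ M ∧ |D y b| ≤ M ∧ (g x y ≠ 0 ∨ f x y b ≠ 0) := by
  intro n
  induction n with
  | zero =>
    intro a h1 _ h
    have ha : a = b := D_eq_zero.1 (abs_nonpos_iff.1 (by simpa using h1))
    exact absurd (ha ▸ ext_self g f b) h
  | succ n ih =>
    intro a h1 h2 h
    have ha : a ≠ b := fun t => h (t ▸ ext_self g f b)
    obtain ⟨e, e1, e2, e3⟩ := ext_step g f ha
    by_cases k : ext g f b e = 0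
    · refine ⟨a, e, e1, h2, by omega, ?_⟩
      by_contra hc
      push Not at hc
      exact h (by rw [e3, k, hc.1, hc.2]; simp)
    · exact ih e (by push_cast at h1; omega) (by omega) k

end

/-- if the sum over the Farey triangles vanishes, so does the sum over their images -/
theorem chain (M0 : ℤ) (s : P → P) (hs : Function.Injective s)
    (hb : ∀ a b, |D a b| = 1 → |D (s a) (s b)| ≤ M0) (f : P → P → P → ZMod 2)
    (hf : Coc (M0 ^ 2 + M0) f)
    (h0 : ∑ᶠ x : FP, f x.1.1 x.1.2 (apex x.1.1 x.1.2) = 0) :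
    ∑ᶠ x : FP, f (s x.1.1) (s x.1.2) (s (apex x.1.1 x.1.2)) = 0 := by
  have hM : 1 ≤ M0 := by
    have h : |D ∞ ((0 : ℚ) : P)| = 1 := by simp [D]
    exact le_trans (abs_pos.2 (D_ne (hs.ne (fa_ne h)))) (hb _ _ h)
  have hM1 : M0 ≤ M0 ^ 2 + M0 := by nlinarith
  obtain ⟨γ, γ1, γ2, γ3⟩ := prim (fun x : FP => f x.1.1 x.1.2 (apex x.1.1 x.1.2))
    (by
      refine (hf.fin.preimage (f := fun x : FP => (x.1.1, x.1.2, apex x.1.1 x.1.2)) ?_).subset
        fun x hx => ⟨?_, ?_, ?_, hx⟩
      · intro x _ y _ h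
        simp only [Prod.mk.injEq] at h
        exact Subtype.ext (Prod.ext h.1 h.2.1)
      · rw [x.2]; omega
      · rw [← ab_symm, apex_l x.2]; omega
      · rw [apex_r x.2]; omega)
    (fun x => by simp only [rt, apex_rot x.2]; rw [hf.s2, hf.s1]) h0
  let g : P → P → ZMod 2 := fun a b => if h : |D a b| = 1 then γ ⟨(a, b), h⟩ else 0
  have ge : ∀ a b (h : |D a b| = 1), g a b = γ ⟨(a, b), h⟩ := fun a b h => dif_pos h
  have gs : ∀ a b, |D a b| = 1 → g a b = g b a := fun a b h => by
    rw [ge _ _ h, ge _ _ ((ab_symm a b).trans h)]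
    exact (γ2 _).symm
  have g0 : ∀ a b, |D a b| = 1 → g a b + g b (apex a b) + g (apex a b) a = f a b (apex a b) := by
    intro a b h
    have := congrFun γ3 ⟨(a, b), h⟩
    simp only [dd] at this
    rw [ge _ _ h, ge _ _ (apex_r h), ge _ _ (apex_l h), ← this]
    simp only [rt, apex_rot h]
  have gd : ∀ a b e, |D a b| = 1 → |D a e| = 1 → |D b e| = 1 →
      g a b + g b e + g a e = f a b e := by
    intro a b e h h1 h2
    rcases apex_or h h1 h2 with rfl | rfl
    · rw [gs _ _ h1, g0 _ _ h]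
    · rw [hf.s1, ← g0 _ _ ((ab_symm a b).trans h), gs _ _ h, gs _ _ h2]
      ring
  have c2 : ∀ a b c, |D a b| ≤ M0 → |D a c| ≤ M0 → |D b c| ≤ M0 →
      ext g f c a + ext g f c b + ext g f b a = f a b c := fun a b c h1 h2 h3 =>
    claim2 hM hf gs gd h3 M0.toNat a (h1.trans (Int.self_le_toNat _))
      (by rw [Int.toNat_of_nonneg (by omega)]; nlinarith) hM1
  have sy : ∀ a b, |D a b| ≤ M0 → ext g f a b = ext g f b a := fun a b h => by
    have := c2 a b a h (by rw [D_self, abs_zero]; omega) ((ab_symm a b).trans_le h)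
    rw [ext_self, hf.s2, hf.dg] at this
    linear_combination this - two (ext g f b a)
  obtain ⟨B, B1, B2⟩ : ∃ B : Set P, B.Finite ∧ ∀ a b, |D a b| ≤ M0 → ext g f b a ≠ 0 → b ∈ B := by
    let S : Set (P × P) := {x | x.1 ≠ x.2} ∩ ((fun x : FP => x.1) '' Function.support γ ∪
      (fun x : P × P × P => (x.1, x.2.1)) '' {x : P × P × P | |D x.1 x.2.1| ≤ M0 ^ 2 + M0 ∧
        |D x.1 x.2.2| ≤ M0 ^ 2 + M0 ∧ |D x.2.1 x.2.2| ≤ M0 ^ 2 + M0 ∧ f x.1 x.2.1 x.2.2 ≠ 0})
    have hS : S.Finite := ((γ1.image _).union (hf.fin.image _)).inter_of_right _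
    refine ⟨_, hS.biUnion fun x hx => finite_near hx.1 (M0 ^ 2 + M0), fun a b h k => ?_⟩
    obtain ⟨x, y, x1, x2, x3, x4⟩ := ext_ne (by omega) b _ a (Int.self_le_toNat _) (h.trans hM1) k
    refine Set.mem_biUnion (x := (x, y)) ⟨fa_ne x1, ?_⟩ ⟨x2, x3⟩
    rcases x4 with t | t
    · exact Or.inl ⟨⟨(x, y), x1⟩, by rwa [ge _ _ x1] at t, rfl⟩
    · exact Or.inr ⟨(x, y, b), ⟨by rw [x1]; omega, x2, x3, t⟩, rfl⟩
  rw [← edge_cancel (fun a b => ext g f (s b) (s a)) (fun a b h => (sy _ _ (hb a b h)).symm)]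
  · refine finsum_congr fun x => ?_
    have t := hb _ _ (apex_l x.2)
    rw [← c2 _ _ _ (hb _ _ x.2) ((ab_symm _ _).trans_le t) (hb _ _ (apex_r x.2)), sy _ _ t]
    ring
  · refine ((B1.prod B1).preimage (f := fun x : FP => (s x.1.1, s x.1.2)) ?_).subset
      fun x hx => ⟨?_, B2 _ _ (hb _ _ x.2) hx⟩
    · intro x _ y _ h
      simp only [Prod.mk.injEq] at h
      exact Subtype.ext (Prod.ext (hs h.1) (hs h.2))
    · exact B2 _ _ ((ab_symm _ _).trans_le (hb _ _ x.2)) (by rw [sy _ _ (hb _ _ x.2)]; exact hx)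

end Pool.Agent.Lib.THU.CV
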