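import Pool.Agent.Lib.THU.CV.Defs
import Pool.Agent.Lib.THU.CV.Final
import Pool.Agent.Lib.THU.GE.Defs
import Pool.Agent.Lib.THU.NB.All
import Pool.Agent.Lib.THU.NB.FAR

/-!
Assembly of the hyperbolization of fibred manifolds from the blocks of the part CV.
-/

namespace Pool.Agent.Lib.THU.CV

open Pool.Agent.Lib.THU Pool.Agent.Lib.THU.NB

theorem pt_smul {s : ℂ} (hs : s ≠ 0) (x : Fin 2 → ℂ) : AN.pt (s • x) = AN.pt x := by
  simp [AN.pt, hs, mul_div_mul_left]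

theorem far_edges {G : Type} [Group G] [MulAction G FA.P] {C : Cusp G FA.P} (φ : GE.Far C) :
    ∃ C' : Cusp G FA.P, Nonempty (GE.Far C') ∧ ∀ a b, C'.E a b ↔ |FA.D a b| = 1 := by
  obtain ⟨C', h1, -, h3⟩ := exists_cusp G C.d C.m C.bas C.t C.dt φ.σ φ.lat φ.act C.per
  have key : ∀ (d : G →* Multiplicative ℤ) (s : d.ker →* FA.GZ), FA.Lat s →
      (∀ (x : d.ker) (p : FA.P), (x : G) • p = s x • p) → C'.d = d → Nonempty (GE.Far C') := by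
    rintro _ s a b rfl
    exact ⟨⟨s, a, b⟩⟩
  exact ⟨C', key _ φ.σ φ.lat φ.act h1, h3⟩

/-- assembly -/
theorem thu_of (hE : AN.St_EI) (hF : GE.St_FAR) (hM : GE.St_MOD) (hA : AN.St_AN) (hD : St_DEC)
    (hX : St_FIX2) (hB : St_BDD) (hC : St_COVER) (hL : St_LIMIT) : FBC.RH.St_THU := by
  intro G _ d h1 h2 h3
  obtain ⟨E⟩ := hE
  obtain ⟨_, C₀, ⟨φ₀⟩⟩ := hF G d h1 h2 h3
  obtain ⟨C, ⟨φ⟩, hE⟩ := far_edges φ₀
  obtain ⟨v, K, L, B, a1, -, a2, a3, a4⟩ := hA E G C (hM G C φ)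
  choose s s1 s2 using fun n => hD G _ C (v n) (a1 n)
  have fx := hX G _ C (v 0) (a1 0)
  obtain ⟨A, g, B₁, f⟩ := hC G C hE (fun x hx a b => by
    rw [φ.act ⟨x, hx⟩ a, φ.act ⟨x, hx⟩ b, FA.abs_D_smul]) fx _ s2
    (hB G _ C v s s1 s2 (stNB G _ C v L B a1 a2 a3))
  obtain ⟨u, u1, u2⟩ := hL E G C _ K s2 (fun n g N M a => by
    simpa only [pt_smul (s1 _ _)] using a4 n g N M a) A g B₁ f
  obtain ⟨a, b, hab⟩ := C.two
  exact final G _ (fun g n hn e => h1.torsionFree hn e) a b hab (fun g => fx g a b hab) u u1 u2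

end Pool.Agent.Lib.THU.CV
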