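import Pool.Agent.Lib.THU.CV.Defs
import Pool.Agent.Lib.THU.NB.GENB

/-!
Bounded cross ratios give bounded determinants.
-/

namespace Pool.Agent.Lib.THU.CV

open Pool.Agent.Lib.THU Pool.Agent.Lib.THU.NB

variable {G : Type} [Group G] {P : Type} [MulAction G P] {C : Cusp G P} {u : P → Fin 2 → ℂ}

theorem norm_om_comm (x y : Fin 2 → ℂ) : ‖om x y‖ = ‖om y x‖ := by
  rw [← norm_neg]; congr 1; simp only [om]; ring

theorem Dec.sq0 (h : Dec C u) (x y : P) : ‖om (u x) (u (C.c y • x))‖ = ‖om (u x) (u y)‖ ^ 2 := by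
  obtain ⟨μ, h1, h2⟩ := h.par y x
  have : om (u x) (u (C.c y • x)) = -(μ * om (u x) (u y) ^ 2) := by
    rw [h2]; simp only [om, Pi.smul_apply, Pi.add_apply, smul_eq_mul]; ring
  rw [this, norm_neg, norm_mul, h1, one_mul, norm_pow]

/-- the parabolic of `b` moves `a` by the square of the determinant, on every level -/
theorem Dec.sq (h : Dec C u) (s : G) (a b : P) :
    ‖om (u (s • a)) (u (s • C.c b • a))‖ = ‖om (u (s • a)) (u (s • b))‖ ^ 2 := by
  have e : s • C.c b • a = (s * C.c b * s⁻¹) • s • a := by rw [mul_smul, inv_smul_smul, mul_smul]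
  rw [e]
  rcases C.c_conj s b with h1 | h1 <;> rw [h1]
  · exact h.sq0 _ _
  · rw [← h.inv _ (C.c_mem (s • b)), smul_inv_smul, norm_om_comm]
    exact h.sq0 _ _

theorem Dec.one (h : Dec C u) (s : G) (a b : P) :
    ‖om (u (s • a)) (u (s • C.c a • b))‖ = ‖om (u (s • a)) (u (s • b))‖ := by
  rw [← h.inv _ (C.conj_mem s (C.c_mem a)) (s • a) (s • b)]
  simp only [mul_smul, inv_smul_smul, C.c_fix]

theorem crl_smul (v : P → Fin 2 → ℂ) (s : P → ℂ) (hs : ∀ a, s a ≠ 0) {a b c e : P}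
    (h : ∀ a b, a ≠ b → om (s a • v a) (s b • v b) ≠ 0) (hd : Dis a b c e) :
    crl (fun a => s a • v a) a b c e = crl v a b c e := by
  have k : ∀ a b, a ≠ b → Real.log ‖om (s a • v a) (s b • v b)‖ =
      Real.log ‖s a‖ + Real.log ‖s b‖ + Real.log ‖om (v a) (v b)‖ := fun a b hab => by
    have h0 := h a b hab
    rw [Dec.om_smul] at h0 ⊢
    have h1 := norm_ne_zero_iff.2 (hs a)
    have h2 := norm_ne_zero_iff.2 (hs b)
    have h3 := norm_ne_zero_iff.2 (right_ne_zero_of_mul h0)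
    rw [norm_mul, norm_mul, Real.log_mul (mul_ne_zero h1 h2) h3, Real.log_mul h1 h2]
  obtain ⟨h1, h2, -, -, h5, h6⟩ := hd
  simp only [crl, k _ _ h1, k _ _ h2, k _ _ h5, k _ _ h6]
  ring

/-- the square of the determinant is a cross ratio -/
theorem Dec.crl_eq (h : Dec C u) (s : G) (a b : P) :
    crl u (s • a) (s • C.c b • a) (s • C.c a • b) (s • b) =
      2 * Real.log ‖om (u (s • a)) (u (s • b))‖ := by
  simp only [crl]
  rw [h.sq, h.one, norm_om_comm (u (s • C.c a • b)), h.sq, norm_om_comm (u (s • C.c b • a)),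
    h.one, norm_om_comm (u (s • b)), Real.log_pow]
  push_cast
  ring

theorem stBDD : St_BDD := by
  intro G _ P _ C v s hs hD hM a b
  by_cases hab : a = b
  · exact ⟨0, fun n k _ => by simp [hab, om, mul_comm]⟩
  by_cases hp : C.c b • a = C.c a • b
  · refine ⟨1, fun n k _ => ?_⟩
    have h1 := (hD n).sq (C.t ^ k) a b
    rw [hp, (hD n).one] at h1
    nlinarith
  have hd : Dis a (C.c b • a) (C.c a • b) b :=
    ⟨fun e => hab (C.fix1 _ (C.c_mem b) (C.c_ne b) a b e.symm (C.c_fix b)),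
      fun e => hab (MulAction.injective (C.c a) ((C.c_fix a).trans e)), hab, hp,
      fun e => hab (MulAction.injective (C.c b) (e.trans (C.c_fix b).symm)),
      fun e => hab (C.fix1 _ (C.c_mem a) (C.c_ne a) a b (C.c_fix a) e)⟩
  obtain ⟨M, hM⟩ := hM _ _ _ _ hd
  refine ⟨Real.exp M, fun n k hk => ?_⟩
  have inj : ∀ {a b : P}, a ≠ b → C.t ^ k • a ≠ C.t ^ k • b :=
    fun h e => h (MulAction.injective _ e)
  obtain ⟨h1, h2, h3, h4, h5, h6⟩ := hd
  have h7 := hM n k hk
  rw [← crl_smul (v n) (s n) (hs n) (fun a b hab => norm_pos_iff.1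
    (zero_lt_one.trans_le ((hD n).low a b hab))) ⟨inj h1, inj h2, inj h3, inj h4, inj h5, inj h6⟩,
    (hD n).crl_eq] at h7
  have h8 := (hD n).low _ _ (inj hab)
  have h9 := Real.log_nonneg h8
  exact (Real.log_le_iff_le_exp (zero_lt_one.trans_le h8)).1 (by linarith [(abs_le.1 h7).2])

end Pool.Agent.Lib.THU.CV
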