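import Pool.Agent.Lib.THU.CV.Core
import Pool.Agent.Lib.THU.NB.RT

/-!
Step (6): the remarked representations fill space.
-/

namespace Pool.Agent.Lib.THU.CV

open Matrix Filter Topology OnePoint
open Pool.Agent.Lib.THU Pool.Agent.Lib.THU.NB Pool.Agent.Lib.THU.FA
open scoped Classical

lemma hs_comb (a b : ℂ) (x y : C2v) :
    hs (a • x + b • y) ≤ 2 * (‖a‖ ^ 2 * hs x + ‖b‖ ^ 2 * hs y) := by
  have key : ∀ p q : ℂ, ‖p + q‖ ^ 2 ≤ 2 * (‖p‖ ^ 2 + ‖q‖ ^ 2) := fun p q => by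
    have := pow_le_pow_left₀ (norm_nonneg _) (norm_add_le p q) 2
    nlinarith [sq_nonneg (‖p‖ - ‖q‖)]
  have h0 := key (a * x 0) (b * y 0)
  have h1 := key (a * x 1) (b * y 1)
  simp only [hs, Pi.add_apply, Pi.smul_apply, smul_eq_mul, norm_mul, mul_pow] at h0 h1 ⊢
  linarith

lemma hs_smul (a : ℂ) (x : C2v) : hs (a • x) = ‖a‖ ^ 2 * hs x := by
  simp only [hs, Pi.smul_apply, smul_eq_mul, norm_mul, mul_pow]; ring

lemma hs_third {x y z : C2v} {R B : ℝ} (h : 1 ≤ ‖om x y‖) (hx : hs x ≤ R) (hy : hs y ≤ R)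
    (h1 : ‖om z y‖ ≤ B) (h2 : ‖om x z‖ ≤ B) : hs z ≤ 4 * B ^ 2 * R := by
  have e : om x y • z = om z y • x + om x z • y := by
    ext i
    fin_cases i <;> simp [om] <;> ring
  have k := hs_comb (om z y) (om x z) x y
  rw [← e, hs_smul] at k
  have := mul_le_mul (pow_le_pow_left₀ (norm_nonneg _) h1 2) hx (hs_nonneg _) (sq_nonneg _)
  have := mul_le_mul (pow_le_pow_left₀ (norm_nonneg _) h2 2) hy (hs_nonneg _) (sq_nonneg _)
  have := mul_le_mul_of_nonneg_right (one_le_pow₀ (n := 2) h) (hs_nonneg z)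
  linarith

/-- the frame of two vectors -/
noncomputable def F2 (x y : C2v) : M2 := !![y 1 / om x y, -y 0 / om x y; -x 1, x 0]

lemma F2_0 (x y v : C2v) : (F2 x y *ᵥ v) 0 = om v y / om x y := by
  simp [F2, mulVec, dotProduct, om]; ring

lemma F2_1 (x y v : C2v) : (F2 x y *ᵥ v) 1 = om x v := by
  simp [F2, mulVec, dotProduct, om]; ring

lemma F2_det {x y : C2v} (h : om x y ≠ 0) : (F2 x y).det = 1 := by
  simp only [F2, det_fin_two_of]
  field_simp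
  simp only [om]
  ring

lemma F2_x {x y : C2v} (h : om x y ≠ 0) : F2 x y *ᵥ x = ![1, 0] := by
  ext i
  fin_cases i <;> simp [F2_0, F2_1, om_self, h]

lemma F2_cmp {x y : C2v} {A : M2} (hA : A.det = 1) {R : ℝ} (h : 1 ≤ ‖om x y‖)
    (hx : hs (A *ᵥ x) ≤ R) (hy : hs (A *ᵥ y) ≤ R) : Cmp (2 * R) A (F2 x y) := by
  intro v
  have n : om x y ≠ 0 := fun e => by rw [e, norm_zero] at h; linarith
  have R0 := (hs_nonneg _).trans hx
  have dv : ∀ z : ℂ, ‖z / om x y‖ ^ 2 ≤ ‖z‖ ^ 2 := fun z => by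
    rw [norm_div]
    exact pow_le_pow_left₀ (by positivity) (div_le_self (norm_nonneg _) h) 2
  have e1 : hs (F2 x y *ᵥ v) = ‖om v y / om x y‖ ^ 2 + ‖om x v‖ ^ 2 := by rw [hs, F2_0, F2_1]
  constructor
  · have e : v = (om v y / om x y) • x + (om x v / om x y) • y := by
      ext i
      fin_cases i <;> simp <;> field_simp <;> simp only [om] <;> ring
    have k := hs_comb (om v y / om x y) (om x v / om x y) (A *ᵥ x) (A *ᵥ y)
    rw [← mulVec_smul, ← mulVec_smul, ← mulVec_add, ← e] at k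
    have := mul_le_mul_of_nonneg_left hx (sq_nonneg ‖om v y / om x y‖)
    have := mul_le_mul (dv (om x v)) hy (hs_nonneg _) (sq_nonneg _)
    rw [e1]
    linarith
  · have k1 := om_sq_le (A *ᵥ v) (A *ᵥ y)
    have k2 := om_sq_le (A *ᵥ x) (A *ᵥ v)
    rw [om_mul, hA, one_mul] at k1 k2
    have := mul_le_mul_of_nonneg_left hy (hs_nonneg (A *ᵥ v))
    have := mul_le_mul_of_nonneg_right hx (hs_nonneg (A *ᵥ v))
    have := dv (om v y)
    rw [e1]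
    linarith

lemma Cmp.trans {κ κ' : ℝ} {A B C : M2} (h : Cmp κ A B) (k : Cmp κ' B C) (k0 : 0 ≤ κ)
    (k1 : 0 ≤ κ') : Cmp (κ * κ') A C := fun v =>
  ⟨by rw [mul_assoc]; exact (h v).1.trans (mul_le_mul_of_nonneg_left (k v).1 k0),
    by rw [mul_comm κ, mul_assoc]; exact (k v).2.trans (mul_le_mul_of_nonneg_left (h v).2 k1)⟩

lemma Cmp.mul {κ : ℝ} {A B : M2} (h : Cmp κ A B) (C : M2) : Cmp κ (A * C) (B * C) := fun v => by
  simpa only [mulVec_mulVec] using h (C *ᵥ v)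

lemma Cmp.mono {κ κ' : ℝ} {A B : M2} (h : Cmp κ A B) (k : κ ≤ κ') : Cmp κ' A B := fun v =>
  ⟨(h v).1.trans (mul_le_mul_of_nonneg_right k (hs_nonneg _)),
    (h v).2.trans (mul_le_mul_of_nonneg_right k (hs_nonneg _))⟩

lemma vertex_near {A : M2} (hA : A.det = 1) {H : W4} (hH : H ∈ Bx A 2) {a b c e : C2v}
    (h : H ∈ C4 (VV a) (VV b) (VV c) (VV e)) :
    ∃ x, (x = a ∨ x = b ∨ x = c ∨ x = e) ∧ ‖(A *ᵥ x) 0‖ < 3 * ‖(A *ᵥ x) 1‖ := by
  by_contra hc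
  push Not at hc
  obtain ⟨p, q, r, s, h1, h2, h3, h4, rfl⟩ := h
  have t0 := (hH ![A 0 1, -A 0 0]).2
  have t1 := (hH ![A 1 1, -A 1 0]).1
  rw [det_fin_two] at hA
  have e0 : hs (A *ᵥ ![A 0 1, -A 0 0]) = 1 := by
    have : A 0 1 * A 1 0 - A 0 0 * A 1 1 = -1 := by linear_combination -hA
    simp [hs, mulVec, dotProduct, mul_comm, ← sub_eq_add_neg, this]
  have e1 : hs (A *ᵥ ![A 1 1, -A 1 0]) = 1 := by
    simp [hs, mulVec, dotProduct, mul_comm (A 1 1) (A 1 0), ← sub_eq_add_neg, hA]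
  have key : ∀ x, 3 * ‖(A *ᵥ x) 1‖ ≤ ‖(A *ᵥ x) 0‖ →
      9 * Q ![A 1 1, -A 1 0] (VV x) ≤ Q ![A 0 1, -A 0 0] (VV x) := fun x h => by
    have k0 : om ![A 0 1, -A 0 0] x = (A *ᵥ x) 0 := by simp [om, mulVec, dotProduct]; ring
    have k1 : om ![A 1 1, -A 1 0] x = (A *ᵥ x) 1 := by simp [om, mulVec, dotProduct]; ring
    rw [Q_VV, Q_VV, om_swap _ x, om_swap _ x, k0, k1]
    nlinarith [norm_nonneg ((A *ᵥ x) 1)]
  have := mul_le_mul_of_nonneg_left (key a (hc a (by simp))) h1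
  have := mul_le_mul_of_nonneg_left (key b (hc b (by simp))) h2
  have := mul_le_mul_of_nonneg_left (key c (hc c (by simp))) h3
  have := mul_le_mul_of_nonneg_left (key e (hc e (by simp))) h4
  simp only [map_add, _root_.map_smul, smul_eq_mul, e0, e1] at t0 t1
  linarith

section
variable {G : Type} [Group G] [MulAction G P] (C : Cusp G P)

lemma pairs_fin (hE : ∀ a b, C.E a b ↔ |D a b| = 1)
    (hD : ∀ x ∈ C.d.ker, ∀ a b : P, |D (x • a) (x • b)| = |D a b|) (M : ℤ) :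
    ∃ S : Finset (P × P), ∀ a b, a ≠ b → |D a b| ≤ M → ∃ x ∈ C.d.ker, (x • a, x • b) ∈ S := by
  have f : (⋃ e ∈ (C.E0 : Set (P × P)),
      (fun w => (e.1, w)) '' {w | |D e.1 w| ≤ M ∧ |D e.2 w| ≤ M}).Finite :=
    C.E0.finite_toSet.biUnion fun e he => (finite_near (C.E0_ne e he) M).image _
  refine ⟨f.toFinset, fun a b hab h => ?_⟩
  obtain ⟨a', h1, h2⟩ := exists_par hab
  obtain ⟨x, x1, x2⟩ := C.E_fin a a' ((hE _ _).2 h1)
  refine ⟨x, x1, f.mem_toFinset.2 (Set.mem_biUnion x2 ⟨x • b, ⟨?_, ?_⟩, rfl⟩)⟩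
  · rwa [hD x x1]
  · rw [hD x x1]; omega

lemma Dec.conj {u : P → C2v} (h : Dec C u) (g : G) {x : G} (hx : x ∈ C.d.ker) (a b : P) :
    ‖om (u (g • x • a)) (u (g • x • b))‖ = ‖om (u (g • a)) (u (g • b))‖ := by
  rw [← h.inv _ (C.conj_mem g hx) (g • a)]
  simp [mul_smul]

lemma level_count (hE : ∀ a b, C.E a b ↔ |D a b| = 1) (hF : Fix2 G P) (R : ℝ) : ∃ N : ℕ,
    ∀ (u : P → C2v) (S : Finset ℕ), (∀ a b, a ≠ b → 1 ≤ ‖om (u a) (u b)‖) →
      (∀ k ∈ S, ∃ a b, |D a b| = 1 ∧ hs (u (C.t ^ k • a)) ≤ R ∧ hs (u (C.t ^ k • b)) ≤ R) →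
      S.card ≤ N := by
  obtain ⟨N, hN⟩ := pack R
  refine ⟨C.E0.card * (N * N), fun u S low h => ?_⟩
  have f := pack_fin u R low
  have c := hN P u f.toFinset (fun a ha => f.mem_toFinset.1 ha) fun a _ b _ => low a b
  choose! a b h1 h2 h3 using h
  choose! x x1 x2 using fun k hk => C.E_fin (a k) (b k) ((hE _ _).2 (h1 k hk))
  refine le_trans (Finset.card_le_card_of_injOn (t := C.E0 ×ˢ (f.toFinset ×ˢ f.toFinset))
    (fun k => ((x k • a k, x k • b k), C.t ^ k • a k, C.t ^ k • b k)) (fun k hk => ?_)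
    fun k hk l hl e => ?_) ?_
  · simp only [Finset.coe_product, Set.mem_prod, Finset.mem_coe, Set.Finite.mem_toFinset]
    exact ⟨x2 k hk, h2 k hk, h3 k hk⟩
  · simp only [Prod.mk.injEq] at e
    have key : ∀ p q : P, x k • p = x l • q → C.t ^ k • p = C.t ^ l • q →
        ((x k)⁻¹ * x l * (C.t ^ l)⁻¹ * C.t ^ k) • p = p := fun p q e1 e2 => by
      simp only [mul_smul, e2, inv_smul_smul, ← e1]
    have := congrArg C.d (hF _ _ _ (fa_ne (h1 k hk)) (key _ _ e.1.1 e.2.1) (key _ _ e.1.2 e.2.2))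
    simp only [map_mul, map_inv, map_pow, C.dt, MonoidHom.mem_ker.1 (x1 k hk),
      MonoidHom.mem_ker.1 (x1 l hl), map_one] at this
    have := congrArg Multiplicative.toAdd this
    simp at this
    omega
  · simp only [Finset.card_product]
    gcongr

theorem cover0 (hE : ∀ a b, C.E a b ↔ |D a b| = 1)
    (hD : ∀ x ∈ C.d.ker, ∀ a b : P, |D (x • a) (x • b)| = |D a b|) (hF : Fix2 G P)
    (u : ℕ → P → C2v) (hu : ∀ n, Dec C (u n)) (hB : Bdd C u) (hi : ∀ n, u n ∞ = ![1, 0]) :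
    ∃ (A : ℕ → M2) (g : ℕ → G) (B₁ : ℝ), Fill u A g B₁ := by
  have hB' : ∀ a b, ∃ B : ℝ, 0 ≤ B ∧ ∀ n k : ℕ, k ≤ n →
      ‖om (u n (C.t ^ k • a)) (u n (C.t ^ k • b))‖ ≤ B := fun a b => by
    obtain ⟨B, h⟩ := hB a b
    exact ⟨B, (norm_nonneg _).trans (h 0 0 (by simp)), fun n k hk => by
      simpa using h n k (by simpa using hk)⟩
  choose Bf Bf0 hBf using hB'
  obtain ⟨M0, hb⟩ : ∃ M0 : ℤ, ∀ a b : P, |D a b| = 1 → |D (C.t • a) (C.t • b)| ≤ M0 := by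
    refine ⟨∑ e ∈ C.E0, |D (C.t • e.1) (C.t • e.2)|, fun a b h => ?_⟩
    obtain ⟨x, x1, x2⟩ := C.E_fin a b ((hE _ _).2 h)
    rw [← hD _ (C.conj_mem C.t x1)]
    simpa [mul_smul] using Finset.single_le_sum (f := fun e : P × P => |D (C.t • e.1) (C.t • e.2)|)
      (fun _ _ => abs_nonneg _) x2
  have i0 : (∞ : P) ≠ ((0 : ℚ) : P) := infty_ne_coe _
  have hM : 1 ≤ M0 := le_trans (abs_pos.2 (D_ne ((MulAction.injective C.t).ne i0)))
    (hb _ _ (by simp [D]))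
  have hM1 : 1 ≤ M0 ^ 2 + M0 := by nlinarith
  obtain ⟨S, hS⟩ := pairs_fin C hE hD (M0 ^ 2 + M0)
  set B : ℝ := ∑ e ∈ S, Bf e.1 e.2 with hBd
  have up : ∀ n k : ℕ, k ≤ n → ∀ a b, |D a b| ≤ M0 ^ 2 + M0 →
      ‖om (u n (C.t ^ k • a)) (u n (C.t ^ k • b))‖ ≤ B := by
    intro n k hk a b h
    by_cases e : a = b
    · rw [e, om_self, norm_zero]
      exact Finset.sum_nonneg fun _ _ => Bf0 _ _
    obtain ⟨x, x1, x2⟩ := hS a b e h
    rw [← Dec.conj C (hu n) _ x1]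
    exact (hBf _ _ n k hk).trans
      (Finset.single_le_sum (f := fun e : P × P => Bf e.1 e.2) (fun _ _ => Bf0 _ _) x2)
  choose Nf hNf using level_count C hE hF
  have hL : ∀ n k : ℕ, k ≤ n →
      Lv (fun a => u n (C.t ^ k • a)) ((C.t ^ k)⁻¹ • (∞ : P)) (M0 ^ 2 + M0) B := by
    intro n k hk
    refine ⟨by simp [hi], fun a b h => (hu n).low _ _ ((MulAction.injective _).ne h), up n k hk,
      hM1, fun b => ((C.t ^ k)⁻¹ * C.c ∞ * (C.t ^ k)⁻¹⁻¹) • b, ?_,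
      hD _ (C.conj_mem _ (C.c_mem _)), fun b => ?_⟩
    · simp [mul_smul, (C.stab ∞ _ (C.c_mem _)).2 (Subgroup.mem_zpowers _)]
    · simpa [mul_smul] using (hu n).par ∞ (C.t ^ k • b)
  choose F F1 F2' F3 using fun n => core M0 B n Nf (u n) (fun a => C.t • a)
    (fun k a => C.t ^ k • a) (fun k => (C.t ^ k)⁻¹ • (∞ : P)) (MulAction.injective _) hb
    (fun k a => by rw [pow_succ, mul_smul])
    (fun p => by
      by_cases e : p = ∞
      · exact Or.inl (e ▸ hi n)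
      · exact Or.inr (by simpa [hi, om] using (hu n).low ∞ p (Ne.symm e)))
    (hL n) (fun R A T hA h => hNf R (fun a => A *ᵥ u n a) T
      (fun a b k => by rw [om_mul, hA, one_mul]; exact (hu n).low a b k) h)
  set R2 : ℝ := 2 * 2 ^ 2 * B ^ 2 / (1 / (|B| + 2) ^ 2) with hR2
  set N1 := Nf (2 * (3 * 2) ^ 2 * B ^ 2 / (1 / (|B| + 2) ^ 2)) with hN1
  have ex : ∀ n : ℕ, ∃ g : G, (∃ k ≤ n, ∃ x ∈ C.d.ker, g = C.t ^ k * x) ∧
      (N1 + Nf (2 * (1 * 2) ^ 2 * B ^ 2 / (1 / (|B| + 2) ^ 2)) < n / 2 → ∃ e ∈ S, e.1 ≠ e.2 ∧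
        hs (F n *ᵥ u n (g • e.1)) ≤ R2 ∧ hs (F n *ᵥ u n (g • e.2)) ≤ R2) := by
    intro n
    by_cases h : N1 + Nf (2 * (1 * 2) ^ 2 * B ^ 2 / (1 / (|B| + 2) ^ 2)) < n / 2
    swap
    · exact ⟨1, ⟨0, Nat.zero_le _, 1, one_mem _, by simp⟩, fun k => absurd k h⟩
    obtain ⟨H, h1, k, hk, h2⟩ := F3 n 1 le_rfl (F n) (F1 n) (fun v => by simp) h
    obtain ⟨a, b, k1, k2, k3, k4⟩ := near (by omega) (up n k hk) (F1 n) two_pos (by positivity)
      (fun a => F2' n _) h1 h2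
    obtain ⟨x, x1, x2⟩ := hS a b k1 k2
    exact ⟨C.t ^ k * x⁻¹, ⟨k, hk, _, inv_mem x1, rfl⟩, fun _ => ⟨_, x2,
      (MulAction.injective x).ne k1, by simpa only [mul_smul, inv_smul_smul] using k3,
      by simpa only [mul_smul, inv_smul_smul] using k4⟩⟩
  choose g g1 g2 using ex
  have gb : ∀ n a b, ‖om (u n (g n • a)) (u n (g n • b))‖ ≤ Bf a b := fun n a b => by
    obtain ⟨k, hk, x, x1, e⟩ := g1 n
    rw [e, mul_smul, mul_smul, Dec.conj C (hu n) _ x1]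
    exact hBf _ _ n k hk
  have lo : ∀ n, 1 ≤ ‖om (u n (g n • (∞ : P))) (u n (g n • ((0 : ℚ) : P)))‖ := fun n =>
    (hu n).low _ _ ((MulAction.injective _).ne i0)
  have nz : ∀ n, om (u n (g n • (∞ : P))) (u n (g n • ((0 : ℚ) : P))) ≠ 0 := fun n e => by
    have := lo n
    rw [e, norm_zero] at this
    linarith
  set B' : ℝ := ∑ e ∈ S, (Bf ∞ e.2 + Bf e.1 ∞ + Bf ((0 : ℚ) : P) e.2 + Bf e.1 ((0 : ℚ) : P))
    with hB'
  let A : ℕ → M2 := fun n => F2 (u n (g n • (∞ : P))) (u n (g n • ((0 : ℚ) : P)))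
  have main : ∀ (ξ : ℂ) (r : ℝ), 0 < r → ∀ᶠ n in atTop, ∃ H ∈ Bx (Fr ξ √r * A n) 2, ∃ k ≤ n,
      ¬ Out (M0 ^ 2 + M0) (fun a => VV (u n (C.t ^ k • a))) H := by
    intro ξ r r0
    obtain ⟨κ, k1, hκ⟩ := exists_cmp det_one (Fr_det ξ (Real.sqrt_pos.2 r0))
    set κ' := (|2 * (4 * B' ^ 2 * R2)| + 1) * κ with hκ'
    have k2 : 1 ≤ κ' := one_le_mul_of_one_le_of_one_le (le_add_of_nonneg_left (abs_nonneg _)) k1
    filter_upwards [eventually_ge_atTop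
      (2 * (N1 + Nf (2 * (1 * 2) ^ 2 * B ^ 2 / (1 / (|B| + 2) ^ 2)) + 1)), eventually_ge_atTop
      (2 * (N1 + Nf (2 * (κ' * 2) ^ 2 * B ^ 2 / (1 / (|B| + 2) ^ 2)) + 1))] with n n1 n2
    refine F3 n κ' k2 _ (by rw [det_mul, Fr_det ξ (Real.sqrt_pos.2 r0), F2_det (nz n), one_mul])
      ?_ (by omega)
    obtain ⟨e, e1, e2, e3, e4⟩ := g2 n (by omega)
    have s := Finset.single_le_sum (f := fun e : P × P =>
      Bf ∞ e.2 + Bf e.1 ∞ + Bf ((0 : ℚ) : P) e.2 + Bf e.1 ((0 : ℚ) : P))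
      (fun _ _ => add_nonneg (add_nonneg (add_nonneg (Bf0 _ _) (Bf0 _ _)) (Bf0 _ _)) (Bf0 _ _)) e1
    have th : ∀ c, Bf c e.2 ≤ B' → Bf e.1 c ≤ B' → hs (F n *ᵥ u n (g n • c)) ≤ 4 * B' ^ 2 * R2 := by
      intro c c1 c2
      refine hs_third ?_ e3 e4 ?_ ?_ <;> rw [om_mul, F1, one_mul]
      exacts [(hu n).low _ _ ((MulAction.injective _).ne e2), (gb n _ _).trans c1,
        (gb n _ _).trans c2]
    have b1 := Bf0 ∞ e.2
    have b2 := Bf0 e.1 ∞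
    have b3 := Bf0 ((0 : ℚ) : P) e.2
    have b4 := Bf0 e.1 ((0 : ℚ) : P)
    have c := (F2_cmp (F1 n) (lo n) (th ∞ (by linarith) (by linarith))
      (th _ (by linarith) (by linarith))).mono
      (κ' := |2 * (4 * B' ^ 2 * R2)| + 1) (by linarith [le_abs_self (2 * (4 * B' ^ 2 * R2))])
    have c' := hκ.mul (A n)
    rw [one_mul] at c'
    exact c.trans c' (by positivity) (by linarith)
  refine ⟨A, g, 2 * 2 ^ 2 * B ^ 2 / (1 / 3), fun n => F2_det (nz n), fun n => F2_x (nz n),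
    fun n => by simp [A, F2_0, om_self], fun a b => ⟨_, fun n => gb n a b⟩, fun ξ r r0 => ?_,
    fun ξ r r0 => ?_⟩
  · filter_upwards [main ξ r r0] with n ⟨H, h1, k, _, h2⟩
    unfold Out at h2
    push Not at h2
    obtain ⟨a, b, c, e, -, -, -, -, -, -, h⟩ := h2
    have s0 := Real.sqrt_pos.2 r0
    obtain ⟨x, x1, x2⟩ := vertex_near
      (by rw [det_mul, Fr_det ξ s0, F2_det (nz n), one_mul]) h1 h
    rw [← mulVec_mulVec, Fr0, Fr1, norm_div, norm_mul, Complex.norm_real, Real.norm_eq_abs,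
      abs_of_pos s0, div_lt_iff₀ s0] at x2
    have : 3 * (√r * ‖(A n *ᵥ x) 1‖) * √r = 3 * r * ‖(A n *ᵥ x) 1‖ := by
      linear_combination 3 * ‖(A n *ᵥ x) 1‖ * Real.mul_self_sqrt r0.le
    rw [this] at x2
    rcases x1 with rfl | rfl | rfl | rfl <;> exact ⟨_, x2⟩
  · filter_upwards [main ξ r r0] with n ⟨H, h1, k, hk, h2⟩ th
    have s0 := Real.sqrt_pos.2 r0
    have e : ∀ v, hs ((Fr ξ √r * A n) *ᵥ v) = nrm ξ r (A n *ᵥ v) := fun v => by
      rw [← mulVec_mulVec, Fr_hs, Real.sq_sqrt r0.le, nrm]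
      field_simp
    obtain ⟨a, b, k1, -, k3, k4⟩ := near (m := 1 / 3) (by omega) (up n k hk)
      (by rw [det_mul, Fr_det ξ s0, F2_det (nz n), one_mul]) two_pos (by norm_num)
      (fun a => by rw [e]; exact th _) h1 h2
    exact ⟨_, _, (MulAction.injective _).ne k1, e _ ▸ k3, e _ ▸ k4⟩

end

theorem stCOVER : St_COVER := by
  intro G _ _ C hE hD hF u hu hB
  have i0 : (∞ : P) ≠ ((0 : ℚ) : P) := infty_ne_coe _
  have nz : ∀ n, om (u n ∞) (u n ((0 : ℚ) : P)) ≠ 0 := fun n e => by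
    have := (hu n).low _ _ i0
    rw [e, norm_zero] at this
    linarith
  let A0 : ℕ → M2 := fun n => F2 (u n ∞) (u n ((0 : ℚ) : P))
  have o : ∀ n x y, om (A0 n *ᵥ x) (A0 n *ᵥ y) = om x y := fun n x y => by
    rw [om_mul, F2_det (nz n), one_mul]
  obtain ⟨A, g, B, h⟩ := cover0 C hE hD hF (fun n a => A0 n *ᵥ u n a)
    (fun n => ⟨fun a b k => by rw [o]; exact (hu n).low a b k,
      fun x hx a b => by rw [o, o]; exact (hu n).inv x hx a b, fun a b => by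
        obtain ⟨μ, m1, m2⟩ := (hu n).par a b
        exact ⟨μ, m1, by rw [o, m2, mulVec_smul, mulVec_add, mulVec_smul]⟩⟩)
    (fun a b => by simpa only [o] using hB a b) fun n => F2_x (nz n)
  refine ⟨fun n => A n * A0 n, g, B, fun n => by rw [det_mul, h.det, F2_det (nz n), one_mul],
    fun n => ?_, fun n => ?_, fun a b => ?_, fun ξ r r0 => ?_, fun ξ r r0 => ?_⟩
  · simpa only [mulVec_mulVec] using h.inf n
  · simpa only [mulVec_mulVec] using h.zero n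
  · simpa only [o] using h.bdd a b
  · simpa only [mulVec_mulVec] using h.dense ξ r r0
  · simpa only [mulVec_mulVec] using h.thick ξ r r0

end Pool.Agent.Lib.THU.CV
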