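import Pool.Agent.Lib.THU.CV.Defs
import Pool.Agent.Lib.THU.NB.LAM

/-!
The Shimizu decoration of a discrete representation.
-/

namespace Pool.Agent.Lib.THU.CV

open Matrix Filter Topology
open Pool.Agent.Lib.THU.NB

namespace DEC

variable {F : Type} [Group F] {P : Type} [MulAction F P] [IsFreeGroup F] {c : P → F}
  {V : P → THU28.V2}

lemma iter (h : THU28.Nrm c V) {a b : P} (hab : a ≠ b) (n : ℕ) :
    ∃ a' b', a' ≠ b' ∧ ‖THU28.om (V a') (V b')‖ = ‖THU28.om (V a) (V b)‖ ^ 2 ^ n := by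
  induction n with
  | zero => exact ⟨a, b, hab, by simp⟩
  | succ n ih =>
    obtain ⟨x, y, hxy, e⟩ := ih
    have h1 := h.par_norm x y 1
    simp only [zpow_one, Int.cast_one, abs_one, one_mul] at h1
    refine ⟨y, c x • y, fun e' => ?_, by rw [h1, e, ← pow_mul, pow_succ]⟩
    rw [← e', THU28.om_self, norm_zero] at h1
    exact h.inj x y hxy (norm_eq_zero.1 (pow_eq_zero_iff two_ne_zero |>.1 h1.symm))

lemma one_le (h : THU28.Nrm c V) {a b : P} (hab : a ≠ b) : 1 ≤ ‖THU28.om (V a) (V b)‖ := by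
  by_contra hlt
  rw [not_le] at hlt
  obtain ⟨n, hn⟩ := exists_pow_lt_of_lt_one (by norm_num : (0 : ℝ) < 1 / 72) hlt
  obtain ⟨x, y, hxy, e⟩ := iter h hab n
  have h1 := h.low hxy
  rw [e, ← pow_mul] at h1
  have h2 : ‖THU28.om (V a) (V b)‖ ^ (2 ^ n * 2) ≤ ‖THU28.om (V a) (V b)‖ ^ n :=
    pow_le_pow_of_le_one (norm_nonneg _) hlt.le (by have := Nat.lt_two_pow_self (n := n); omega)
  linarith

end DEC

theorem stDEC : St_DEC := by
  intro G _ P _ C v hv
  have := C.bas.isFreeGroup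
  obtain ⟨r, r0, h, -⟩ := exists_nrm C v hv
  refine ⟨r, r0, fun a b hab => DEC.one_le h hab, fun g hg a b => h.inv ⟨g, hg⟩ a b,
    fun a b => ?_⟩
  obtain ⟨s, hs, e⟩ := h.unit_p (h.par a) b
  have s0 : s ≠ 0 := fun e0 => by simp [e0] at hs
  rw [THU28.tv_mulVec, one_mul] at e
  refine ⟨s⁻¹, by rw [norm_inv, hs, inv_one], ?_⟩
  exact ((inv_smul_eq_iff₀ s0).2 e).symm

end Pool.Agent.Lib.THU.CV
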