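import Pool.Agent.Lib.THU.CV.Defs
import Pool.Agent.Lib.THU.NB.LAM
import Pool.Agent.Lib.THU.NB.GENB

/-!
Only the identity fixes two cusps (trace argument).
-/

namespace Pool.Agent.Lib.THU.CV

open Matrix
open Pool.Agent.Lib.THU Pool.Agent.Lib.THU.NB

section
variable {F : Type} [Group F] {P : Type} [MulAction F P] {c : P → F} {V : P → THU28.V2}

/-- a matrix inducing the identity is plus or minus one -/
lemma fix2_scalar (h : THU28.Nrm c V) {M : THU28.M2} (hM : THU28.Rp V M (1 : F)) :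
    ∃ s : ℂ, s ^ 2 = 1 ∧ M = s • (1 : THU28.M2) := by
  obtain ⟨a, b, hab⟩ := h.two
  have o0 := h.inj a b hab
  obtain ⟨s, hs⟩ := hM.2 a
  obtain ⟨t, ht⟩ := hM.2 b
  obtain ⟨u, hu⟩ := hM.2 (c a • b)
  obtain ⟨w, hw⟩ := (h.par a).2 b
  rw [one_smul] at hs ht hu
  rw [THU28.tv_mulVec, one_mul] at hw
  have e1 := congrArg (M *ᵥ ·) hw
  simp only [mulVec_add, mulVec_smul, hs, ht, hu] at e1
  rw [smul_comm w u, ← hw] at e1
  have e2 := congrArg (THU28.om (V a)) e1
  have e3 := congrArg (fun x => THU28.om x (V b)) e1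
  simp only [THU28.om_add_right, THU28.om_add_left, THU28.om_smul_right, THU28.om_smul_left,
    THU28.om_self] at e2 e3
  have tu : t = u := mul_right_cancel₀ o0 (by linear_combination e2)
  have su : s = u := mul_right_cancel₀ (pow_ne_zero 2 o0) (by linear_combination e3)
  have e4 := THU28.om_mulVec M (V a) (V b)
  rw [hs, ht, hM.1, THU28.om_smul_left, THU28.om_smul_right, tu, su] at e4
  refine ⟨u, mul_right_cancel₀ o0 (by linear_combination e4), ?_⟩
  rw [su] at hs
  rw [tu] at ht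
  have a0 := congrFun hs 0
  have a1 := congrFun hs 1
  have b0 := congrFun ht 0
  have b1 := congrFun ht 1
  simp only [mulVec, dotProduct, Fin.sum_univ_two, Pi.smul_apply, smul_eq_mul] at a0 a1 b0 b1
  unfold THU28.om at o0
  ext i j
  fin_cases i <;> fin_cases j <;> apply mul_right_cancel₀ o0 <;> simp
  · exact Or.inl (mul_right_cancel₀ o0 (by linear_combination V b 1 * a0 - V a 1 * b0))
  · exact Or.inl (mul_right_cancel₀ o0 (by linear_combination V a 0 * b0 - V b 0 * a0))
  · exact Or.inl (mul_right_cancel₀ o0 (by linear_combination V b 1 * a1 - V a 1 * b1))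
  · exact Or.inl (mul_right_cancel₀ o0 (by linear_combination V a 0 * b1 - V b 0 * a1))

/-- an element fixing a cusp has trace plus or minus two -/
lemma fix2_trace (h : THU28.Nrm c V) {A : THU28.M2} {x : F} (hA : THU28.Rp V A x) {e : P}
    (he : x • e = e) : A.trace ^ 2 = 4 := by
  obtain ⟨m, hm⟩ := (h.stab e x).1 he
  simp only at hm
  have hB := h.zpow e m
  rw [hm] at hB
  have hM := hA.mul (hB.inv h.ne)
  rw [mul_inv_cancel] at hM
  obtain ⟨s, hs, e1⟩ := fix2_scalar h hM
  have e2 : A = s • THU28.tv (V e) m := by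
    have := congrArg (· * THU28.tv (V e) m) e1
    simpa only [Matrix.mul_assoc, adjugate_mul, THU28.tv_det, one_smul, Matrix.mul_one,
      smul_mul_assoc, Matrix.one_mul] using this
  rw [e2, trace_smul, THU28.tv_trace, smul_eq_mul, mul_pow, hs]
  norm_num

end

theorem stFIX2 : St_FIX2 := by
  intro G _ P _ C v h g a b hab ha hb
  by_cases hg : g ∈ C.d.ker
  · by_contra h1
    exact hab (C.fix1 g hg h1 a b ha hb)
  exfalso
  obtain ⟨r, -, hN, -⟩ := exists_nrm C v h
  have hg2 : g ^ 2 ∉ C.d.ker := fun e => hg (by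
    rw [MonoidHom.mem_ker, map_pow] at e
    rw [MonoidHom.mem_ker]
    have e1 := congrArg Multiplicative.toAdd e
    rw [toAdd_pow, toAdd_one] at e1
    have e2 : Multiplicative.toAdd (C.d g) = 0 := by
      rw [two_nsmul] at e1
      omega
    exact toAdd_eq_zero.1 e2)
  have hc : ∀ p, g • p = p → Commute (g ^ 2) (C.c p) := fun p hp => by
    have e := C.c_conj g p
    rw [hp] at e
    have e2 : g ^ 2 * C.c p * (g ^ 2)⁻¹ = C.c p := by
      have e3 : g ^ 2 * C.c p * (g ^ 2)⁻¹ = g * (g * C.c p * g⁻¹) * g⁻¹ := by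
        rw [pow_two]; group
      rcases e with e | e
      · rw [e3, e, e]
      · rw [e3, e]
        have e4 : g * (C.c p)⁻¹ * g⁻¹ = (g * C.c p * g⁻¹)⁻¹ := by group
        rw [e4, e, inv_inv]
    exact mul_inv_eq_iff_eq_mul.1 e2
  have key : ∀ j : ℤ, (2 - 1 * (j : ℂ) * THU28.om (r a • v a) (r b • v b) ^ 2) ^ 2 = 4 := by
    intro j
    obtain ⟨e, he⟩ := C.per (C.c a * C.c b ^ j)
      (C.d.ker.mul_mem (C.c_mem a) (C.d.ker.zpow_mem (C.c_mem b) j)) (g ^ 2) hg2
      ((hc a ha).mul_right ((hc b hb).zpow_right j))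
    have hA := (hN.par a).mul (hN.zpow b j)
    have := fix2_trace hN hA (e := e) he
    rwa [THU28.trace_tv_mul] at this
  have o0 := pow_ne_zero 2 (hN.inj a b hab)
  have k1 := key 1
  have k2 := key 2
  push_cast at k1 k2
  set o := THU28.om (r a • v a) (r b • v b) ^ 2
  have e1 : o = 4 := mul_left_cancel₀ o0 (by linear_combination k1)
  rw [e1] at k2
  norm_num at k2

end Pool.Agent.Lib.THU.CV
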