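import Pool.Agent.Lib.THU.CV.LIM1

/-!
The limit: the limit map is thick, hence conformal, so the limit decoration is invariant.
-/

namespace Pool.Agent.Lib.THU.CV

open Matrix OnePoint Filter Topology Pool.Agent.Lib.THU Pool.Agent.Lib.THU.NB AN

variable {G : Type} [Group G] {P : Type} [MulAction G P] {C : Cusp G P}

namespace LIM

lemma cre_lim {l : Filter ℕ} [l.NeBot] {x y : ℕ → Fin 4 → ℂ} {x' y' : Fin 4 → ℂ}
    (h : ∀ᶠ n in l, CRE (x n) (y n)) (hx : ∀ i, Tendsto (x · i) l (𝓝 (x' i)))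
    (hy : ∀ i, Tendsto (y · i) l (𝓝 (y' i))) : CRE x' y' :=
  tendsto_nhds_unique_of_eventuallyEq
    ((((hy 0).sub (hy 1)).mul ((hy 2).sub (hy 3))).mul
      (((hx 0).sub (hx 2)).mul ((hx 1).sub (hx 3))))
    ((((hy 0).sub (hy 2)).mul ((hy 1).sub (hy 3))).mul
      (((hx 0).sub (hx 1)).mul ((hx 2).sub (hx 3)))) h

theorem thick {U : Ultrafilter ℕ} (hU : (U : Filter ℕ) ≤ atTop) {w w' : ℕ → P → Fin 2 → ℂ} {h : ℕ → ℂ ≃ₜ ℂ}
    {H : ℂ → ℂ} {B : ℝ} (cH : Continuous H)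
    (cv : TendstoLocallyUniformly (fun n => (h n : ℂ → ℂ)) H U) (D : ∀ n, Dec C (w n))
    (sc : ∀ n a, ∃ μ : P → ℂ, ∀ p q,
      om (w' n (C.c a • p)) (w' n (C.c a • q)) = μ p * μ q * om (w' n p) (w' n q))
    (e : ∀ n p, pt (w' n p) = AN.ext (h n) (pt (w n p))) (inf : ∀ n, ∃ p, w n p = ![1, 0])
    (de : ∀ (ξ : ℂ) (r : ℝ), 0 < r → ∀ᶠ n in atTop,
      ∃ p, ‖w n p 0 - ξ * w n p 1‖ < 3 * r * ‖w n p 1‖)
    (th : ∀ (ξ : ℂ) (r : ℝ), 0 < r → ∀ᶠ n in atTop, (∀ p, 1 / 3 ≤ nrm ξ r (w n p)) →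
      ∃ a b, a ≠ b ∧ nrm ξ r (w n a) ≤ B ∧ nrm ξ r (w n b) ≤ B) :
    ∃ Bad : Set ℂ, Bad.Countable ∧ ∀ ξ ∉ Bad, Thick H (4 * |B| + 1) ξ := by
  choose i hi using inf
  have : Nonempty P := ⟨i 0⟩
  set L := {y | ∃ a : ℕ → P, Tendsto (fun n => w n (a n)) U (𝓝 y)}
  have sep : ∀ y ∈ L, ∀ y' ∈ L, ‖om y y'‖ < 1 → y' = y := by
    rintro y ⟨a, ha⟩ y' ⟨b, hb⟩ k
    rcases U.em fun n => a n = b n with c | c
    · exact tendsto_nhds_unique_of_eventuallyEq hb ha (c.mono fun n hn => by simp [hn])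
    · exact absurd (ge_of_tendsto (om_lim ha hb) (c.mono fun n => (D n).low _ _)) k.not_ge
  have : DiscreteTopology L := discreteTopology_iff_isOpen_singleton.2 fun y =>
    (congrArg IsOpen (Set.ext fun y' : L => ⟨fun k => Subtype.ext (sep _ y.2 _ y'.2 k), fun k =>
      show ‖om y.1 y'.1‖ < 1 by simp [show y' = y from k, om, mul_comm]⟩)).mp
      ((isOpen_lt (f := fun y' => ‖om y.1 y'‖) (g := fun _ => 1) (by unfold om; fun_prop) continuous_const).preimage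
        continuous_subtype_val)
  refine ⟨(fun y => y 0 / y 1) '' L, Set.Countable.image
    (TopologicalSpace.separableSpace_iff_countable.1 inferInstance) _, fun ξ hξ r₀ h₀ => ?_⟩
  obtain ⟨r, r0, r1, hr⟩ : ∃ r, 0 < r ∧ r < r₀ ∧ ∀ᶠ n in U, ∀ p, 1 / 3 ≤ nrm ξ r (w n p) := by
    rcases U.em fun n => ∀ p, 1 / 3 ≤ nrm ξ (r₀ / 2) (w n p) with c | c
    · exact ⟨_, half_pos h₀, half_lt_self h₀, c⟩
    obtain ⟨a, ha⟩ := (c.mono fun n => not_forall.1).choice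
    replace ha := ha.mono fun n => le_of_not_ge
    obtain ⟨y, hy⟩ := lim_nrm U (half_pos h₀) ha
    have k := (nrm_le (half_pos h₀)).1 (le_of_tendsto (nrm_lim hy ξ _) ha)
    have p0 : 0 < ‖y 0 - ξ * y 1‖ ^ 2 := pow_pos (norm_pos_iff.2 (sub_ne_zero.2 fun c => hξ
      ⟨y, ⟨a, hy⟩, by
        refine div_eq_of_eq_mul (fun c' => ?_) c
        simpa [c, c'] using congrFun (sep y ⟨a, hy⟩ ![1, 0] ⟨i, by simp [hi]⟩
          (by simp [om, c, c'])) 0⟩)) 2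
    set s := ‖y 0 - ξ * y 1‖ ^ 2
    have q0 := sq_nonneg ‖y 1‖
    have e : nrm ξ s y = 1 + s * ‖y 1‖ ^ 2 := by rw [nrm, div_eq_iff p0.ne']; ring
    have q1 : r₀ / 2 * ‖y 1‖ ^ 2 ≤ 1 / 3 := le_of_mul_le_mul_right (by nlinarith) (half_pos h₀)
    refine ⟨s, p0, by nlinarith, ?_⟩
    filter_upwards [(nrm_lim hy ξ s).eventually (Ioo_mem_nhds (a := 1 / 3) (b := 3)
      (by nlinarith) (by nlinarith))] with n hn p
    by_cases c : p = a n
    · exact c ▸ hn.1.le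
    · nlinarith [nrm_mul ξ p0 (w n p) (w n (a n)), (D n).low _ _ c, hn.1, hn.2]
  obtain ⟨a, ha⟩ : ∃ a : ℕ → P, ∀ᶠ n in U, nrm ξ r (w n (a n)) ≤ B ∧
      1 ≤ 4 * B * (r * ‖w n (a n) 1‖ ^ 2) := Eventually.choice (r := fun n a =>
        nrm ξ r (w n a) ≤ B ∧ 1 ≤ 4 * B * (r * ‖w n a 1‖ ^ 2)) <| by
    filter_upwards [hr, hU (th ξ r r0)] with n h1 h2
    obtain ⟨a, b, ab, h3, h4⟩ := h2 h1
    exact (big r0 ((D n).low _ _ ab) h3 h4).elim (fun k => ⟨a, h3, k⟩) fun k => ⟨b, h4, k⟩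
  obtain ⟨y, hy⟩ := lim_nrm U r0 (ha.mono fun n => And.left)
  have y0 := tendsto_pi_nhds.1 hy 0
  have y1 := tendsto_pi_nhds.1 hy 1
  have k1 := (nrm_le r0).1 (le_of_tendsto (nrm_lim hy ξ r) (ha.mono fun n => And.left))
  have k2 := ge_of_tendsto (((y1.norm.pow 2).const_mul r).const_mul (4 * B))
    (ha.mono fun n => And.right)
  have rc : (r : ℂ) ≠ 0 := Complex.ofReal_ne_zero.2 r0.ne'
  have b0 := le_abs_self B
  have b1 := abs_nonneg B
  have n1 : ‖(y 0 - ξ * y 1) * y 1‖ ≤ B := by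
    rw [norm_mul]
    exact le_of_mul_le_mul_right (by nlinarith [sq_nonneg (‖y 0 - ξ * y 1‖ - r * ‖y 1‖)]) r0
  have n2 : ‖-(r * y 1 ^ 2)‖ = r * ‖y 1‖ ^ 2 := by simp [abs_of_pos r0]
  have n3 : r * ‖y 1‖ ^ 2 ≤ B :=
    le_of_mul_le_mul_right (by nlinarith [sq_nonneg ‖y 0 - ξ * y 1‖]) r0
  refine ⟨r, r0, r1, 1 - (y 0 - ξ * y 1) * y 1, (y 0 - ξ * y 1) ^ 2 / r, -(r * y 1 ^ 2),
    1 + (y 0 - ξ * y 1) * y 1, by field_simp; ring, (norm_sub_le _ _).trans (by rw [norm_one]; linarith), ?_,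
    by linarith, (norm_add_le _ _).trans (by rw [norm_one]; linarith),
    by nlinarith [mul_nonneg r0.le (sq_nonneg ‖y 1‖)], fun x hx => ?_⟩
  · rw [norm_div, norm_pow, Complex.norm_real, Real.norm_of_nonneg r0.le, div_le_iff₀ r0]
    nlinarith [sq_nonneg (r * ‖y 1‖)]
  choose q q1 q2 using fun j => appr (de (ξ + r * x j))
  have q3 := fun j => (q2 j).mono_left hU
  have t := fun j => y0.sub (y1.mul (q3 j))
  have d : ∀ j, 1 + (y 0 - y 1 * (ξ + r * x j)) * y 1 =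
      -(r * y 1 ^ 2) * x j + (1 + (y 0 - ξ * y 1) * y 1) := fun j => by ring
  refine cre_lim (l := U) ?_ (fun j => cv.tendsto_comp cH.continuousAt (q3 j)) fun j =>
    cv.tendsto_comp cH.continuousAt ((((q3 j).add ((t j).mul y0)).div (((t j).mul y1).const_add 1)
      (d j ▸ hx j)).trans (congrArg 𝓝 ?_).le)
  · filter_upwards [hU (eventually_all.2 q1), eventually_all.2 fun j =>
      (((t j).mul y1).const_add 1).eventually_ne (d j ▸ hx j)] with n h1 h2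
    obtain ⟨μ, hμ⟩ := sc n (a n)
    exact lev (D n) hμ (e n) h1 (fun _ => rfl) h2
  · rw [d, div_eq_iff (hx j), add_mul, mul_assoc (r : ℂ), div_mul_cancel₀ _ (hx j)]
    field_simp
    ring

lemma frame {e f : Fin 2 → ℂ} (h : 1 ≤ ‖om e f‖) : ∃ M : Matrix (Fin 2) (Fin 2) ℂ, M.det = 1 ∧
    M *ᵥ e = ![1, 0] ∧ (M *ᵥ f) 0 = 0 := by
  have n : om e f ≠ 0 := norm_pos_iff.1 (one_pos.trans_le h)
  refine ⟨!![f 1 / om e f, -f 0 / om e f; -e 1, e 0], ?_, ?_, ?_⟩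
  · rw [det_fin_two_of]; field_simp; rw [om]; ring
  · ext i; fin_cases i <;> simp [mulVec, dotProduct, mul_comm]
    field_simp; rw [om]; ring
  · simp [mulVec, dotProduct]; ring

lemma lim_frame (U : Ultrafilter ℕ) {y : ℕ → P → Fin 2 → ℂ} {a b : P} (ab : a ≠ b)
    (ha : ∀ n, y n a = ![1, 0]) (hb : ∀ n, y n b 0 = 0)
    (low : ∀ n p q, p ≠ q → 1 ≤ ‖om (y n p) (y n q)‖)
    (bd : ∀ p q, ∃ B, ∀ n, ‖om (y n p) (y n q)‖ ≤ B) : ∃ v : P → Fin 2 → ℂ,
    (∀ p q, Tendsto (fun n => ‖om (y n p) (y n q)‖) U (𝓝 ‖om (v p) (v q)‖)) ∧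
    (∀ p q, p ≠ q → 1 ≤ ‖om (v p) (v q)‖) ∧ (∀ p, om (v a) (v p) = v p 1) ∧ ∀ p, p ≠ a →
      (∀ n, y n p 1 ≠ 0) ∧ v p 1 ≠ 0 ∧ Tendsto (fun n => y n p 0 / y n p 1) U (𝓝 (v p 0 / v p 1)) := by
  have e : ∀ n p, om (y n a) (y n p) = y n p 1 := fun n p => by simp [ha, om]
  choose v hv using fun p => (bd p b).elim fun B h => (bd a p).elim fun B' h' =>
    lim_bdd U (f := (y · p)) (B := B) (B' := B') (.of_forall fun n => ⟨by
      have k := h n
      have l := low n a b ab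
      rw [e] at l
      rw [om, hb, mul_zero, sub_zero, norm_mul] at k
      nlinarith [norm_nonneg (y n p 0)], e n p ▸ h' n⟩)
  have t := fun p q => om_lim (hv p) (hv q)
  have l := fun p q h => ge_of_tendsto' (t p q) fun n => low n p q h
  have e' : ∀ p, om (v a) (v p) = v p 1 := fun p => by
    rw [show v a = ![1, 0] from tendsto_nhds_unique (hv a) (by simp [ha])]
    simp [om]
  refine ⟨v, t, l, e', fun p h => ?_⟩
  have n : v p 1 ≠ 0 := norm_pos_iff.1 (one_pos.trans_le (e' p ▸ l a p h.symm))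
  exact ⟨fun n => norm_pos_iff.1 (one_pos.trans_le (e n p ▸ low n a p h.symm)), n,
    (tendsto_pi_nhds.1 (hv p) 0).div (tendsto_pi_nhds.1 (hv p) 1) n⟩

lemma rigid {N N' : P → P → ℝ} {κ : ℝ} {τ : P → ℝ} (h : ∀ p q, N' p q = κ * τ p * τ q * N p q)
    (t0 : 0 ≤ κ) (t : ∀ p, 0 ≤ τ p) (p0 : ∀ p q, p ≠ q → 1 ≤ N' p q)
    (s : ∀ a b, N a (C.c b • a) = N a b ^ 2) (s' : ∀ a b, N' a (C.c b • a) = N' a b ^ 2)
    (o : ∀ a b, N a (C.c a • b) = N a b) (o' : ∀ a b, N' a (C.c a • b) = N' a b) (p q : P) :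
    N' p q = N p q := by
  have k : ∀ a, κ * τ a ^ 2 = 1 := fun a => by
    obtain ⟨b, hb⟩ : ∃ b, a ≠ b := by
      obtain ⟨x, y, k⟩ := C.two
      exact (em (a = x)).elim (fun c => ⟨y, c ▸ k⟩) fun c => ⟨x, c⟩
    have h1 := o' a b
    have h2 := s' b a
    have h3 := p0 a b hb
    have h4 := p0 b a hb.symm
    rw [h, o, h a b] at h1
    rw [h, s, h b a] at h2
    have h5 := (one_pos.trans_le h3).ne'
    have h6 := pow_ne_zero 2 (one_pos.trans_le h4).ne'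
    rw [h] at h5 h6
    have h7 : τ (C.c a • b) = τ b := mul_left_cancel₀ (left_ne_zero_of_mul (left_ne_zero_of_mul h5))
      (mul_right_cancel₀ (right_ne_zero_of_mul h5) h1)
    rw [h7] at h2
    exact mul_left_cancel₀ h6 (by linear_combination (-κ * τ a ^ 2) * h2)
  have : κ * τ p * τ q = 1 := (pow_eq_one_iff_of_nonneg (mul_nonneg (mul_nonneg t0 (t p)) (t q))
    two_ne_zero).1 (by linear_combination κ * τ q ^ 2 * k p + k q)
  rw [h, this, one_mul]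

end LIM

open LIM in
theorem stLIMIT (hR : St_RIG) (hV : St_VEC) : St_LIMIT := by
  classical
  intro E G _ _ C u K D hh A g B F
  have i0 : (∞ : FA.P) ≠ (0 : ℚ) := infty_ne_coe _
  have i1 : ((0 : ℚ) : FA.P) ≠ (1 : ℚ) := by simp
  have ne : ∀ (s : G) {p q : FA.P}, p ≠ q → s • p ≠ s • q := fun s _ _ => (MulAction.injective s).ne
  choose M dM iM zM using fun n => frame ((D n).low _ _ (ne (g n) (ne C.t i0)))
  have pv : ∀ (A : Matrix (Fin 2) (Fin 2) ℂ) (hA : A.det = 1) n p, pt (A *ᵥ u n p) =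
      GeneralLinearGroup.mkOfDetNeZero A (hA ▸ one_ne_zero) • pt (u n p) := fun A hA n p =>
    hV.2.2.2.1 (.mkOfDetNeZero A _) _ fun c => by
      rcases ne_or_eq p ∞ with k | k
      · simpa [c, om, zero_lt_one.not_ge] using (D n).low _ _ k
      · simpa [c, om, zero_lt_one.not_ge] using (D n).low p _ (k ▸ i0)
  choose h qh eh using fun n => hh n (g n) _ _ ∞ ((pv _ (F.det n) n _).symm.trans
    (by simp [F.inf, pt])) ((pv _ (dM n) n _).symm.trans (by simp [iM, pt]))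
  replace eh := fun n p => (pv _ (dM n) n _).trans
    ((eh n p).trans (congrArg _ (pv _ (F.det n) n _).symm))
  have DA := fun n => (D n).map (F.det n)
  have DM := fun n => (D n).map (dM n)
  obtain ⟨v, t, l, e, f⟩ := lim_frame (hyperfilter ℕ)
    (y := fun n p => A n *ᵥ u n (g n • p)) i0 F.inf F.zero
    (fun n p q k => (DA n).low _ _ (ne _ k)) (by simpa only [om_mulVec, F.det, one_mul] using F.bdd)
  obtain ⟨v', t', l', e', f'⟩ := lim_frame (hyperfilter ℕ)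
    (y := fun n p => M n *ᵥ u n (g n • C.t • p)) i0 iM zM
    (fun n p q k => (DM n).low _ _ (ne _ (ne _ k))) fun p q => by
      simpa only [om_mulVec, dM, one_mul] using F.bdd (C.t • p) (C.t • q)
  have z := fun n p k => (pt_ext (eh n p) ((f p k).1 n)).2
  have sp : ∀ {v : FA.P → Fin 2 → ℂ}, (∀ p q, p ≠ q → 1 ≤ ‖om (v p) (v q)‖) → v (0 : ℚ) 1 ≠ 0 →
      v (1 : ℚ) 1 ≠ 0 → v (0 : ℚ) 0 / v (0 : ℚ) 1 ≠ v (1 : ℚ) 0 / v (1 : ℚ) 1 :=
    fun l a b c => by simpa [om_pt a b, c, zero_lt_one.not_ge] using l _ _ i1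
  obtain ⟨K', hK⟩ := E.cpt K
  have a0 := f _ i0.symm
  have a1 := f _ (coe_ne_infty 1)
  have b0 := f' _ i0.symm
  have b1 := f' _ (coe_ne_infty 1)
  obtain ⟨H, qH, cv, -⟩ := hK _ h _ _ _ _ _ _ qh a0.2.2 a1.2.2 (sp l a0.2.1 a1.2.1)
    (b0.2.2.congr fun n => z n _ i0.symm) (b1.2.2.congr fun n => z n _ (coe_ne_infty 1))
    (sp l' b0.2.1 b1.2.1)
  obtain ⟨Bad, cB, hB⟩ := thick (w' := fun n p => M n *ᵥ u n ((g n * C.t * (g n)⁻¹) • p))
    Nat.hyperfilter_le_atTop H.continuous cv DA (fun n => (DM n).sc _)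
    (fun n p => by simpa [mul_smul] using eh n ((g n)⁻¹ • p)) (fun n => ⟨_, F.inf n⟩)
    F.dense F.thick
  obtain ⟨α, β, α0, hH⟩ := hR E K' _ H Bad qH cB hB
  have hd : ∀ x y, ‖H x - H y‖ = ‖α‖ * ‖x - y‖ := fun x y => by
    rcases hH with k | k <;> rw [k, k, add_sub_add_right_eq_sub, ← mul_sub, norm_mul]
    rw [← map_sub, Complex.norm_conj]
  have Z : ∀ p, p ≠ ∞ → v' p 0 / v' p 1 = H (v p 0 / v p 1) := fun p k => tendsto_nhds_unique
    ((f' p k).2.2.congr fun n => z n p k) (cv.tendsto_comp H.continuous.continuousAt (f p k).2.2)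
  have sq := fun a b => tendsto_nhds_unique (t a (C.c b • a))
    (((t a b).pow 2).congr fun n => ((DA n).sq _ a b).symm)
  have on := fun a b => tendsto_nhds_unique (t a (C.c a • b))
    ((t a b).congr fun n => ((DA n).one _ a b).symm)
  have sq' := fun a b => tendsto_nhds_unique (t' a (C.c b • a))
    (((t' a b).pow 2).congr fun n => by simpa [mul_smul] using ((DM n).sq (g n * C.t) a b).symm)
  have on' := fun a b => tendsto_nhds_unique (t' a (C.c a • b))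
    ((t' a b).congr fun n => by simpa [mul_smul] using ((DM n).one (g n * C.t) a b).symm)
  have α1 := norm_ne_zero_iff.2 α0
  have k1 : ∀ p, p ≠ ∞ → ‖om (v' ∞) (v' p)‖ = ‖α‖ * ‖α‖⁻¹ * (‖v' p 1‖ / ‖v p 1‖) *
      ‖om (v ∞) (v p)‖ := fun p k => by
    have := norm_ne_zero_iff.2 (f p k).2.1
    rw [e, e']; field_simp
  have R := rigid (N := fun p q => ‖om (v p) (v q)‖)
    (τ := fun p => if p = ∞ then ‖α‖⁻¹ else ‖v' p 1‖ / ‖v p 1‖) (fun p q => by
    rcases eq_or_ne p ∞ with rfl | hp <;> rcases eq_or_ne q ∞ with rfl | hq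
    · simp [om, mul_comm]
    · simpa [hq] using k1 q hq
    · rw [norm_om_comm, k1 p hp, norm_om_comm (v p), if_neg hp, if_pos rfl]; ring
    · have := norm_ne_zero_iff.2 (f p hp).2.1
      have := norm_ne_zero_iff.2 (f q hq).2.1
      rw [om_pt (f' p hp).2.1 (f' q hq).2.1, om_pt (f p hp).2.1 (f q hq).2.1, Z p hp, Z q hq]
      simp only [norm_mul, hd, if_neg hp, if_neg hq]
      field_simp) (norm_nonneg α) (fun p => by positivity) l' sq sq' on on'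
  let I : Subgroup G :=
    { carrier := {x | ∀ p q, ‖om (v (x • p)) (v (x • q))‖ = ‖om (v p) (v q)‖}
      one_mem' := by simp
      mul_mem' := fun ha hb p q => by rw [mul_smul, mul_smul, ha, hb]
      inv_mem' := fun {x} hx p q => by rw [← hx, smul_inv_smul, smul_inv_smul] }
  refine ⟨v, l, fun x => ?_⟩
  obtain ⟨y, hy, ey⟩ := C.decomp x
  refine ey ▸ I.mul_mem (fun p q => tendsto_nhds_unique (t _ _) ((t p q).congr fun n => ?_))
    (I.zpow_mem (fun p q => (tendsto_nhds_unique (t _ _) ((t' p q).congr fun n => ?_)).trans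
      (R p q)) _)
  · simpa [mul_smul] using ((DA n).inv _ (C.conj_mem (g n) hy) (g n • p) (g n • q)).symm
  · rw [om_mulVec, om_mulVec, dM, F.det]

end Pool.Agent.Lib.THU.CV
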