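import Pool.Agent.Lib.THU.AN.All
import Pool.Agent.Lib.THU.GE.FAR
import Pool.Agent.Lib.THU.CV.Asm
import Pool.Agent.Lib.THU.CV.BDD
import Pool.Agent.Lib.THU.CV.Cover
import Pool.Agent.Lib.THU.CV.DEC
import Pool.Agent.Lib.THU.CV.FIX2
import Pool.Agent.Lib.THU.CV.LIMIT

/-!
Hyperbolization of the mapping torus of an irreducible homeomorphism of a surface with boundary.
-/

namespace Pool.Agent.Lib.THU.CV

theorem thu_holds : FBC.RH.St_THU :=
  thu_of AN.hEI GE.stFAR GE.FAR.stMOD AN.hAN stDEC stFIX2 stBDD stCOVER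
    (stLIMIT AN.hRIG AN.stVEC)

end Pool.Agent.Lib.THU.CV
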