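import Pool.Agent.Lib.THU.AN.Defs

/-!
Geometric assembly of the hyperbolization of fibred manifolds: block statements.
Paper: team store, file thurston93_PAPER.md.
-/

namespace Pool.Agent.Lib.THU.CV

open Matrix OnePoint Filter Topology
open Pool.Agent.Lib.THU Pool.Agent.Lib.THU.NB

/-- a representation decorated by horoballs -/
structure Dec {G : Type} [Group G] {P : Type} [MulAction G P] (C : Cusp G P)
    (u : P → Fin 2 → ℂ) : Prop where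
  low : ∀ a b, a ≠ b → 1 ≤ ‖om (u a) (u b)‖
  inv : ∀ g ∈ C.d.ker, ∀ a b, ‖om (u (g • a)) (u (g • b))‖ = ‖om (u a) (u b)‖
  par : ∀ a b, ∃ μ : ℂ, ‖μ‖ = 1 ∧ u (C.c a • b) = μ • (u b + om (u a) (u b) • u a)

/-- squared norm of a vector seen from the point `(ξ, r)` of upper half space -/
noncomputable def nrm (ξ : ℂ) (r : ℝ) (v : Fin 2 → ℂ) : ℝ :=
  (‖v 0 - ξ * v 1‖ ^ 2 + r ^ 2 * ‖v 1‖ ^ 2) / r

/-- the determinants are bounded on all levels up to `n` -/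
def Bdd {G : Type} [Group G] {P : Type} [MulAction G P] (C : Cusp G P)
    (u : ℕ → P → Fin 2 → ℂ) : Prop :=
  ∀ a b, ∃ B : ℝ, ∀ (n : ℕ) (k : ℤ), |k| ≤ n → ‖om (u n (C.t ^ k • a)) (u n (C.t ^ k • b))‖ ≤ B

/-- only the identity fixes two cusps -/
def Fix2 (G : Type) [Group G] (P : Type) [MulAction G P] : Prop :=
  ∀ (g : G) (a b : P), a ≠ b → g • a = a → g • b = b → g = 1

/-- the remarked and normalised family fills space -/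
structure Fill {G : Type} [Group G] [MulAction G FA.P] (u : ℕ → FA.P → Fin 2 → ℂ)
    (A : ℕ → Matrix (Fin 2) (Fin 2) ℂ) (g : ℕ → G) (B₁ : ℝ) : Prop where
  det : ∀ n, (A n).det = 1
  inf : ∀ n, A n *ᵥ u n (g n • (∞ : FA.P)) = ![1, 0]
  zero : ∀ n, (A n *ᵥ u n (g n • (((0 : ℚ) : FA.P)))) 0 = 0
  bdd : ∀ a b, ∃ B : ℝ, ∀ n, ‖om (u n (g n • a)) (u n (g n • b))‖ ≤ B
  dense : ∀ (ξ : ℂ) (r : ℝ), 0 < r → ∀ᶠ n in atTop, ∃ p,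
    ‖(A n *ᵥ u n p) 0 - ξ * (A n *ᵥ u n p) 1‖ < 3 * r * ‖(A n *ᵥ u n p) 1‖
  thick : ∀ (ξ : ℂ) (r : ℝ), 0 < r → ∀ᶠ n in atTop, (∀ p, 1 / 3 ≤ nrm ξ r (A n *ᵥ u n p)) →
    ∃ a b, a ≠ b ∧ nrm ξ r (A n *ᵥ u n a) ≤ B₁ ∧ nrm ξ r (A n *ᵥ u n b) ≤ B₁

/-- Shimizu decoration -/
def St_DEC : Prop := ∀ (G : Type) [Group G] (P : Type) [MulAction G P] (C : Cusp G P)
  (v : P → Fin 2 → ℂ), Rep C v → ∃ s : P → ℂ, (∀ a, s a ≠ 0) ∧ Dec C fun a => s a • v a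

theorem Dec.om_smul (s t : ℂ) (x y : Fin 2 → ℂ) : om (s • x) (t • y) = s * t * om x y := by
  simp only [om, Pi.smul_apply, smul_eq_mul]; ring

/-- trace argument -/
def St_FIX2 : Prop := ∀ (G : Type) [Group G] (P : Type) [MulAction G P] (C : Cusp G P)
  (v : P → Fin 2 → ℂ), Rep C v → Fix2 G P

/-- bounded cross ratios give bounded determinants -/
def St_BDD : Prop := ∀ (G : Type) [Group G] (P : Type) [MulAction G P] (C : Cusp G P)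
  (v : ℕ → P → Fin 2 → ℂ) (s : ℕ → P → ℂ), (∀ n a, s n a ≠ 0) →
  (∀ n, Dec C fun a => s n a • v n a) →
  (∀ a b c e, Dis a b c e → ∃ M : ℝ, ∀ (n : ℕ) (k : ℤ), |k| ≤ n →
    |crl (v n) (C.t ^ k • a) (C.t ^ k • b) (C.t ^ k • c) (C.t ^ k • e)| ≤ M) →
  Bdd C fun n a => s n a • v n a

/-- step (6) -/
def St_COVER : Prop := ∀ (G : Type) [Group G] [MulAction G FA.P] (C : Cusp G FA.P),
  (∀ a b, C.E a b ↔ |FA.D a b| = 1) →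
  (∀ x ∈ C.d.ker, ∀ a b : FA.P, |FA.D (x • a) (x • b)| = |FA.D a b|) → Fix2 G FA.P →
  ∀ u : ℕ → FA.P → Fin 2 → ℂ, (∀ n, Dec C (u n)) → Bdd C u →
    ∃ (A : ℕ → Matrix (Fin 2) (Fin 2) ℂ) (g : ℕ → G) (B₁ : ℝ), Fill u A g B₁

/-- the limit (uses RIG) -/
def St_LIMIT : Prop := ∀ (E : AN.EI) (G : Type) [Group G] [MulAction G FA.P] (C : Cusp G FA.P)
  (u : ℕ → FA.P → Fin 2 → ℂ) (K : ℝ), (∀ n, Dec C (u n)) →
  (∀ (n : ℕ) (g : G) (N M : AN.GC) (a : FA.P), N • AN.pt (u n (g • a)) = ∞ →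
    M • AN.pt (u n (g • C.t • a)) = ∞ → ∃ h : ℂ ≃ₜ ℂ, E.QC K h ∧
      ∀ p, M • AN.pt (u n (g • C.t • p)) = AN.ext h (N • AN.pt (u n (g • p)))) →
  ∀ (A : ℕ → Matrix (Fin 2) (Fin 2) ℂ) (g : ℕ → G) (B₁ : ℝ), Fill u A g B₁ →
    ∃ v : FA.P → Fin 2 → ℂ, (∀ p q, p ≠ q → 1 ≤ ‖om (v p) (v q)‖) ∧
      ∀ (x : G) p q, ‖om (v (x • p)) (v (x • q))‖ = ‖om (v p) (v q)‖

end Pool.Agent.Lib.THU.CV
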