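import Pool.Agent.Lib.THU.CV.Par
import Pool.Agent.Lib.THU.CV.Defs

/-!
The cone of Hermitian forms, frames, boxes and the basic estimates.
-/

namespace Pool.Agent.Lib.THU.CV

open Matrix Filter Topology
open Pool.Agent.Lib.THU Pool.Agent.Lib.THU.NB

/-- Hermitian forms -/
abbrev W4 : Type := Fin 4 → ℝ

/-- vectors -/
abbrev C2v : Type := Fin 2 → ℂ

/-- matrices -/
abbrev M2 : Type := Matrix (Fin 2) (Fin 2) ℂ

/-- the light like vector of a vector -/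
noncomputable def VV (v : C2v) : W4 :=
  ![(v 0).re * (v 1).re + (v 0).im * (v 1).im, (v 0).im * (v 1).re - (v 0).re * (v 1).im,
    (v 0).re ^ 2 + (v 0).im ^ 2, (v 1).re ^ 2 + (v 1).im ^ 2]

/-- the value of a form -/
noncomputable def Q (v : C2v) : W4 →ₗ[ℝ] ℝ where
  toFun H := H 2 * VV v 3 + H 3 * VV v 2 - 2 * (H 0 * VV v 0 + H 1 * VV v 1)
  map_add' H K := by simp only [Pi.add_apply]; ring
  map_smul' c H := by simp only [Pi.smul_apply, smul_eq_mul, RingHom.id_apply]; ring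

lemma Q_apply (v : C2v) (H : W4) :
    Q v H = H 2 * VV v 3 + H 3 * VV v 2 - 2 * (H 0 * VV v 0 + H 1 * VV v 1) := rfl

lemma nsq (z : ℂ) : ‖z‖ ^ 2 = z.re ^ 2 + z.im ^ 2 := by
  rw [Complex.sq_norm, Complex.normSq_apply]; ring

lemma Q_VV (v w : C2v) : Q v (VV w) = ‖om w v‖ ^ 2 := by
  simp [Q_apply, VV, om, nsq]; ring

lemma VV3 (v : C2v) : VV v 3 = ‖v 1‖ ^ 2 := by simp [VV, nsq]

lemma VV2 (v : C2v) : VV v 2 = ‖v 0‖ ^ 2 := by simp [VV, nsq]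

lemma Q_e1 (H : W4) : Q ![1, 0] H = H 3 := by simp [Q_apply, VV]

lemma Q_smul (c : ℂ) (v : C2v) (H : W4) : Q (c • v) H = ‖c‖ ^ 2 * Q v H := by
  simp [Q_apply, VV, nsq]; ring

/-- squared length -/
noncomputable def hs (v : C2v) : ℝ := ‖v 0‖ ^ 2 + ‖v 1‖ ^ 2

lemma hs_nonneg (v : C2v) : 0 ≤ hs v := by unfold hs; positivity

lemma om_self (v : C2v) : om v v = 0 := by simp [om, mul_comm]

lemma om_swap (v w : C2v) : ‖om w v‖ = ‖om v w‖ := by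
  rw [← norm_neg]; congr 1; simp [om]; ring

lemma om_mul (A : M2) (v w : C2v) : om (A *ᵥ v) (A *ᵥ w) = A.det * om v w := by
  simp [om, mulVec, dotProduct, det_fin_two]; ring

lemma om_sq_le (v w : C2v) : ‖om v w‖ ^ 2 ≤ hs v * hs w := by
  simp only [om, hs, nsq, Complex.sub_re, Complex.sub_im, Complex.mul_re, Complex.mul_im]
  nlinarith [sq_nonneg ((v 0).re * (w 0).re + (v 0).im * (w 0).im + (v 1).re * (w 1).re +
    (v 1).im * (w 1).im), sq_nonneg ((v 0).re * (w 0).im - (v 0).im * (w 0).re +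
    (v 1).re * (w 1).im - (v 1).im * (w 1).re)]

lemma lin_sq_le (a b : ℂ) (v : C2v) : ‖a * v 0 + b * v 1‖ ^ 2 ≤ (‖a‖ ^ 2 + ‖b‖ ^ 2) * hs v := by
  have := om_sq_le ![b, -a] v
  have e : om ![b, -a] v = a * v 0 + b * v 1 := by simp [om]; ring
  rw [e] at this
  simpa [hs, add_comm] using this

lemma exists_hs_le (A : M2) : ∃ c : ℝ, 0 ≤ c ∧ ∀ v, hs (A *ᵥ v) ≤ c * hs v := by
  refine ⟨‖A 0 0‖ ^ 2 + ‖A 0 1‖ ^ 2 + (‖A 1 0‖ ^ 2 + ‖A 1 1‖ ^ 2), by positivity, fun v => ?_⟩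
  have h0 := lin_sq_le (A 0 0) (A 0 1) v
  have h1 := lin_sq_le (A 1 0) (A 1 1) v
  have e : hs (A *ᵥ v) = ‖A 0 0 * v 0 + A 0 1 * v 1‖ ^ 2 + ‖A 1 0 * v 0 + A 1 1 * v 1‖ ^ 2 := by
    simp [hs, mulVec, dotProduct]
  rw [e]
  linarith

/-- comparable frames -/
def Cmp (κ : ℝ) (A A' : M2) : Prop :=
  ∀ v, hs (A *ᵥ v) ≤ κ * hs (A' *ᵥ v) ∧ hs (A' *ᵥ v) ≤ κ * hs (A *ᵥ v)

lemma exists_cmp {A A' : M2} (h : A.det = 1) (h' : A'.det = 1) : ∃ κ, 1 ≤ κ ∧ Cmp κ A A' := by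
  have key : ∀ A A' : M2, A'.det = 1 → ∃ c : ℝ, 0 ≤ c ∧ ∀ v, hs (A *ᵥ v) ≤ c * hs (A' *ᵥ v) := by
    intro A A' h
    obtain ⟨c, c0, hc⟩ := exists_hs_le (A * A'⁻¹)
    refine ⟨c, c0, fun v => ?_⟩
    have := hc (A' *ᵥ v)
    rwa [mulVec_mulVec, Matrix.nonsing_inv_mul_cancel_right _ _ (by simp [h])] at this
  obtain ⟨c, c0, hc⟩ := key A A' h'
  obtain ⟨d, d0, hd⟩ := key A' A h
  refine ⟨1 + c + d, by linarith, fun v => ⟨(hc v).trans ?_, (hd v).trans ?_⟩⟩ <;>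
    exact mul_le_mul_of_nonneg_right (by linarith) (hs_nonneg _)

/-- the forms comparable to the form of the frame `A` -/
def Bx (A : M2) (κ : ℝ) : Set W4 := {H | ∀ v, hs (A *ᵥ v) ≤ κ * Q v H ∧ Q v H ≤ κ * hs (A *ᵥ v)}

lemma Bx.pos {A : M2} {κ : ℝ} {H : W4} (h : H ∈ Bx A κ) (hκ : 0 < κ) (v : C2v) : 0 ≤ Q v H :=
  nonneg_of_mul_nonneg_right ((hs_nonneg _).trans (h v).1) hκ

lemma Bx.cmp {A A' : M2} {κ κ' : ℝ} {H : W4} (h : H ∈ Bx A' κ') (hκ : 0 ≤ κ) (hκ' : 0 ≤ κ')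
    (c : Cmp κ A A') : H ∈ Bx A (κ * κ') := fun v => by
  constructor
  · rw [mul_assoc]
    exact (c v).1.trans (mul_le_mul_of_nonneg_left (h v).1 hκ)
  · rw [mul_comm κ, mul_assoc]
    exact (h v).2.trans (mul_le_mul_of_nonneg_left (c v).2 hκ')

lemma Bx.mono {A : M2} {κ κ' : ℝ} {H : W4} (h : H ∈ Bx A κ) (hκ : 0 < κ) (k : κ ≤ κ') :
    H ∈ Bx A κ' := fun v =>
  ⟨(h v).1.trans (mul_le_mul_of_nonneg_right k (Bx.pos h hκ v)),
    (h v).2.trans (mul_le_mul_of_nonneg_right k (hs_nonneg _))⟩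

lemma Bx.s3 {A : M2} {κ : ℝ} {X Y Z : W4} (hX : X ∈ Bx A κ) (hY : Y ∈ Bx A κ) (hZ : Z ∈ Bx A κ) :
    S3 X Y Z ⊆ Bx A κ := by
  rintro _ ⟨p, q, r, h1, h2, h3, h4, rfl⟩ v
  simp only [map_add, map_smul, smul_eq_mul]
  have a1 := mul_le_mul_of_nonneg_left (hX v).1 h1
  have a2 := mul_le_mul_of_nonneg_left (hY v).1 h2
  have a3 := mul_le_mul_of_nonneg_left (hZ v).1 h3
  have b1 := mul_le_mul_of_nonneg_left (hX v).2 h1
  have b2 := mul_le_mul_of_nonneg_left (hY v).2 h2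
  have b3 := mul_le_mul_of_nonneg_left (hZ v).2 h3
  have e : ∀ x : ℝ, x = p * x + q * x + r * x := fun x => by rw [← add_mul, ← add_mul, h4, one_mul]
  constructor
  · linarith [e (hs (A *ᵥ v))]
  · linarith [e (κ * hs (A *ᵥ v))]

lemma Bx.s2 {A : M2} {κ : ℝ} {X Y : W4} (hX : X ∈ Bx A κ) (hY : Y ∈ Bx A κ) : S2 X Y ⊆ Bx A κ :=
  (S2_sub1 X Y Y).trans (Bx.s3 hX hY hY)

/-- the form of a frame -/
noncomputable def HA (A : M2) : W4 := VV ![A 0 1, -A 0 0] + VV ![A 1 1, -A 1 0]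

lemma Q_HA (A : M2) (v : C2v) : Q v (HA A) = hs (A *ᵥ v) := by
  rw [HA, map_add, Q_VV, Q_VV]
  simp [hs, om, mulVec, dotProduct, add_comm]

lemma Q_le (v : C2v) (H : W4) : |Q v H| ≤ 3 * ‖H‖ * hs v := by
  have b : ∀ i, |H i| ≤ ‖H‖ := fun i => norm_le_pi_norm H i
  have n := norm_nonneg H
  have e : ∀ (i : Fin 4) (x y : ℝ), |x| ≤ y → |H i * x| ≤ ‖H‖ * y := fun i x y h => by
    rw [abs_mul]; exact mul_le_mul (b i) h (abs_nonneg _) n
  have h0 : |VV v 0| ≤ hs v / 2 := by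
    simp only [VV, hs, nsq, abs_le, cons_val_zero]
    constructor <;> nlinarith [sq_nonneg ((v 0).re - (v 1).re), sq_nonneg ((v 0).re + (v 1).re),
      sq_nonneg ((v 0).im - (v 1).im), sq_nonneg ((v 0).im + (v 1).im)]
  have h1 : |VV v 1| ≤ hs v / 2 := by
    simp only [VV, hs, nsq, abs_le, cons_val_one, cons_val_zero]
    constructor <;> nlinarith [sq_nonneg ((v 0).re - (v 1).im), sq_nonneg ((v 0).re + (v 1).im),
      sq_nonneg ((v 0).im - (v 1).re), sq_nonneg ((v 0).im + (v 1).re)]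
  have k0 := abs_le.1 (e 0 _ _ h0)
  have k1 := abs_le.1 (e 1 _ _ h1)
  have k2 := abs_le.1 (e 2 (VV v 3) (‖v 1‖ ^ 2) (by rw [VV3, abs_of_nonneg (by positivity)]))
  have k3 := abs_le.1 (e 3 (VV v 2) (‖v 0‖ ^ 2) (by rw [VV2, abs_of_nonneg (by positivity)]))
  have : hs v = ‖v 0‖ ^ 2 + ‖v 1‖ ^ 2 := rfl
  rw [Q_apply, abs_le]
  constructor <;> nlinarith

lemma Bx_nhds {A : M2} (h : A.det = 1) : Bx A 2 ∈ 𝓝 (HA A) := by
  obtain ⟨κ, k1, hc⟩ := exists_cmp (A := 1) det_one h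
  refine mem_of_superset (Metric.ball_mem_nhds _ (show 0 < 1 / (6 * κ) by positivity))
    fun H hH v => ?_
  have h1 := Q_le v (H - HA A)
  have h2 := (hc v).1
  rw [one_mulVec] at h2
  rw [map_sub, Q_HA] at h1
  have h3 : ‖H - HA A‖ * (6 * κ) ≤ 1 := by
    rw [← le_div_iff₀ (by positivity)]
    exact (mem_ball_iff_norm.1 hH).le
  have h4 := mul_le_mul_of_nonneg_left h2 (norm_nonneg (H - HA A))
  have h5 := mul_le_mul_of_nonneg_right h3 (hs_nonneg (A *ᵥ v))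
  have := hs_nonneg (A *ᵥ v)
  have := abs_le.1 h1
  constructor <;> nlinarith

lemma C3_sub4 {W : Type} [AddCommGroup W] [Module ℝ W] (a b c : W) : C3 a b c ⊆ C4 a b c c := by
  rintro _ ⟨p, q, r, h1, h2, h3, rfl⟩
  exact ⟨p, q, r, 0, h1, h2, h3, le_rfl, by module⟩

/-- in a thick box the vertices of a bounded tetrahedron are bounded -/
lemma est {A : M2} (hA : A.det = 1) {κ m B : ℝ} (hκ : 0 < κ) (hm : 0 < m) {H : W4}
    (hH : H ∈ Bx A κ) {a b c e x : C2v} (h : H ∈ C4 (VV a) (VV b) (VV c) (VV e))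
    (ha : m ≤ hs (A *ᵥ a)) (hb : m ≤ hs (A *ᵥ b)) (hc : m ≤ hs (A *ᵥ c)) (he : m ≤ hs (A *ᵥ e))
    (xa : ‖om a x‖ ≤ B) (xb : ‖om b x‖ ≤ B) (xc : ‖om c x‖ ≤ B) (xe : ‖om e x‖ ≤ B) :
    hs (A *ᵥ x) ≤ 2 * κ ^ 2 * B ^ 2 / m := by
  obtain ⟨p, q, r, s, h1, h2, h3, h4, rfl⟩ := h
  have t0 := (hH ![A 0 1, -A 0 0]).2
  have t1 := (hH ![A 1 1, -A 1 0]).2
  have t2 := (hH x).1
  rw [det_fin_two] at hA
  have e0 : hs (A *ᵥ ![A 0 1, -A 0 0]) = 1 := by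
    have : A 0 1 * A 1 0 - A 0 0 * A 1 1 = -1 := by linear_combination -hA
    simp [hs, mulVec, dotProduct, mul_comm, ← sub_eq_add_neg, this]
  have e1 : hs (A *ᵥ ![A 1 1, -A 1 0]) = 1 := by
    simp [hs, mulVec, dotProduct, mul_comm (A 1 1) (A 1 0), ← sub_eq_add_neg, hA]
  have e2 : ∀ y : C2v, Q ![A 0 1, -A 0 0] (VV y) + Q ![A 1 1, -A 1 0] (VV y) = hs (A *ᵥ y) := by
    intro y
    rw [← Q_HA, HA, map_add]
    simp only [Q_VV, om_swap y]
  simp only [map_add, map_smul, smul_eq_mul, e0, e1] at t0 t1 t2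
  have s0 : (p + q + r + s) * m ≤ 2 * κ := by
    have := mul_le_mul_of_nonneg_left ha h1
    have := mul_le_mul_of_nonneg_left hb h2
    have := mul_le_mul_of_nonneg_left hc h3
    have := mul_le_mul_of_nonneg_left he h4
    rw [← e2] at *
    nlinarith
  have sq : ∀ y : C2v, ‖om y x‖ ≤ B → Q x (VV y) ≤ B ^ 2 := fun y h => by
    rw [Q_VV]; exact pow_le_pow_left₀ (norm_nonneg _) h 2
  have s1 : p * Q x (VV a) + q * Q x (VV b) + r * Q x (VV c) + s * Q x (VV e) ≤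
      (p + q + r + s) * B ^ 2 := by
    have := mul_le_mul_of_nonneg_left (sq a xa) h1
    have := mul_le_mul_of_nonneg_left (sq b xb) h2
    have := mul_le_mul_of_nonneg_left (sq c xc) h3
    have := mul_le_mul_of_nonneg_left (sq e xe) h4
    linarith
  rw [le_div_iff₀ hm]
  have s2 := mul_le_mul_of_nonneg_right (t2.trans (mul_le_mul_of_nonneg_left s1 hκ.le)) hm.le
  have s3 := mul_le_mul_of_nonneg_left s0 (show 0 ≤ κ * B ^ 2 by positivity)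
  nlinarith

/-- packing -/
lemma pack (R : ℝ) : ∃ N : ℕ, ∀ (ι : Type) (u : ι → C2v) (S : Finset ι),
    (∀ a ∈ S, hs (u a) ≤ R) → (∀ a ∈ S, ∀ b ∈ S, a ≠ b → 1 ≤ ‖om (u a) (u b)‖) → S.card ≤ N := by
  classical
  have hc : IsCompact (Metric.closedBall (0 : C2v) (R + 1)) := isCompact_closedBall _ _
  set δ : ℝ := 1 / (4 * (|R| + 1)) with hδ
  have δ0 : 0 < δ := by positivity
  obtain ⟨T, -, T1, T2⟩ := hc.finite_cover_balls δ0
  refine ⟨T1.toFinset.card, fun ι u S h1 h2 => ?_⟩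
  have : ∀ a ∈ S, ∃ y ∈ T, dist (u a) y < δ := fun a ha => by
    have := T2 (show u a ∈ Metric.closedBall (0 : C2v) (R + 1) by
      have k := h1 a ha
      have n0 := norm_nonneg (u a 0)
      have n1 := norm_nonneg (u a 1)
      have := hs_nonneg (u a)
      rw [mem_closedBall_zero_iff, pi_norm_le_iff_of_nonneg (by linarith), Fin.forall_fin_two]
      unfold hs at k
      constructor <;> nlinarith)
    simpa using this
  choose! f f1 f2 using this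
  refine Finset.card_le_card_of_injOn f (fun a ha => by simpa using f1 a ha) fun a ha b hb e => ?_
  by_contra hne
  have k := h2 a ha b hb hne
  have d : ‖u b - u a‖ < 2 * δ := by
    have := dist_triangle_right (u b) (u a) (f a)
    rw [dist_eq_norm] at this
    have := f2 a ha
    have := f2 b hb
    rw [← e] at this
    linarith
  have e1 : om (u a) (u b) = om (u a) (u b - u a) := by simp [om]; ring
  have e2 := om_sq_le (u a) (u b - u a)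
  have e3 : hs (u b - u a) ≤ 2 * (2 * δ) ^ 2 := by
    have i0 := pow_le_pow_left₀ (norm_nonneg _) ((norm_le_pi_norm (u b - u a) 0).trans d.le) 2
    have i1 := pow_le_pow_left₀ (norm_nonneg _) ((norm_le_pi_norm (u b - u a) 1).trans d.le) 2
    unfold hs
    linarith
  have e4 : hs (u a) * hs (u b - u a) ≤ (|R| + 1) * (2 * (2 * δ) ^ 2) :=
    mul_le_mul ((h1 a ha).trans (by linarith [le_abs_self R])) e3 (hs_nonneg _) (by positivity)
  have e5 : (|R| + 1) * δ = 1 / 4 := by rw [hδ]; field_simp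
  have e6 : δ ≤ 1 / 4 := by nlinarith [abs_nonneg R]
  rw [← e1] at e2
  nlinarith

lemma pack_fin {ι : Type} (u : ι → C2v) (R : ℝ) (h : ∀ a b, a ≠ b → 1 ≤ ‖om (u a) (u b)‖) :
    {a | hs (u a) ≤ R}.Finite := by
  obtain ⟨N, hN⟩ := pack R
  by_contra hi
  obtain ⟨S, h1, h2⟩ := Set.Infinite.exists_subset_card_eq hi (N + 1)
  have := hN ι u S (fun a ha => h1 ha) fun a _ b _ => h a b
  omega

end Pool.Agent.Lib.THU.CV
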