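import Pool.Agent.Lib.THU.CV.Fan

/-!
Around a middle level every point lies in a tetrahedron of bounded complexity.
-/

namespace Pool.Agent.Lib.THU.CV

open Matrix Filter Topology
open Pool.Agent.Lib.THU Pool.Agent.Lib.THU.NB Pool.Agent.Lib.THU.FA
open scoped Classical

/-- the frame at height `τ ^ 2` over `ζ` -/
noncomputable def Fr (ζ : ℂ) (τ : ℝ) : M2 := !![1 / τ, -ζ / τ; 0, τ]

lemma Fr_det (ζ : ℂ) {τ : ℝ} (h : 0 < τ) : (Fr ζ τ).det = 1 := by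
  have : (τ : ℂ) ≠ 0 := by exact_mod_cast h.ne'
  simp [Fr, det_fin_two, this]

lemma Fr0 (ζ : ℂ) (τ : ℝ) (v : C2v) : (Fr ζ τ *ᵥ v) 0 = (v 0 - ζ * v 1) / τ := by
  simp [Fr, mulVec, dotProduct]; ring

lemma Fr1 (ζ : ℂ) (τ : ℝ) (v : C2v) : (Fr ζ τ *ᵥ v) 1 = τ * v 1 := by
  simp [Fr, mulVec, dotProduct]

lemma Fr_hs (ζ : ℂ) (τ : ℝ) (v : C2v) :
    hs (Fr ζ τ *ᵥ v) = ‖v 0 - ζ * v 1‖ ^ 2 / τ ^ 2 + τ ^ 2 * ‖v 1‖ ^ 2 := by
  simp [hs, Fr0, Fr1, div_pow, mul_pow]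

lemma Fr_cmp {ζ ζ' : ℂ} {τ : ℝ} (h : 0 < τ) (k : ‖ζ - ζ'‖ ≤ τ ^ 2) : Cmp 3 (Fr ζ τ) (Fr ζ' τ) := by
  have key : ∀ ζ ζ' : ℂ, ‖ζ - ζ'‖ ≤ τ ^ 2 → ∀ v, hs (Fr ζ τ *ᵥ v) ≤ 3 * hs (Fr ζ' τ *ᵥ v) := by
    intro ζ ζ' k v
    have e : v 0 - ζ * v 1 = v 0 - ζ' * v 1 - (ζ - ζ') * v 1 := by ring
    have h1 : ‖v 0 - ζ * v 1‖ ≤ ‖v 0 - ζ' * v 1‖ + τ ^ 2 * ‖v 1‖ := by
      rw [e]
      refine (norm_sub_le _ _).trans ?_
      rw [norm_mul]
      gcongr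
    have h2 := pow_le_pow_left₀ (norm_nonneg _) h1 2
    have t : 0 < τ ^ 2 := by positivity
    rw [Fr_hs, Fr_hs, div_add' _ _ _ t.ne', div_add' _ _ _ t.ne', ← mul_div_assoc,
      div_le_div_iff_of_pos_right t]
    nlinarith [sq_nonneg (‖v 0 - ζ' * v 1‖ - τ ^ 2 * ‖v 1‖), sq_nonneg ‖v 0 - ζ' * v 1‖]
  exact fun v => ⟨key _ _ k v, key _ _ (by rwa [norm_sub_rev]) v⟩

lemma Fr_high {ζ : ℂ} {B : ℝ} {H : W4} (h : H ∈ Bx (Fr ζ (|B| + 2)) 2) : High B H := by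
  have b := abs_nonneg B
  have h1 := h ![1, 0]
  have t : 0 < (|B| + 2) ^ 2 := by positivity
  simp only [Fr_hs, Q_e1, cons_val_zero, cons_val_one, cons_val_fin_one, mul_zero, sub_zero,
    norm_one, norm_zero, one_pow, ne_eq, OfNat.ofNat_ne_zero, not_false_eq_true, zero_pow,
    add_zero] at h1
  have h0 : 0 < H 3 := by
    have : 0 < 1 / (|B| + 2) ^ 2 := by positivity
    linarith
  refine ⟨h0, fun x => ?_⟩
  have h2 := (h ![x, 1]).1
  simp only [Fr_hs, cons_val_zero, cons_val_one, cons_val_fin_one, norm_one, one_pow,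
    mul_one] at h2
  have h3 : 0 ≤ ‖x - ζ‖ ^ 2 / (|B| + 2) ^ 2 := by positivity
  have h4 := h1.2
  rw [mul_one_div, le_div_iff₀ t] at h4
  have h5 : B ^ 2 + 1 ≤ (|B| + 2) ^ 2 := by nlinarith [sq_abs B]
  have h6 := mul_le_mul_of_nonneg_right h5 h0.le
  nlinarith

lemma HA_Fr (ζ : ℂ) {τ : ℝ} (h : 0 < τ) :
    HA (Fr ζ τ) 1 = ζ.im / τ ^ 2 ∧ HA (Fr ζ τ) 3 = 1 / τ ^ 2 := by
  have := h.ne'
  constructor
  · simp [HA, Fr, VV, Complex.div_ofReal_re, Complex.div_ofReal_im]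
    field_simp
  · simp [HA, Fr, VV]

lemma near {Y : P → C2v} {M : ℤ} {B : ℝ} (M0 : 0 ≤ M)
    (up : ∀ a b, |D a b| ≤ M → ‖om (Y a) (Y b)‖ ≤ B) {A : M2} (hA : A.det = 1) {κ m : ℝ}
    (hκ : 0 < κ) (hm : 0 < m) (th : ∀ a, m ≤ hs (A *ᵥ Y a)) {H : W4} (hH : H ∈ Bx A κ)
    (h : ¬ Out M (fun a => VV (Y a)) H) : ∃ a b, a ≠ b ∧ |D a b| ≤ M ∧
      hs (A *ᵥ Y a) ≤ 2 * κ ^ 2 * B ^ 2 / m ∧ hs (A *ᵥ Y b) ≤ 2 * κ ^ 2 * B ^ 2 / m := by
  unfold Out at h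
  push Not at h
  obtain ⟨a, b, c, e, h1, h2, h3, h4, h5, h6, k⟩ := h
  have s : ∀ a b, |D a b| ≤ M → |D b a| ≤ M := fun a b h => (ab_symm _ _).trans_le h
  have z : ∀ a, |D a a| ≤ M := fun a => by rwa [D_self, abs_zero]
  have key : ∀ x, |D a x| ≤ M → |D b x| ≤ M → |D c x| ≤ M → |D e x| ≤ M →
      hs (A *ᵥ Y x) ≤ 2 * κ ^ 2 * B ^ 2 / m := fun x k1 k2 k3 k4 =>
    est hA hκ hm hH k (th a) (th b) (th c) (th e) (up _ _ k1) (up _ _ k2) (up _ _ k3) (up _ _ k4)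
  have ka := key a (z _) (s _ _ h1) (s _ _ h2) (s _ _ h3)
  by_cases n1 : a = b
  · by_cases n2 : a = c
    · by_cases n3 : a = e
      · subst n1 n2 n3
        obtain ⟨p, q, r, t, -, -, -, -, rfl⟩ := k
        have := (hH (Y a)).1
        simp only [map_add, map_smul, Q_VV, om_self, norm_zero] at this
        have := th a
        simp at *
        linarith
      · exact ⟨a, e, n3, h3, ka, key e h3 h5 h6 (z _)⟩
    · exact ⟨a, c, n2, h2, ka, key c h2 h4 (z _) (s _ _ h6)⟩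
  · exact ⟨a, b, n1, h1, ka, key b h1 (z _) (s _ _ h4) (s _ _ h5)⟩

lemma est3 {Y : P → C2v} {M : ℤ} {B : ℝ} (M0 : 0 ≤ M)
    (up : ∀ a b, |D a b| ≤ M → ‖om (Y a) (Y b)‖ ≤ B) {A : M2} (hA : A.det = 1) {κ m : ℝ}
    (hκ : 0 < κ) (hm : 0 < m) (th : ∀ a, m ≤ hs (A *ᵥ Y a)) {H : W4} (hH : H ∈ Bx A κ) {a b c : P}
    (h1 : |D a b| ≤ M) (h2 : |D a c| ≤ M) (h3 : |D b c| ≤ M)
    (k : H ∈ C3 (VV (Y a)) (VV (Y b)) (VV (Y c))) : hs (A *ᵥ Y a) ≤ 2 * κ ^ 2 * B ^ 2 / m ∧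
      hs (A *ᵥ Y b) ≤ 2 * κ ^ 2 * B ^ 2 / m ∧ hs (A *ᵥ Y c) ≤ 2 * κ ^ 2 * B ^ 2 / m := by
  have s : ∀ a b, |D a b| ≤ M → |D b a| ≤ M := fun a b h => (ab_symm _ _).trans_le h
  have z : ∀ a, |D a a| ≤ M := fun a => by rwa [D_self, abs_zero]
  have key : ∀ x, |D a x| ≤ M → |D b x| ≤ M → |D c x| ≤ M →
      hs (A *ᵥ Y x) ≤ 2 * κ ^ 2 * B ^ 2 / m := fun x k1 k2 k3 =>
    est hA hκ hm hH (C3_sub4 _ _ _ k) (th a) (th b) (th c) (th c) (up _ _ k1) (up _ _ k2)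
      (up _ _ k3) (up _ _ k3)
  exact ⟨key a (z _) (s _ _ h1) (s _ _ h2), key b h1 (z _) (s _ _ h3), key c h2 h3 (z _)⟩

lemma Lv.lf {Y : P → C2v} {o : P} {M M' : ℤ} {B : ℝ} (h : Lv Y o M B) (hM : M' ≤ M) {A : M2}
    (hA : A.det = 1) {κ m : ℝ} (hκ : 0 < κ) (hm : 0 < m) (th : ∀ a, m ≤ hs (A *ᵥ Y a))
    {K : Set W4} (hK : K ⊆ Bx A κ) : LF M' (fun a => VV (Y a)) K := by
  have f := pack_fin (fun a => A *ᵥ Y a) (2 * κ ^ 2 * B ^ 2 / m) fun a b hab => by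
    rw [om_mul, hA, one_mul]; exact h.low a b hab
  refine (f.prod (f.prod f)).subset ?_
  rintro x ⟨h1, h2, h3, H, k1, k2⟩
  exact est3 (by linarith [h.one]) h.up hA hκ hm th (hK k1) (h1.trans hM) (h2.trans hM)
    (h3.trans hM) k2

lemma fr4 : Module.finrank ℝ W4 = 4 := by simp

theorem core (M0 : ℤ) (B : ℝ) (n : ℕ) (Nf : ℝ → ℕ) (u : P → C2v) (s : P → P) (σ : ℕ → P → P)
    (o : ℕ → P) (hs1 : Function.Injective s) (hb : ∀ a b, |D a b| = 1 → |D (s a) (s b)| ≤ M0)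
    (hσ : ∀ k a, σ (k + 1) a = σ k (s a)) (hu : ∀ p, u p = ![1, 0] ∨ 1 ≤ ‖u p 1‖)
    (hL : ∀ k ≤ n, Lv (fun a => u (σ k a)) (o k) (M0 ^ 2 + M0) B)
    (hN : ∀ (R : ℝ) (A : M2) (S : Finset ℕ), A.det = 1 → (∀ k ∈ S, ∃ a b, |D a b| = 1 ∧
      hs (A *ᵥ u (σ k a)) ≤ R ∧ hs (A *ᵥ u (σ k b)) ≤ R) → S.card ≤ Nf R) :
    ∃ A : M2, A.det = 1 ∧ (∀ p, 1 / (|B| + 2) ^ 2 ≤ hs (A *ᵥ u p)) ∧ ∀ κ : ℝ, 1 ≤ κ → ∀ A' : M2,
      A'.det = 1 → Cmp κ A A' → Nf (2 * (3 * 2) ^ 2 * B ^ 2 / (1 / (|B| + 2) ^ 2)) +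
        Nf (2 * (κ * 2) ^ 2 * B ^ 2 / (1 / (|B| + 2) ^ 2)) < n / 2 →
      ∃ H ∈ Bx A' 2, ∃ k ≤ n, ¬ Out (M0 ^ 2 + M0) (fun a => VV (u (σ k a))) H := by
  set τ := |B| + 2 with hτ
  have τ1 : 1 ≤ τ := by linarith [abs_nonneg B]
  have τ0 : 0 < τ := by linarith
  have m0 : 0 < 1 / τ ^ 2 := by positivity
  have th : ∀ ζ p, 1 / τ ^ 2 ≤ hs (Fr ζ τ *ᵥ u p) := fun ζ p => by
    rw [Fr_hs]
    rcases hu p with e | e
    · simp [e]
    · have := one_le_pow₀ (n := 2) e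
      have := one_le_pow₀ (n := 2) τ1
      have : 1 / τ ^ 2 ≤ 1 := by rwa [div_le_one (by positivity)]
      have : 0 ≤ ‖u p 0 - ζ * u p 1‖ ^ 2 / τ ^ 2 := by positivity
      nlinarith
  obtain ⟨T, T0, hT⟩ : ∃ T : ℝ, 0 ≤ T ∧ ∀ k ≤ n, ∀ b, |D (o k) b| ≤ M0 ^ 2 + M0 →
      |VV (u (σ k b)) 1| ≤ T * VV (u (σ k b)) 3 := by
    choose! T T0 hT using fun k hk => (hL k hk).im
    have nn : ∀ k ∈ Finset.range (n + 1), 0 ≤ T k := fun k hk =>
      T0 k (Nat.lt_succ_iff.1 (Finset.mem_range.1 hk))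
    refine ⟨∑ k ∈ Finset.range (n + 1), T k, Finset.sum_nonneg nn, fun k hk b hb =>
      (hT k hk b hb).trans (mul_le_mul_of_nonneg_right ?_ (by rw [VV3]; positivity))⟩
    exact Finset.single_le_sum nn (Finset.mem_range.2 (Nat.lt_succ_of_le hk))
  obtain ⟨J, hJ⟩ := exists_nat_gt T
  let ζ : ℕ → ℂ := fun j => (((J : ℝ) - j) * τ ^ 2 : ℝ) * Complex.I
  let U : ℕ → Set W4 := fun j => Bx (Fr (ζ j) τ) 2 ∩
    ({H | j = 0 → T * H 3 < H 1} ∩ {H | j = 2 * J → H 1 < -(T * H 3)})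
  have hU : ∀ j, U j ∈ 𝓝 (HA (Fr (ζ j) τ)) := fun j => by
    obtain ⟨e1, e3⟩ := HA_Fr (ζ j) τ0
    have t1 := one_le_pow₀ (n := 2) τ1
    have t2 : T * (1 / τ ^ 2) ≤ T := mul_le_of_le_one_right T0 (by rwa [div_le_one (by positivity)])
    have zi : (ζ j).im / τ ^ 2 = J - j := by simp [ζ, ← Complex.ofReal_pow, τ0.ne']
    refine inter_mem (Bx_nhds (Fr_det _ τ0)) (inter_mem ?_ ?_)
    · by_cases h : j = 0
      · refine mem_of_superset ((isOpen_lt (f := fun H : W4 => T * H 3) (g := fun H => H 1)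
          (by fun_prop) (by fun_prop)).mem_nhds ?_) fun H k _ => k
        simp only [Set.mem_ofPred_eq, e1, e3, zi]
        simp only [h, Nat.cast_zero]
        linarith
      · simp [h]
    · by_cases h : j = 2 * J
      · refine mem_of_superset ((isOpen_lt (f := fun H : W4 => H 1) (g := fun H => -(T * H 3))
          (by fun_prop) (by fun_prop)).mem_nhds ?_) fun H k _ => k
        simp only [Set.mem_ofPred_eq, e1, e3, zi]
        simp only [h, Nat.cast_mul, Nat.cast_ofNat]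
        linarith
      · simp [h]
  obtain ⟨O, gO, oU⟩ := (dense_base fr4 fun a => VV (u a)).inter_nhds_nonempty (hU 0)
  choose X gX xU using fun j => (dense_gen fr4 (fun a => VV (u a)) gO).inter_nhds_nonempty (hU j)
  have gk : ∀ k a b c, O ∉ C3 (VV (u (σ k a))) (VV (u (σ k b))) (VV (u (σ k c))) :=
    fun k a b c => gO _ _ _
  let lam : W4 →ₗ[ℝ] ℝ := Q ![1, 0] + Q ![0, 1]
  have hl : ∀ p, 0 < lam (VV (u p)) := fun p => by
    simp only [lam, LinearMap.add_apply, Q_VV, om]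
    rcases hu p with e | e
    · simp [e]
    · simp
      positivity
  have box : ∀ {Y Z : W4} {A A' : M2} {κ κ' : ℝ}, A.det = 1 → A'.det = 1 → 0 < κ → 0 < κ' →
      Y ∈ Bx A κ → Z ∈ Bx A' κ' → ∃ c, 0 < c ∧ S3 O Y Z ⊆ Bx (Fr (ζ 0) τ) c := by
    intro Y Z A A' κ κ' h1 h2 k1 k2 y z
    obtain ⟨c, c1, hc⟩ := exists_cmp (Fr_det (ζ 0) τ0) h1
    obtain ⟨d, d1, hd⟩ := exists_cmp (Fr_det (ζ 0) τ0) h2
    have p1 : 0 < c * κ := by positivity
    have p2 : 0 < d * κ' := by positivity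
    exact ⟨2 + c * κ + d * κ', by positivity, Bx.s3 (Bx.mono oU.1 two_pos (by linarith))
      (Bx.mono (Bx.cmp y (by linarith) k1.le hc) p1 (by linarith))
      (Bx.mono (Bx.cmp z (by linarith) k2.le hd) p2 (by linarith))⟩
  let N : W4 → ℕ := fun Y =>
    ((Finset.range (n + 1)).filter fun k => sP (fun a => VV (u (σ k a))) O Y = 1).card
  have step : ∀ (j : ℕ) (κ : ℝ) (Y Z : W4), 0 < κ → Y ∈ Bx (Fr (ζ j) τ) κ →
      Z ∈ Bx (Fr (ζ j) τ) κ → Gen (fun a => VV (u a)) O Y → Gen (fun a => VV (u a)) O Z →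
      N Z ≤ N Y + Nf (2 * κ ^ 2 * B ^ 2 / (1 / τ ^ 2)) := by
    intro j κ Y Z k0 y z gY gZ
    obtain ⟨c, c0, hc⟩ := box (Fr_det _ τ0) (Fr_det _ τ0) k0 k0 y z
    refine le_trans (Finset.card_le_card (t := _ ∪ (Finset.range (n + 1)).filter fun k =>
      sP (fun a => VV (u (σ k a))) O Y ≠ sP (fun a => VV (u (σ k a))) O Z) fun k hk => ?_)
      ((Finset.card_union_le _ _).trans (Nat.add_le_add_left
        (hN _ _ _ (Fr_det (ζ j) τ0) fun k hk => ?_) _))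
    · simp only [Finset.mem_union, Finset.mem_filter] at hk ⊢
      by_cases e : sP (fun a => VV (u (σ k a))) O Y = 1
      · exact Or.inl ⟨hk.1, e⟩
      · exact Or.inr ⟨hk.1, hk.2 ▸ e⟩
    · simp only [Finset.mem_filter, Finset.mem_range, Nat.lt_succ_iff] at hk
      have L := hL k hk.1
      by_contra hc'
      refine hk.2 (sP_eq fr4 lam _ (fun a => hl _) (gk k) (gY.comp _) (gZ.comp _)
        (fun a b hab x x1 x2 => hc' ?_) (fun a p _ hp => ?_)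
        (L.lf L.one (Fr_det _ τ0) c0 m0 (fun a => th _ _) hc))
      · have := est3 (by linarith [L.one]) L.up (Fr_det (ζ j) τ0) k0 m0 (fun a => th _ _)
          (Bx.s2 y z x1) (hab.trans_le L.one) (((ab_symm _ _).trans (apex_l hab)).trans_le L.one)
          ((apex_r hab).trans_le L.one) x2
        exact ⟨a, b, hab, this.1, this.2.1⟩
      · have t1 := (hc hp (u (σ k a))).1
        have t2 := th (ζ 0) (σ k a)
        rw [map_smul, Q_VV, om_self, norm_zero, zero_pow two_ne_zero, smul_zero, mul_zero] at t1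
        linarith
  have hi : ∀ j, High B (X j) := fun j => Fr_high (xU j).1
  have hO : High B O := Fr_high oU.1
  have uO := oU.2.1 rfl
  have lf : ∀ k ≤ n, ∀ {Y : W4} {A : M2}, A.det = 1 → Y ∈ Bx A 2 → ∀ M' ≤ M0 ^ 2 + M0,
      LF M' (fun a => VV (u (σ k a))) (S2 O Y) := by
    intro k hk Y A hA y M' hM
    obtain ⟨c, c0, hc⟩ := box hA hA two_pos two_pos y y
    exact (hL k hk).lf hM (Fr_det _ τ0) c0 m0 (fun a => th _ _) ((S2_sub1 _ _ _).trans hc)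
  have far : ∀ k ≤ n, sP (fun a => VV (u (σ k a))) O (X (2 * J)) = 1 := fun k hk =>
    (hL k hk).fan T0 (hT k hk) hO (hi _) uO ((xU _).2.2 rfl) ((gX _).comp _)
      (lf k hk (Fr_det _ τ0) (xU _).1 1 (hL k hk).one)
  have N0 : N (X 0) = 0 := by
    refine Finset.card_eq_zero.2 (Finset.filter_eq_empty_iff.2 fun k hk => ?_)
    have hk' := Nat.lt_succ_iff.1 (Finset.mem_range.1 hk)
    have L := hL k hk'
    have : sP (fun a => VV (u (σ k a))) O (X 0) = 0 := by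
      refine finsum_eq_zero_of_forall_eq_zero fun x => tv_neg ?_
      rintro ⟨_, ⟨p, q, p0, q0, pq, rfl⟩, h⟩
      have l := ((ab_symm _ _).trans (apex_l x.2)).trans_le L.one
      have r := (apex_r x.2).trans_le L.one
      refine L.out (hT k hk') (hO.comb (hi 0) p0 q0 (by linarith)) (lt_of_lt_of_le ?_ (le_abs_self _))
        _ _ _ _ (x.2.trans_le L.one) l l r r (by rw [D_self, abs_zero]; linarith [L.one])
        (C3_sub4 _ _ _ h)
      have u0 := (xU 0).2.1 rfl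
      simp only [Pi.add_apply, Pi.smul_apply, smul_eq_mul]
      rcases p0.eq_or_lt with rfl | t
      · rw [zero_add] at pq
        rw [pq]
        linarith
      · nlinarith [mul_lt_mul_of_pos_left uO t, mul_le_mul_of_nonneg_left u0.le q0]
    rw [this]
    exact zero_ne_one
  have N1 : N (X (2 * J)) = n + 1 := by
    simp only [N]
    rw [Finset.filter_true_of_mem fun k hk => far k (Nat.lt_succ_iff.1 (Finset.mem_range.1 hk)),
      Finset.card_range]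
  have ex : ∃ j, n / 2 ≤ N (X j) := ⟨2 * J, by omega⟩
  obtain ⟨j, j1, j2⟩ : ∃ j, n / 2 ≤ N (X j) ∧
      N (X j) ≤ n / 2 + Nf (2 * (3 * 2) ^ 2 * B ^ 2 / (1 / τ ^ 2)) := by
    refine ⟨Nat.find ex, Nat.find_spec ex, ?_⟩
    rcases h : Nat.find ex with _ | j
    · omega
    · have t := Nat.find_min ex (show j < Nat.find ex by omega)
      have c : Cmp 3 (Fr (ζ j) τ) (Fr (ζ (j + 1)) τ) := Fr_cmp τ0 (by
        have : ζ j - ζ (j + 1) = (τ ^ 2 : ℝ) * Complex.I := by simp only [ζ]; push_cast; ring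
        rw [this]
        simp [abs_of_pos τ0])
      have := step j (3 * 2) (X j) (X (j + 1)) (by norm_num)
        (Bx.mono (xU j).1 two_pos (by norm_num)) (Bx.cmp (xU _).1 (by norm_num) zero_le_two c)
        (gX _) (gX _)
      omega
  refine ⟨Fr (ζ j) τ, Fr_det _ τ0, th _, fun κ k1 A' hA' c hn => ?_⟩
  obtain ⟨Y, gY, y⟩ := (dense_gen fr4 (fun a => VV (u a)) gO).inter_nhds_nonempty (Bx_nhds hA')
  refine ⟨Y, y, ?_⟩
  by_contra hc
  push Not at hc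
  have y' := Bx.cmp y (by linarith) zero_le_two c
  have x' : X j ∈ Bx (Fr (ζ j) τ) (κ * 2) := Bx.mono (xU j).1 two_pos (by linarith)
  have s1 := step j _ _ _ (by linarith) x' y' (gX j) gY
  have s2 := step j _ _ _ (by linarith) y' x' gY (gX j)
  have eq : ∀ k ≤ n, sP (fun a => VV (u (σ k a))) O Y = sP (fun a => VV (u (σ 0 a))) O Y := by
    intro k
    induction k with
    | zero => exact fun _ => rfl
    | succ k ih =>
      intro hk
      have hk' : k ≤ n := by omega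
      have L := hL k hk'
      have f1 := far (k + 1) hk
      simp only [hσ] at f1 ⊢
      rw [← ih hk']
      exact level_eq fr4 lam (fun a => VV (u (σ k a))) (fun a => hl _) M0 s hs1 hb (gk k)
        ((gX _).comp _) (gY.comp _) (L.out (hT k hk') hO (uO.trans_le (le_abs_self _)))
        (L.out (hT k hk') (hi _) (lt_of_lt_of_le (lt_neg_of_lt_neg ((xU _).2.2 rfl))
          (neg_le_abs _))) (hc k hk') (lf k hk' (Fr_det _ τ0) (xU _).1 _ le_rfl)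
        (lf k hk' hA' y _ le_rfl) (far k hk') f1
  have : N Y = 0 ∨ N Y = n + 1 := by
    by_cases e : sP (fun a => VV (u (σ 0 a))) O Y = 1
    · right
      simp only [N]
      rw [Finset.filter_true_of_mem fun k hk =>
        (eq k (Nat.lt_succ_iff.1 (Finset.mem_range.1 hk))).trans e, Finset.card_range]
    · exact Or.inl (Finset.card_eq_zero.2 (Finset.filter_eq_empty_iff.2 fun k hk => by
        rwa [eq k (Nat.lt_succ_iff.1 (Finset.mem_range.1 hk))]))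
  omega

end Pool.Agent.Lib.THU.CV
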