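import Pool.Agent.Lib.THU.CV.Cone

/-!
A long segment high in a cusp crosses a level an odd number of times.
-/

namespace Pool.Agent.Lib.THU.CV

open Matrix Filter Topology
open Pool.Agent.Lib.THU Pool.Agent.Lib.THU.NB Pool.Agent.Lib.THU.FA
open scoped Classical

lemma exists_fan (a : P) : ∃ β : ℤ → P, (∀ j, |D a (β j)| = 1) ∧ (∀ j, apex a (β j) = β (j + 1)) ∧
    (∀ i j, |D (β i) (β j)| = |i - j|) ∧ ∀ b, |D a b| = 1 → ∃ j, β j = b := by
  obtain ⟨A, hA⟩ := exists_inf a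
  have h0 : |D (A • ((0 : ℚ) : P)) a| = 1 := by rw [← hA, abs_D_smul]; simp [D]
  generalize A • ((0 : ℚ) : P) = z at h0
  choose η h1 h2 using fun j : ℤ => comb h0 (D a z * j)
  set β : ℤ → P := fun j => pt (nu z + D a z * j * nu a) (de z + D a z * j * de a) with hβ
  have h3 : ∀ j x, D (β j) x = η j * (D z x + D a z * j * D a x) := h2
  have e : D a z = 1 ∨ D a z = -1 := pm ((ab_symm _ _).trans h0)
  have k1 : ∀ j, D a (β j) = η j * D a z := fun j => by
    rw [D_swap, h3, D_self, D_swap a z]; ring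
  have k2 : ∀ j, D z (β j) = -(η j * j) := fun j => by
    rw [D_swap, h3, D_self]
    rcases e with e | e <;> simp [e]
  have k3 : ∀ j, |D a (β j)| = 1 := fun j => by
    rw [k1]
    rcases e with e | e <;> rcases h1 j with t | t <;> simp [e, t]
  refine ⟨β, k3, fun j => ?_, fun i j => ?_, fun b hb => ⟨-(D a z * D z b * D a b), ?_⟩⟩
  · obtain ⟨θ, -, t⟩ := apex_D (k3 j)
    apply D_eq_zero.1
    rw [t, h3, k1, k1, k2]
    rcases e with e | e <;> rcases h1 j with t | t <;> rw [e, t] <;> ring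
  · rw [h3, k1, k2]
    rcases e with e | e <;> rcases h1 i with t | t <;> rcases h1 j with s | s <;>
      simp only [e, t, s, abs_eq_max_neg] <;> omega
  · apply D_eq_zero.1
    rw [h3]
    rcases e with e | e <;> rcases pm hb with t | t <;> simp [e, t]

lemma tele (s : ℤ → ZMod 2) (J : ℕ) (h1 : ∀ j : ℤ, J ≤ j → s j = s J)
    (h2 : ∀ j : ℤ, j ≤ -J → s j = s (-J)) : ∑ᶠ j, (s j + s (j + 1)) = s (-J) + s J := by
  have key : ∀ n : ℕ, ∑ j ∈ Finset.Ico (-J : ℤ) (-J + n), (s j + s (j + 1)) =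
      s (-J) + s (-J + n) := by
    intro n
    induction n with
    | zero => simp [two]
    | succ n ih =>
      rw [Nat.cast_succ, ← add_assoc, ← Finset.insert_Ico_right_eq_Ico_add_one (by omega),
        Finset.sum_insert (by simp), ih]
      linear_combination two (s (-J + n))
  have := key (2 * J)
  rw [show (-J : ℤ) + (2 * J : ℕ) = J by push_cast; ring] at this
  rw [← this]
  refine finsum_eq_sum_of_support_subset _ fun j hj => ?_
  by_contra hc
  simp only [Finset.coe_Ico, Set.mem_Ico, not_and_or, not_le, not_lt] at hc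
  rcases hc with h | h
  · exact hj (by simp only [h2 j (by omega), h2 (j + 1) (by omega), two])
  · exact hj (by simp only [h1 j h, h1 (j + 1) (by omega), two])

lemma per_bd (g : ℤ → ℝ) {m : ℤ} (hm : m ≠ 0) (c : ℝ) (h : ∀ j, g (j + m) = g j + c) :
    ∃ K : ℝ, 0 ≤ K ∧ ∀ j, |g j - (j / m : ℤ) * c| ≤ K := by
  have e : ∀ i : ℤ, ∀ j, g (j + i * m) = g j + i * c := by
    intro i
    induction i using Int.induction_on with
    | zero => simp
    | succ n ih => intro j; rw [add_mul, one_mul, ← add_assoc, h, ih]; push_cast; ring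
    | pred n ih =>
      intro j
      have := h (j + (-n - 1) * m)
      rw [show j + (-n - 1) * m + m = j + -n * m by ring, ih] at this
      push_cast at this ⊢
      linarith
  refine ⟨∑ i ∈ Finset.Ico 0 |m|, |g i|, Finset.sum_nonneg fun _ _ => abs_nonneg _, fun j => ?_⟩
  have := e (j / m) (j % m)
  rw [Int.emod_add_ediv_mul] at this
  rw [this, add_sub_cancel_right]
  exact Finset.single_le_sum (f := fun i => |g i|) (fun _ _ => abs_nonneg _)
    (Finset.mem_Ico.2 ⟨Int.emod_nonneg _ hm, Int.emod_lt_abs _ hm⟩)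

lemma tele_per (g : ℤ → ℝ) {m : ℤ} (hm : m ≠ 0) {c : ℝ} (hc : c ≠ 0)
    (h : ∀ j, g (j + m) = g j + c) : ∑ᶠ j, (tv (0 < g j) + tv (0 < g (j + 1))) = 1 := by
  wlog m0 : 0 < m generalizing m c
  · refine this (neg_ne_zero.2 hm) (neg_ne_zero.2 hc) (fun j => ?_) (by omega)
    have := h (j + -m)
    rw [neg_add_cancel_right] at this
    linarith
  obtain ⟨K, K0, hK⟩ := per_bd g hm c h
  obtain ⟨N, hN⟩ := exists_nat_gt (K / |c|)
  rw [div_lt_iff₀ (abs_pos.2 hc)] at hN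
  have up : ∀ j : ℤ, (N * m.toNat : ℕ) ≤ j → (N : ℝ) ≤ (j / m : ℤ) := fun j hj => by
    have : (N : ℤ) ≤ j / m := (Int.le_ediv_iff_mul_le m0).2 (by
      push_cast at hj; rwa [Int.toNat_of_nonneg m0.le] at hj)
    exact_mod_cast this
  have dn : ∀ j : ℤ, j ≤ -(N * m.toNat : ℕ) → ((j / m : ℤ) : ℝ) ≤ -N := fun j hj => by
    have : j / m ≤ -N := Int.ediv_le_of_le_mul m0 (by
      push_cast at hj; rw [Int.toNat_of_nonneg m0.le] at hj; linarith)
    exact_mod_cast this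
  rcases lt_or_gt_of_ne hc with c0 | c0
  · rw [abs_of_neg c0] at hN
    have u : ∀ j : ℤ, (N * m.toNat : ℕ) ≤ j → tv (0 < g j) = 0 := fun j hj =>
      tv_neg (by nlinarith [up j hj, abs_le.1 (hK j)])
    have d : ∀ j : ℤ, j ≤ -(N * m.toNat : ℕ) → tv (0 < g j) = 1 := fun j hj =>
      tv_pos (by nlinarith [dn j hj, abs_le.1 (hK j)])
    rw [tele _ (N * m.toNat) (fun j hj => by rw [u j hj, u _ le_rfl])
      (fun j hj => by rw [d j hj, d _ le_rfl]), u _ le_rfl, d _ le_rfl, add_zero]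
  · rw [abs_of_pos c0] at hN
    have u : ∀ j : ℤ, (N * m.toNat : ℕ) ≤ j → tv (0 < g j) = 1 := fun j hj =>
      tv_pos (by nlinarith [up j hj, abs_le.1 (hK j)])
    have d : ∀ j : ℤ, j ≤ -(N * m.toNat : ℕ) → tv (0 < g j) = 0 := fun j hj =>
      tv_neg (by nlinarith [dn j hj, abs_le.1 (hK j)])
    rw [tele _ (N * m.toNat) (fun j hj => by rw [u j hj, u _ le_rfl])
      (fun j hj => by rw [d j hj, d _ le_rfl]), u _ le_rfl, d _ le_rfl, zero_add]

/-- one level seen in the frame of the cusp `o` -/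
structure Lv (Y : P → C2v) (o : P) (M : ℤ) (B : ℝ) : Prop where
  inf : Y o = ![1, 0]
  low : ∀ a b, a ≠ b → 1 ≤ ‖om (Y a) (Y b)‖
  up : ∀ a b, |D a b| ≤ M → ‖om (Y a) (Y b)‖ ≤ B
  one : 1 ≤ M
  per : ∃ π : P → P, π o = o ∧ (∀ a b, |D (π a) (π b)| = |D a b|) ∧
    ∀ b, ∃ μ : ℂ, ‖μ‖ = 1 ∧ Y (π b) = μ • (Y b + om (Y o) (Y b) • Y o)

/-- high in the cusp -/
def High (B : ℝ) (H : W4) : Prop := 0 < H 3 ∧ ∀ x : ℂ, (B ^ 2 + 1) * H 3 ≤ Q ![x, 1] H

lemma High.comb {B s t : ℝ} {X Y : W4} (hX : High B X) (hY : High B Y) (s0 : 0 ≤ s) (t0 : 0 ≤ t)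
    (st : 0 < s + t) : High B (s • X + t • Y) := by
  constructor
  · have := hX.1
    have := hY.1
    simp only [Pi.add_apply, Pi.smul_apply, smul_eq_mul]
    rcases s0.eq_or_lt with rfl | h
    · nlinarith
    · nlinarith [mul_pos h hX.1, mul_nonneg t0 hY.1.le]
  · intro x
    simp only [Pi.add_apply, Pi.smul_apply, smul_eq_mul, map_add, map_smul]
    nlinarith [mul_le_mul_of_nonneg_left (hX.2 x) s0, mul_le_mul_of_nonneg_left (hY.2 x) t0]

section
variable {Y : P → C2v} {o : P} {M : ℤ} {B : ℝ}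

lemma Lv.y (h : Lv Y o M B) {a : P} (ha : a ≠ o) : 1 ≤ ‖Y a 1‖ := by
  simpa [h.inf, om] using h.low o a ha.symm

lemma Lv.q (h : Lv Y o M B) {a b : P} (ha : a ≠ o) (hb : b ≠ o) (hab : |D b a| ≤ M) :
    Q ![Y a 0 / Y a 1, 1] (VV (Y b)) ≤ B ^ 2 * VV (Y b) 3 := by
  have y0 := h.y ha
  have n : Y a 1 ≠ 0 := fun e => by rw [e, norm_zero] at y0; linarith
  have e : Y a = Y a 1 • ![Y a 0 / Y a 1, 1] := by
    ext i
    fin_cases i <;> simp [mul_div_cancel₀ _ n]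
  have k := pow_le_pow_left₀ (norm_nonneg _) (h.up b a hab) 2
  rw [← Q_VV, e, Q_smul] at k
  have k1 : 0 ≤ Q ![Y a 0 / Y a 1, 1] (VV (Y b)) := by rw [Q_VV]; positivity
  have k2 := one_le_pow₀ (n := 2) y0
  have k3 := one_le_pow₀ (n := 2) (h.y hb)
  rw [VV3]
  nlinarith [sq_nonneg B]

lemma Lv.vertex (h : Lv Y o M B) {H : W4} (hH : High B H) {a b c e : P} (h1 : |D a b| ≤ M)
    (h2 : |D a c| ≤ M) (h3 : |D a e| ≤ M)
    (k : H ∈ C4 (VV (Y a)) (VV (Y b)) (VV (Y c)) (VV (Y e))) : a = o ∨ b = o ∨ c = o ∨ e = o := by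
  by_contra hc
  push Not at hc
  obtain ⟨p, q, r, s, p0, q0, r0, s0, rfl⟩ := k
  have t := hH.2 (Y a 0 / Y a 1)
  have t0 := hH.1
  have := h.one
  have := mul_le_mul_of_nonneg_left (h.q hc.1 hc.1 (by rw [D_self, abs_zero]; omega)) p0
  have := mul_le_mul_of_nonneg_left (h.q hc.1 hc.2.1 ((ab_symm _ _).trans_le h1)) q0
  have := mul_le_mul_of_nonneg_left (h.q hc.1 hc.2.2.1 ((ab_symm _ _).trans_le h2)) r0
  have := mul_le_mul_of_nonneg_left (h.q hc.1 hc.2.2.2 ((ab_symm _ _).trans_le h3)) s0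
  simp only [Pi.add_apply, Pi.smul_apply, smul_eq_mul, map_add, map_smul] at t t0
  nlinarith

lemma VV_shift (v : C2v) {μ : ℂ} (hμ : ‖μ‖ = 1) :
    VV (μ • (v + om ![1, 0] v • ![1, 0])) 0 = VV v 0 + VV v 3 ∧
    VV (μ • (v + om ![1, 0] v • ![1, 0])) 1 = VV v 1 ∧
    VV (μ • (v + om ![1, 0] v • ![1, 0])) 3 = VV v 3 := by
  have := nsq μ
  rw [hμ] at this
  simp [VV, om, vecHead, vecTail]
  refine ⟨?_, ?_, ?_⟩
  · linear_combination (-((v 0).re * (v 1).re + (v 0).im * (v 1).im +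
      (v 1).re ^ 2 + (v 1).im ^ 2)) * this
  · linear_combination (-((v 0).im * (v 1).re - (v 0).re * (v 1).im)) * this
  · linear_combination (-((v 1).re ^ 2 + (v 1).im ^ 2)) * this

lemma Lv.shift (h : Lv Y o M B) {β : ℤ → P} (b1 : ∀ j, |D o (β j)| = 1)
    (b3 : ∀ i j, |D (β i) (β j)| = |i - j|) (b4 : ∀ b, |D o b| = 1 → ∃ j, β j = b) :
    ∃ m : ℤ, m ≠ 0 ∧ ∀ j, VV (Y (β (j + m))) 0 = VV (Y (β j)) 0 + VV (Y (β j)) 3 ∧
      VV (Y (β (j + m))) 1 = VV (Y (β j)) 1 ∧ VV (Y (β (j + m))) 3 = VV (Y (β j)) 3 := by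
  obtain ⟨π, p1, p2, p3⟩ := h.per
  choose f hf using fun j => b4 (π (β j)) (by rw [← p1, p2, b1])
  have sh : ∀ j, VV (Y (β (f j))) 0 = VV (Y (β j)) 0 + VV (Y (β j)) 3 ∧
      VV (Y (β (f j))) 1 = VV (Y (β j)) 1 ∧ VV (Y (β (f j))) 3 = VV (Y (β j)) 3 := fun j => by
    obtain ⟨μ, m1, m2⟩ := p3 (β j)
    rw [hf, m2, h.inf]
    exact VV_shift _ m1
  have iso : ∀ i j, (f i - f j) ^ 2 = (i - j) ^ 2 := fun i j => by
    rw [sq_eq_sq_iff_abs_eq_abs, ← b3, hf, hf, p2, b3]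
  have y0 : 0 < VV (Y (β 0)) 3 := by
    have := h.y (fa_ne (b1 0)).symm
    rw [VV3]
    positivity
  have d : f 1 - f 0 = 1 ∨ f 1 - f 0 = -1 := by
    simpa using iso 1 0
  rcases d with d | d
  · have e : ∀ j, f j = j + f 0 := fun j => by nlinarith [iso j 0, iso j 1]
    refine ⟨f 0, fun z => ?_, fun j => e j ▸ sh j⟩
    have := (sh 0).1
    rw [z] at this
    linarith
  · have e : ∀ j, f j = f 0 - j := fun j => by nlinarith [iso j 0, iso j 1]
    have t1 := sh 0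
    have t2 := sh (f 0)
    rw [e (f 0), sub_self] at t2
    linarith [t1.1, t1.2.2, t2.1]

lemma Lv.im (h : Lv Y o M B) : ∃ T : ℝ, 0 ≤ T ∧ ∀ b, |D o b| ≤ M →
    |VV (Y b) 1| ≤ T * VV (Y b) 3 := by
  obtain ⟨β, b1, -, b3, b4⟩ := exists_fan o
  obtain ⟨m, m0, hm⟩ := h.shift b1 b3 b4
  obtain ⟨K, K0, hK⟩ := per_bd (fun j => VV (Y (β j)) 1 / VV (Y (β j)) 3) m0 0
    (fun j => by rw [(hm j).2.1, (hm j).2.2, add_zero])
  have B0 : 0 ≤ B := (norm_nonneg _).trans (h.up o o (by rw [D_self, abs_zero]; linarith [h.one]))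
  refine ⟨K + B, by linarith, fun b hb => ?_⟩
  by_cases e : b = o
  · simp [e, h.inf, VV]
  obtain ⟨a, a1, a2⟩ := exists_par (Ne.symm e)
  obtain ⟨j, rfl⟩ := b4 a a1
  have k := hK j
  have n := (fa_ne a1).symm
  have q := h.q n e ((ab_symm _ _).trans_le (by omega))
  have im : ∀ v : C2v, v 1 ≠ 0 → VV v 1 / VV v 3 = (v 0 / v 1).im := fun v hv => by
    simp only [VV, Complex.div_im, Complex.normSq_apply]
    simp
    ring
  have nz : ∀ a, a ≠ o → Y a 1 ≠ 0 := fun a ha e => by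
    have := h.y ha
    rw [e, norm_zero] at this
    linarith
  have y0 : 0 < VV (Y b) 3 := by
    have := h.y e
    rw [VV3]
    positivity
  rw [mul_zero, sub_zero, im _ (nz _ n)] at k
  have e1 : om (Y b) ![Y (β j) 0 / Y (β j) 1, 1] = (Y b 0 / Y b 1 - Y (β j) 0 / Y (β j) 1) * Y b 1 := by
    have := nz _ e
    simp only [om, cons_val_one, cons_val_zero, cons_val_fin_one]
    field_simp
  rw [Q_VV, e1, norm_mul, mul_pow, ← VV3, mul_le_mul_iff_left₀ y0] at q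
  have q1 := (Complex.abs_im_le_norm _).trans (abs_le_of_sq_le_sq' q B0).2
  rw [Complex.sub_im] at q1
  rw [← div_le_iff₀ y0, ← abs_of_pos y0, ← abs_div, im _ (nz _ e)]
  have := abs_le.1 k
  have := abs_le.1 q1
  rw [abs_le]
  constructor <;> linarith

lemma Lv.out (h : Lv Y o M B) {T : ℝ} (hT : ∀ b, |D o b| ≤ M → |VV (Y b) 1| ≤ T * VV (Y b) 3)
    {H : W4} (hH : High B H) (k : T * H 3 < |H 1|) : Out M (fun a => VV (Y a)) H := by
  intro a b c e h1 h2 h3 h4 h5 h6 hm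
  have s : ∀ a b, |D a b| ≤ M → |D b a| ≤ M := fun a b h => (ab_symm _ _).trans_le h
  have z : ∀ a, |D a a| ≤ M := fun a => by rw [D_self, abs_zero]; linarith [h.one]
  have : |D o a| ≤ M ∧ |D o b| ≤ M ∧ |D o c| ≤ M ∧ |D o e| ≤ M := by
    rcases h.vertex hH h1 h2 h3 hm with rfl | rfl | rfl | rfl
    exacts [⟨z _, h1, h2, h3⟩, ⟨s _ _ h1, z _, h4, h5⟩, ⟨s _ _ h2, s _ _ h4, z _, h6⟩,
      ⟨s _ _ h3, s _ _ h5, s _ _ h6, z _⟩]
  obtain ⟨p, q, r, t, p0, q0, r0, t0, rfl⟩ := hm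
  have a1 := abs_le.1 (hT _ this.1)
  have a2 := abs_le.1 (hT _ this.2.1)
  have a3 := abs_le.1 (hT _ this.2.2.1)
  have a4 := abs_le.1 (hT _ this.2.2.2)
  simp only [Pi.add_apply, Pi.smul_apply, smul_eq_mul] at k
  refine absurd k (not_lt.2 (abs_le.2 ⟨?_, ?_⟩))
  · nlinarith [mul_le_mul_of_nonneg_left a1.1 p0, mul_le_mul_of_nonneg_left a2.1 q0,
      mul_le_mul_of_nonneg_left a3.1 r0, mul_le_mul_of_nonneg_left a4.1 t0]
  · nlinarith [mul_le_mul_of_nonneg_left a1.2 p0, mul_le_mul_of_nonneg_left a2.2 q0,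
      mul_le_mul_of_nonneg_left a3.2 r0, mul_le_mul_of_nonneg_left a4.2 t0]

/-- the plane through `O`, `X` and the cusp -/
def Lam (O X : W4) : W4 →ₗ[ℝ] ℝ where
  toFun H := H 0 * (O 1 * X 3 - X 1 * O 3) - O 0 * (H 1 * X 3 - X 1 * H 3) -
    X 0 * (O 1 * H 3 - H 1 * O 3)
  map_add' H K := by simp only [Pi.add_apply]; ring
  map_smul' c H := by simp only [Pi.smul_apply, smul_eq_mul, RingHom.id_apply]; ring

lemma Lam_apply (O X H : W4) : Lam O X H = H 0 * (O 1 * X 3 - X 1 * O 3) -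
    O 0 * (H 1 * X 3 - X 1 * H 3) - X 0 * (O 1 * H 3 - H 1 * O 3) := rfl

lemma VV_e1 : VV ![1, 0] = ![0, 0, 1, 0] := by simp [VV]

lemma cross {O X H : W4} {T : ℝ} {x : ℂ} (T0 : 0 ≤ T) (hO : High B O) (hX : High B X)
    (uO : T * O 3 < O 1) (dX : X 1 < -(T * X 3)) (h3 : 0 < H 3) (h1 : |H 1| ≤ T * H 3)
    (hq : Q ![x, 1] H ≤ B ^ 2 * H 3) (hL : Lam O X H = 0) :
    ∃ α l : ℝ, 0 ≤ α ∧ 0 ≤ l ∧ α • VV ![1, 0] + l • H ∈ S2 O X := by
  have o3 := hO.1
  have x3 := hX.1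
  have h1' := abs_le.1 h1
  have δ0 : 0 < O 1 * X 3 - X 1 * O 3 := by nlinarith [mul_nonneg T0 o3.le, mul_nonneg T0 x3.le]
  have s0 : 0 < H 1 * X 3 - X 1 * H 3 := by nlinarith
  have t0 : 0 < O 1 * H 3 - H 1 * O 3 := by nlinarith
  rw [Lam_apply] at hL
  set δ := O 1 * X 3 - X 1 * O 3 with hδ
  set s := H 1 * X 3 - X 1 * H 3 with hs
  set t := O 1 * H 3 - H 1 * O 3 with ht
  have e : s • O + t • X = (s * O 2 + t * X 2 - δ * H 2) • VV ![1, 0] + δ • H := by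
    rw [VV_e1]
    ext i
    fin_cases i <;> simp [hδ, hs, ht] <;> linarith
  have k := (hO.comb hX s0.le t0.le (by linarith)).2 x
  have q1 : Q ![x, 1] (VV ![1, 0]) = 1 := by simp [Q_VV, om]
  rw [e] at k
  simp only [map_add, map_smul, smul_eq_mul, q1, Pi.add_apply, Pi.smul_apply, VV3] at k
  simp only [cons_val_one, cons_val_fin_one, norm_zero] at k
  have a0 : 0 ≤ s * O 2 + t * X 2 - δ * H 2 := by
    nlinarith [mul_le_mul_of_nonneg_left hq δ0.le, mul_pos δ0 h3]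
  have st : 0 < s + t := by linarith
  refine ⟨(s * O 2 + t * X 2 - δ * H 2) / (s + t), δ / (s + t), by positivity, by positivity,
    s / (s + t), t / (s + t), by positivity, by positivity, by field_simp, ?_⟩
  simp only [div_eq_inv_mul, mul_smul, ← smul_add, e]

theorem Lv.fan (h : Lv Y o M B) {T : ℝ} (T0 : 0 ≤ T)
    (hT : ∀ b, |D o b| ≤ M → |VV (Y b) 1| ≤ T * VV (Y b) 3) {O X : W4} (hO : High B O)
    (hX : High B X) (uO : T * O 3 < O 1) (dX : X 1 < -(T * X 3))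
    (g : Gen (fun a => VV (Y a)) O X) (fin : LF 1 (fun a => VV (Y a)) (S2 O X)) :
    sP (fun a => VV (Y a)) O X = 1 := by
  obtain ⟨β, b1, b2, b3, b4⟩ := exists_fan o
  obtain ⟨m, m0, hm⟩ := h.shift b1 b3 b4
  have M1 := h.one
  have bn : ∀ j, β j ≠ o := fun j => (fa_ne (b1 j)).symm
  have y0 : ∀ j, 0 < VV (Y (β j)) 3 := fun j => by
    have := h.y (bn j)
    rw [VV3]
    positivity
  have cr : ∀ (j : ℤ) (p q : ℝ), 0 ≤ p → 0 ≤ q → 0 < p + q →
      p * Lam O X (VV (Y (β j))) + q * Lam O X (VV (Y (β (j + 1)))) = 0 → ∃ α l : ℝ, 0 ≤ α ∧ 0 ≤ l ∧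
      α • VV (Y o) + l • (p • VV (Y (β j)) + q • VV (Y (β (j + 1)))) ∈ S2 O X := by
    intro j p q p0 q0 pq hL
    have a1 := abs_le.1 (hT (β j) ((b1 j).trans_le M1))
    have a2 := abs_le.1 (hT (β (j + 1)) ((b1 _).trans_le M1))
    have c1 := h.q (bn j) (bn j) (by rw [D_self, abs_zero]; omega)
    have c2 := h.q (bn j) (bn (j + 1)) (by rw [b3]; simpa using M1)
    rw [h.inf]
    refine cross (x := Y (β j) 0 / Y (β j) 1) T0 hO hX uO dX ?_ ?_ ?_ (by simpa using hL)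
    · simp only [Pi.add_apply, Pi.smul_apply, smul_eq_mul]
      rcases p0.eq_or_lt with rfl | t
      · nlinarith [y0 (j + 1)]
      · nlinarith [mul_pos t (y0 j), mul_nonneg q0 (y0 (j + 1)).le]
    · simp only [Pi.add_apply, Pi.smul_apply, smul_eq_mul, abs_le]
      constructor
      · nlinarith [mul_le_mul_of_nonneg_left a1.1 p0, mul_le_mul_of_nonneg_left a2.1 q0]
      · nlinarith [mul_le_mul_of_nonneg_left a1.2 p0, mul_le_mul_of_nonneg_left a2.2 q0]
    · simp only [Pi.add_apply, Pi.smul_apply, smul_eq_mul, map_add, map_smul]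
      nlinarith [mul_le_mul_of_nonneg_left c1 p0, mul_le_mul_of_nonneg_left c2 q0]
  have nz : ∀ j, Lam O X (VV (Y (β j))) ≠ 0 := fun j e => by
    obtain ⟨α, l, a0, l0, k⟩ := cr j 1 0 zero_le_one le_rfl (by norm_num) (by simp [e])
    exact g.sg o (β j) _ k ⟨α, l, a0, l0, by module⟩
  have term : ∀ j, II O X (VV (Y o)) (VV (Y (β j))) (VV (Y (β (j + 1)))) =
      tv (0 < Lam O X (VV (Y (β j)))) + tv (0 < Lam O X (VV (Y (β (j + 1))))) := by
    intro j
    have n1 := nz j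
    have n2 := nz (j + 1)
    have fw : (S2 O X ∩ C3 (VV (Y o)) (VV (Y (β j))) (VV (Y (β (j + 1))))).Nonempty →
        ∃ p q : ℝ, 0 ≤ p ∧ 0 ≤ q ∧ 0 < p + q ∧
          p * Lam O X (VV (Y (β j))) + q * Lam O X (VV (Y (β (j + 1)))) = 0 := by
      rintro ⟨_, ⟨s, t, s0, t0, st, rfl⟩, α, p, q, -, p0, q0, e⟩
      refine ⟨p, q, p0, q0, ?_, ?_⟩
      · have k := (hO.comb hX s0 t0 (by linarith)).1
        by_contra hc
        have e1 : p = 0 := by linarith
        have e2 : q = 0 := by linarith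
        rw [e, e1, e2, h.inf, VV_e1] at k
        simp at k
      · have k := congrArg (Lam O X) e
        have z1 : Lam O X O = 0 := by rw [Lam_apply]; ring
        have z2 : Lam O X X = 0 := by rw [Lam_apply]; ring
        have z3 : Lam O X (VV (Y o)) = 0 := by rw [h.inf, VV_e1, Lam_apply]; simp
        simp only [map_add, map_smul, smul_eq_mul, z1, z2, z3] at k
        linarith
    have bw : ∀ p q : ℝ, 0 < p → 0 < q →
        p * Lam O X (VV (Y (β j))) + q * Lam O X (VV (Y (β (j + 1)))) = 0 →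
        II O X (VV (Y o)) (VV (Y (β j))) (VV (Y (β (j + 1)))) = 1 := fun p q p0 q0 e => by
      obtain ⟨α, l, a0, l0, k⟩ := cr j p q p0.le q0.le (by linarith) e
      exact tv_pos ⟨_, k, α, l * p, l * q, a0, by positivity, by positivity, by module⟩
    rcases lt_or_gt_of_ne n1 with s1 | s1 <;> rcases lt_or_gt_of_ne n2 with s2 | s2
    · rw [tv_neg (not_lt.2 s1.le), tv_neg (not_lt.2 s2.le), add_zero]
      refine tv_neg fun k => ?_
      obtain ⟨p, q, p0, q0, pq, e⟩ := fw k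
      rcases p0.eq_or_lt with rfl | t <;> nlinarith
    · rw [tv_neg (not_lt.2 s1.le), tv_pos s2, zero_add]
      exact bw _ _ s2 (neg_pos.2 s1) (by ring)
    · rw [tv_neg (not_lt.2 s2.le), tv_pos s1, add_zero]
      exact bw _ _ (neg_pos.2 s2) s1 (by ring)
    · rw [tv_pos s1, tv_pos s2, two]
      refine tv_neg fun k => ?_
      obtain ⟨p, q, p0, q0, pq, e⟩ := fw k
      rcases p0.eq_or_lt with rfl | t <;> nlinarith
  let F : FP → ZMod 2 := fun x => II O X (VV (Y x.1.1)) (VV (Y x.1.2)) (VV (Y (apex x.1.1 x.1.2)))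
  let γ : ℤ → FP := fun j => ⟨(o, β j), b1 j⟩
  have γi : Function.Injective γ := fun i j e => by
    have := b3 i j
    rw [show β i = β j from congrArg (fun x : FP => x.1.2) e, D_self] at this
    exact sub_eq_zero.1 (abs_eq_zero.1 this.symm)
  have γr : ∀ x : FP, x ∈ Set.range γ ↔ x.1.1 = o := fun x => by
    refine ⟨fun ⟨j, e⟩ => e ▸ rfl, fun e => ?_⟩
    obtain ⟨j, hj⟩ := b4 x.1.2 (e ▸ x.2)
    exact ⟨j, Subtype.ext (Prod.ext e.symm hj)⟩
  have Fr : ∀ x, F (rt x) = F x := fun x => by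
    simp only [F, rt, apex_rot x.2, II]
    rw [C3_s2, C3_s1]
  have Ff : (Function.support F).Finite := by
    refine (fin.preimage (f := fun x : FP => (x.1.1, x.1.2, apex x.1.1 x.1.2)) ?_).subset
      fun x hx => ⟨x.2.le, ((ab_symm _ _).trans (apex_l x.2)).le, (apex_r x.2).le, tv_ne hx⟩
    intro x _ y _ h
    simp only [Prod.mk.injEq] at h
    exact Subtype.ext (Prod.ext h.1 h.2.1)
  have Fd : ∀ x, F x = dd ((Set.range γ).indicator F) x := fun x => by
    by_cases z : F x = 0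
    · simp only [dd, Set.indicator, Fr, z, ite_self, add_zero]
    obtain ⟨_, ⟨s, t, s0, t0, st, rfl⟩, k⟩ := tv_ne z
    have v := h.vertex (hO.comb hX s0 t0 (by linarith)) (x.2.trans_le M1)
      (((ab_symm _ _).trans (apex_l x.2)).trans_le M1)
      (((ab_symm _ _).trans (apex_l x.2)).trans_le M1) (C3_sub4 _ _ _ k)
    have n1 := fa_ne x.2
    have n2 := fa_ne (apex_r x.2)
    have n3 := fa_ne (apex_l x.2)
    simp only [dd, Set.indicator, Fr, γr]
    simp only [rt]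
    rcases v with e | e | e | e
    · rw [if_pos e, if_neg (e ▸ n1.symm), if_neg (e ▸ n3)]; simp
    · rw [if_pos e, if_neg (e ▸ n1), if_neg (e ▸ n2.symm)]; simp
    · rw [if_pos e, if_neg (e ▸ n3.symm), if_neg (e ▸ n2)]; simp
    · rw [if_pos e, if_neg (e ▸ n3.symm), if_neg (e ▸ n2)]; simp
  change ∑ᶠ x, F x = 1
  rw [finsum_congr Fd, sum_dd (Ff.subset (by simp [Set.support_indicator])), ← finsum_mem_def,
    finsum_mem_range γi]
  have δ0 : 0 < O 1 * X 3 - X 1 * O 3 := by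
    nlinarith [mul_nonneg T0 hO.1.le, mul_nonneg T0 hX.1.le, hO.1, hX.1]
  rw [← tele_per (fun j => Lam O X (VV (Y (β j))) / VV (Y (β j)) 3) m0 δ0.ne' fun j => ?_]
  · refine finsum_congr fun j => ?_
    simp only [F, γ, b2, term, div_pos_iff_of_pos_right (y0 _)]
  · have := (y0 j).ne'
    simp only [Lam_apply, (hm j).1, (hm j).2.1, (hm j).2.2]
    field_simp
    ring

end

end Pool.Agent.Lib.THU.CV
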