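import Pool.Agent.Lib.THU.CV.BDD
import Pool.Agent.Lib.THU.NB.PQM

/-!
The limit: algebra of decorations and the thick property of the limit map.
-/

namespace Pool.Agent.Lib.THU.CV

open Matrix OnePoint Filter Topology Pool.Agent.Lib.THU Pool.Agent.Lib.THU.NB AN

variable {G : Type} [Group G] {P : Type} [MulAction G P] {C : Cusp G P} {u : P → Fin 2 → ℂ}

theorem Dec.map (h : Dec C u) {A : Matrix (Fin 2) (Fin 2) ℂ} (hA : A.det = 1) :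
    Dec C fun p => A *ᵥ u p := by
  refine ⟨?_, ?_, fun a b => (h.par a b).imp fun μ k => ⟨k.1, ?_⟩⟩ <;>
    simp only [om_mulVec, hA, one_mul]
  exacts [h.low, h.inv, by rw [k.2, mulVec_smul, mulVec_add, mulVec_smul]]

theorem Dec.sc (h : Dec C u) (s : G) (a : P) : ∃ μ : P → ℂ, ∀ p q,
    om (u (s • C.c a • p)) (u (s • C.c a • q)) = μ p * μ q * om (u (s • p)) (u (s • q)) := by
  have e : ∀ p : P, s • C.c a • p = (s * C.c a * s⁻¹) • s • p := fun p => by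
    rw [mul_smul, inv_smul_smul, mul_smul]
  choose μ h1 h2 using h.par (s • a)
  have k : ∀ p q, om (u (C.c (s • a) • p)) (u (C.c (s • a) • q)) = μ p * μ q * om (u p) (u q) :=
    fun p q => by rw [h2, h2]; simp only [om, Pi.smul_apply, Pi.add_apply, smul_eq_mul]; ring
  simp only [e]
  rcases C.c_conj s a with h3 | h3 <;> rw [h3]
  · exact ⟨fun p => μ (s • p), fun p q => k _ _⟩
  · refine ⟨fun p => (μ ((C.c (s • a))⁻¹ • s • p))⁻¹, fun p q => ?_⟩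
    have := k ((C.c (s • a))⁻¹ • s • p) ((C.c (s • a))⁻¹ • s • q)
    have n : ∀ p, μ p ≠ 0 := fun p => norm_ne_zero_iff.1 (h1 p ▸ one_ne_zero)
    rw [smul_inv_smul, smul_inv_smul] at this
    rw [this]
    field_simp [n]

namespace LIM

lemma om_pt {x y : Fin 2 → ℂ} (hx : x 1 ≠ 0) (hy : y 1 ≠ 0) :
    om x y = x 1 * y 1 * (x 0 / x 1 - y 0 / y 1) := by
  rw [om]; field_simp

lemma pt_ext {x y : Fin 2 → ℂ} {h : ℂ ≃ₜ ℂ} (e : pt y = AN.ext h (pt x)) (hx : x 1 ≠ 0) :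
    y 1 ≠ 0 ∧ y 0 / y 1 = h (x 0 / x 1) := by
  simp only [pt, if_neg hx] at e
  split_ifs at e with c
  · exact absurd e (infty_ne_coe _)
  · exact ⟨c, coe_injective e⟩

lemma cre_of {x y : Fin 4 → Fin 2 → ℂ} {μ : Fin 4 → ℂ} (hx : ∀ i, x i 1 ≠ 0) (hy : ∀ i, y i 1 ≠ 0)
    (h : ∀ i j, om (y i) (y j) = μ i * μ j * om (x i) (x j)) :
    CRE (fun i => x i 0 / x i 1) fun i => y i 0 / y i 1 := by
  have k := fun i j => (om_pt (hy i) (hy j)).symm.trans ((h i j).trans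
    (congrArg _ (om_pt (hx i) (hx j))))
  refine mul_left_cancel₀ (mul_ne_zero (mul_ne_zero (hy 0) (hy 1)) (mul_ne_zero (hy 2) (hy 3))) ?_
  have a := congrArg₂ (· * ·) (k 0 1) (k 2 3)
  have b := congrArg₂ (· * ·) (k 0 2) (k 1 3)
  dsimp only at a b ⊢
  linear_combination ((x 0 0 / x 0 1 - x 2 0 / x 2 1) * (x 1 0 / x 1 1 - x 3 0 / x 3 1)) * a -
    ((x 0 0 / x 0 1 - x 1 0 / x 1 1) * (x 2 0 / x 2 1 - x 3 0 / x 3 1)) * b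

lemma lev {w w' : P → Fin 2 → ℂ} {h : ℂ ≃ₜ ℂ} (D : Dec C w) {a : P} {μ : P → ℂ}
    (sc : ∀ p q, om (w' (C.c a • p)) (w' (C.c a • q)) = μ p * μ q * om (w' p) (w' q))
    (e : ∀ p, pt (w' p) = AN.ext h (pt (w p))) {q : Fin 4 → P} {z : Fin 4 → ℂ}
    (hq : ∀ i, w (q i) 1 ≠ 0) (hz : ∀ i, z i = w (q i) 0 / w (q i) 1)
    (hd : ∀ i, 1 + (w a 0 - w a 1 * z i) * w a 1 ≠ 0) : CRE (fun i => h (z i)) fun i =>
      h ((z i + (w a 0 - w a 1 * z i) * w a 0) / (1 + (w a 0 - w a 1 * z i) * w a 1)) := by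
  have k : ∀ i, w (C.c a • q i) 1 ≠ 0 ∧ w (C.c a • q i) 0 / w (C.c a • q i) 1 =
      (z i + (w a 0 - w a 1 * z i) * w a 0) / (1 + (w a 0 - w a 1 * z i) * w a 1) := fun i => by
    obtain ⟨ν, h1, h2⟩ := D.par a (q i)
    have n := mul_ne_zero (norm_ne_zero_iff.1 (h1 ▸ one_ne_zero)) (hq i)
    have e0 : w (q i) 0 = w (q i) 1 * z i := by rw [hz, mul_div_cancel₀ _ (hq i)]
    have e1 : w (C.c a • q i) 1 = ν * w (q i) 1 * (1 + (w a 0 - w a 1 * z i) * w a 1) := by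
      simp only [h2, om, Pi.smul_apply, Pi.add_apply, smul_eq_mul, e0]; ring
    have e2 : w (C.c a • q i) 0 = ν * w (q i) 1 * (z i + (w a 0 - w a 1 * z i) * w a 0) := by
      simp only [h2, om, Pi.smul_apply, Pi.add_apply, smul_eq_mul, e0]; ring
    rw [e1, e2, mul_div_mul_left _ _ n]
    exact ⟨mul_ne_zero n (hd i), rfl⟩
  have := cre_of (fun i => (pt_ext (e _) (hq i)).1) (fun i => (pt_ext (e _) (k i).1).1)
    fun i j => sc (q i) (q j)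
  simpa only [(pt_ext (e _) (hq _)).2, (pt_ext (e _) (k _).1).2, (k _).2, ← hz] using this

lemma om_le (ξ : ℂ) (y y' : Fin 2 → ℂ) :
    ‖om y y'‖ ≤ ‖y 0 - ξ * y 1‖ * ‖y' 1‖ + ‖y 1‖ * ‖y' 0 - ξ * y' 1‖ := by
  rw [← norm_mul, ← norm_mul]
  exact (congrArg norm (by rw [om]; ring)).le.trans (norm_sub_le _ _)

lemma nrm_le {ξ : ℂ} {r B : ℝ} {y : Fin 2 → ℂ} (hr : 0 < r) :
    nrm ξ r y ≤ B ↔ ‖y 0 - ξ * y 1‖ ^ 2 + r ^ 2 * ‖y 1‖ ^ 2 ≤ B * r := div_le_iff₀ hr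

lemma nrm_mul (ξ : ℂ) {r : ℝ} (hr : 0 < r) (y y' : Fin 2 → ℂ) :
    ‖om y y'‖ ^ 2 ≤ nrm ξ r y * nrm ξ r y' := by
  refine (pow_le_pow_left₀ (norm_nonneg _) (om_le ξ y y') 2).trans ?_
  rw [nrm, nrm, div_mul_div_comm, le_div_iff₀ (by positivity)]
  nlinarith [sq_nonneg (‖y 0 - ξ * y 1‖ * ‖y' 0 - ξ * y' 1‖ - r ^ 2 * ‖y 1‖ * ‖y' 1‖)]

lemma big {ξ : ℂ} {r B : ℝ} (hr : 0 < r) {y y' : Fin 2 → ℂ} (h : 1 ≤ ‖om y y'‖)
    (h1 : nrm ξ r y ≤ B) (h2 : nrm ξ r y' ≤ B) :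
    1 ≤ 4 * B * (r * ‖y 1‖ ^ 2) ∨ 1 ≤ 4 * B * (r * ‖y' 1‖ ^ 2) := by
  rw [nrm_le hr] at h1 h2
  by_contra! c
  have k := pow_le_pow_left₀ zero_le_one (h.trans (om_le ξ y y')) 2
  nlinarith [sq_nonneg (‖y 0 - ξ * y 1‖ * ‖y' 1‖ - ‖y 1‖ * ‖y' 0 - ξ * y' 1‖),
    mul_le_mul_of_nonneg_right h1 (sq_nonneg ‖y' 1‖), sq_nonneg (r * ‖y 1‖ * ‖y' 1‖),
    mul_le_mul_of_nonneg_right h2 (sq_nonneg ‖y 1‖), c.1, c.2]

lemma nrm_lim {l : Filter ℕ} {f : ℕ → Fin 2 → ℂ} {y : Fin 2 → ℂ} (h : Tendsto f l (𝓝 y)) (ξ : ℂ)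
    (r : ℝ) : Tendsto (fun n => nrm ξ r (f n)) l (𝓝 (nrm ξ r y)) :=
  (Continuous.tendsto (by unfold nrm; fun_prop) y).comp h

lemma om_lim {l : Filter ℕ} {f g : ℕ → Fin 2 → ℂ} {x y : Fin 2 → ℂ} (h : Tendsto f l (𝓝 x))
    (k : Tendsto g l (𝓝 y)) : Tendsto (fun n => ‖om (f n) (g n)‖) l (𝓝 ‖om x y‖) :=
  (((tendsto_pi_nhds.1 h 0).mul (tendsto_pi_nhds.1 k 1)).sub
    ((tendsto_pi_nhds.1 h 1).mul (tendsto_pi_nhds.1 k 0))).norm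

lemma lim_bdd (U : Ultrafilter ℕ) {f : ℕ → Fin 2 → ℂ} {B B' : ℝ}
    (h : ∀ᶠ n in U, ‖f n 0‖ ≤ B ∧ ‖f n 1‖ ≤ B') : ∃ y, Tendsto f U (𝓝 y) := by
  obtain ⟨y, -, hy⟩ := (isCompact_closedBall (0 : Fin 2 → ℂ) (|B| + |B'|)).ultrafilter_le_nhds'
    (U.map f) (h.mono fun n hn => mem_closedBall_zero_iff.2 ((pi_norm_le_iff_of_nonneg
      (by positivity)).2 (Fin.forall_fin_two.2 ⟨by linarith [hn.1, le_abs_self B, abs_nonneg B'],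
        by linarith [hn.2, le_abs_self B', abs_nonneg B]⟩)))
  exact ⟨y, hy⟩

lemma lim_nrm (U : Ultrafilter ℕ) {f : ℕ → Fin 2 → ℂ} {ξ : ℂ} {r B : ℝ} (hr : 0 < r)
    (h : ∀ᶠ n in U, nrm ξ r (f n) ≤ B) : ∃ y, Tendsto f U (𝓝 y) := by
  refine lim_bdd U (B := 1 + B * r + ‖ξ‖ * (1 + B / r)) (B' := 1 + B / r) (h.mono fun n hn => ?_)
  rw [nrm_le hr] at hn
  have h1 : ‖f n 1‖ ^ 2 ≤ B / r := by
    rw [le_div_iff₀ hr]
    exact le_of_mul_le_mul_right (by nlinarith [sq_nonneg ‖f n 0 - ξ * f n 1‖]) hr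
  have h2 : ‖f n 1‖ ≤ 1 + B / r := by nlinarith
  have h3 := norm_le_norm_sub_add (f n 0) (ξ * f n 1)
  rw [norm_mul] at h3
  exact ⟨by nlinarith [sq_nonneg (r * ‖f n 1‖), sq_nonneg (‖f n 0 - ξ * f n 1‖ - 1),
    mul_le_mul_of_nonneg_left h2 (norm_nonneg ξ)], h2⟩

lemma diag [Nonempty P] {f : ℕ → P → ℝ} (h0 : ∀ n p, 0 ≤ f n p)
    (h : ∀ ε > 0, ∀ᶠ n in atTop, ∃ p, f n p < ε) :
    ∃ q : ℕ → P, ∀ ε > 0, ∀ᶠ n in atTop, f n (q n) < ε := by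
  choose q hq using fun n : ℕ => exists_lt_of_ciInf_lt
    (lt_add_of_pos_right (⨅ p, f n p) (Nat.one_div_pos_of_nat (n := n)))
  refine ⟨q, fun ε hε => ?_⟩
  filter_upwards [h _ (half_pos hε), tendsto_one_div_add_atTop_nhds_zero_nat.eventually
    (gt_mem_nhds (half_pos hε))] with n ⟨p, hp⟩ hn
  linarith [hq n, ciInf_le ⟨0, Set.forall_mem_range.2 (h0 n)⟩ p]

lemma appr [Nonempty P] {w : ℕ → P → Fin 2 → ℂ} {ξ : ℂ} (de : ∀ r : ℝ, 0 < r → ∀ᶠ n in atTop,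
    ∃ p, ‖w n p 0 - ξ * w n p 1‖ < 3 * r * ‖w n p 1‖) : ∃ q : ℕ → P,
    (∀ᶠ n in atTop, w n (q n) 1 ≠ 0) ∧
      Tendsto (fun n => w n (q n) 0 / w n (q n) 1) atTop (𝓝 ξ) := by
  classical
  obtain ⟨q, hq⟩ := diag (f := fun n p => if w n p 1 = 0 then 1 else dist (w n p 0 / w n p 1) ξ)
    (fun n p => by positivity) fun ε hε => (de (ε / 3) (by positivity)).mono fun n ⟨p, hp⟩ => by
      have c : w n p 1 ≠ 0 := fun c => by simp [c, (norm_nonneg _).not_gt] at hp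
      refine ⟨p, ?_⟩
      rw [if_neg c, dist_eq_norm, div_sub' c, norm_div, div_lt_iff₀ (norm_pos_iff.2 c), mul_comm]
      linarith
  have k := (hq 1 one_pos).mono fun n (h : ite _ _ _ < _) c => (if_pos c ▸ h :).false
  refine ⟨q, k, Metric.tendsto_nhds.2 fun ε hε => ?_⟩
  filter_upwards [k, hq ε hε] with n c h
  rwa [if_neg c] at h

end LIM

end Pool.Agent.Lib.THU.CV
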