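import Pool.Agent.Lib.THU.CV.Chain

/-!
Parity of the intersections of a segment with the faces of ideal simplices (cone model).
-/

namespace Pool.Agent.Lib.THU.CV

open Pool.Agent.Lib.THU.FA Module
open scoped Classical

section par
variable {ι V : Type} [Fintype ι] [AddCommGroup V] [Module ℝ V]

/-- feasible points -/
def Feas (w : ι → V) (b : V) (l : ι → ℝ) : Prop := (∀ i, 0 ≤ l i) ∧ ∑ i, l i • w i = b

lemma shoot {w : ι → V} {b : V} (hb : ∀ k, Feas w 0 k → k = 0) {l k : ι → ℝ} (hl : Feas w b l)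
    (hk : ∑ i, k i • w i = 0) (k0 : k ≠ 0) :
    ∃ (t : ℝ) (j : ι), 0 ≤ t ∧ k j < 0 ∧ Feas w b (l + t • k) ∧ l j + t * k j = 0 := by
  have hn : (Finset.univ.filter fun j => k j < 0).Nonempty := by
    by_contra h
    refine k0 (hb k ⟨fun i => not_lt.1 fun t => h ⟨i, by simpa using t⟩, hk⟩)
  obtain ⟨j, hj, hm⟩ := Finset.exists_min_image _ (fun j => l j / -k j) hn
  have hj' : k j < 0 := by simpa using hj
  have t0 : 0 ≤ l j / -k j := div_nonneg (hl.1 j) (by linarith)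
  refine ⟨l j / -k j, j, t0, hj', ⟨fun i => ?_, ?_⟩, ?_⟩
  · simp only [Pi.add_apply, Pi.smul_apply, smul_eq_mul]
    rcases lt_or_ge (k i) 0 with h | h
    · have := hm i (by simpa using h)
      rw [le_div_iff₀ (by linarith)] at this
      linarith
    · exact add_nonneg (hl.1 i) (mul_nonneg t0 h)
  · simp only [Pi.add_apply, Pi.smul_apply, smul_eq_mul, add_smul, mul_smul,
      Finset.sum_add_distrib, ← Finset.smul_sum, hk, hl.2, smul_zero, add_zero]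
  · have := hj'.ne
    field_simp
    ring

/-- a bounded simple polytope of dimension at most one has no or two facets -/
theorem par [FiniteDimensional ℝ V] (w : ι → V) (b : V) (hd : finrank ℝ V < Fintype.card ι)
    (hb : ∀ k, Feas w 0 k → k = 0)
    (h2 : ∀ l, Feas w b l → ∀ i j, i ≠ j → l i = 0 → l j ≠ 0) :
    ∑ i, (if ∃ l, Feas w b l ∧ l i = 0 then (1 : ZMod 2) else 0) = 0 := by
  by_cases h : ∃ i l, Feas w b l ∧ l i = 0
  swap
  · exact Finset.sum_eq_zero fun i _ => if_neg fun t => h ⟨i, t⟩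
  obtain ⟨i0, l0, hl0, z0⟩ := h
  have hA : ∀ k : ι → ℝ, ∑ i, k i • w i = 0 → k i0 = 0 → k = 0 := by
    intro k hk hk0
    by_contra hne
    obtain ⟨t, j, -, j0, hf, hz⟩ := shoot hb hl0 hk hne
    exact h2 _ hf i0 j (fun e => by rw [← e, hk0] at j0; exact lt_irrefl _ j0)
      (by simp [z0, hk0]) (by simpa using hz)
  obtain ⟨k, hk, k1⟩ : ∃ k : ι → ℝ, ∑ i, k i • w i = 0 ∧ k i0 = 1 := by
    have : ¬ LinearIndependent ℝ w := fun t => absurd t.fintype_card_le_finrank (by omega)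
    obtain ⟨k, hk, i, hi⟩ := Fintype.not_linearIndependent_iff.1 this
    have n0 : k i0 ≠ 0 := fun e => hi (congrFun (hA k hk e) i)
    refine ⟨(k i0)⁻¹ • k, ?_, by simp [n0]⟩
    simp only [Pi.smul_apply, smul_eq_mul, mul_smul, ← Finset.smul_sum, hk, smul_zero]
  obtain ⟨t, j0, t0, kj, hl1, z1⟩ := shoot hb hl0 hk (fun e => by simp [e] at k1)
  have ne : i0 ≠ j0 := fun e => by rw [← e, k1] at kj; linarith
  have key : ∀ i, (∃ l, Feas w b l ∧ l i = 0) ↔ i = i0 ∨ i = j0 := by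
    intro i
    constructor
    · rintro ⟨l, hl, hz⟩
      by_contra hc
      push Not at hc
      have e : l - l0 - l i0 • k = 0 := by
        refine hA _ ?_ (by simp [z0, k1])
        simp only [Pi.sub_apply, Pi.smul_apply, smul_eq_mul, sub_smul, mul_smul,
          Finset.sum_sub_distrib, ← Finset.smul_sum, hk, hl.2, hl0.2, smul_zero, sub_self]
      have e1 := congrFun e i
      have e2 := congrFun e j0
      simp only [Pi.sub_apply, Pi.smul_apply, smul_eq_mul, Pi.zero_apply] at e1 e2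
      have p0 : 0 < l0 i := (hl0.1 i).lt_of_ne' (h2 _ hl0 i0 i hc.1.symm z0)
      have p1 : 0 < l0 i + t * k i :=
        (hl1.1 i).lt_of_ne' (h2 _ hl1 j0 i hc.2.symm (by simpa using z1))
      have s0 := hl.1 i0
      have s1 := hl.1 j0
      have s2 : l i0 ≤ t := by nlinarith
      have s3 : k i < 0 := by nlinarith
      nlinarith
    · rintro (rfl | rfl)
      · exact ⟨l0, hl0, z0⟩
      · exact ⟨_, hl1, by simpa using z1⟩
  simp only [key]
  rw [Finset.sum_ite, Finset.sum_const_zero, add_zero, Finset.sum_const]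
  have : (Finset.univ.filter fun i => i = i0 ∨ i = j0) = {i0, j0} := by
    ext i
    simp
  rw [this, Finset.card_pair ne, two_nsmul, two]

end par

section geo
variable {W : Type} [AddCommGroup W] [Module ℝ W]

/-- cone on two vectors -/
def C2 (a b : W) : Set W := {x | ∃ p q : ℝ, 0 ≤ p ∧ 0 ≤ q ∧ x = p • a + q • b}

/-- cone on three vectors -/
def C3 (a b c : W) : Set W :=
  {x | ∃ p q r : ℝ, 0 ≤ p ∧ 0 ≤ q ∧ 0 ≤ r ∧ x = p • a + q • b + r • c}

/-- cone on four vectors -/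
def C4 (a b c e : W) : Set W :=
  {x | ∃ p q r s : ℝ, 0 ≤ p ∧ 0 ≤ q ∧ 0 ≤ r ∧ 0 ≤ s ∧ x = p • a + q • b + r • c + s • e}

/-- segment -/
def S2 (X Y : W) : Set W := {x | ∃ p q : ℝ, 0 ≤ p ∧ 0 ≤ q ∧ p + q = 1 ∧ x = p • X + q • Y}

/-- triangle -/
def S3 (X Y Z : W) : Set W :=
  {x | ∃ p q r : ℝ, 0 ≤ p ∧ 0 ≤ q ∧ 0 ≤ r ∧ p + q + r = 1 ∧ x = p • X + q • Y + r • Z}

/-- truth value modulo two -/
noncomputable def tv (p : Prop) : ZMod 2 := if p then 1 else 0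

/-- the segment `X Y` meets the triangle `a b c` -/
noncomputable def II (X Y a b c : W) : ZMod 2 := tv (S2 X Y ∩ C3 a b c).Nonempty

lemma tv_congr {p q : Prop} (h : p ↔ q) : tv p = tv q := by rw [propext h]

lemma tv_neg {p : Prop} (h : ¬ p) : tv p = 0 := if_neg h

lemma tv_pos {p : Prop} (h : p) : tv p = 1 := if_pos h

lemma tv_ne {p : Prop} (h : tv p ≠ 0) : p := by
  by_contra t
  exact h (tv_neg t)

lemma C3_s1 (a b c : W) : C3 a b c = C3 b a c := by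
  ext x
  constructor <;> rintro ⟨p, q, r, h1, h2, h3, rfl⟩ <;> exact ⟨q, p, r, h2, h1, h3, by module⟩

lemma C3_s2 (a b c : W) : C3 a b c = C3 a c b := by
  ext x
  constructor <;> rintro ⟨p, q, r, h1, h2, h3, rfl⟩ <;> exact ⟨p, r, q, h1, h3, h2, by module⟩

lemma C3_dg (a b : W) : C3 a a b ⊆ C2 a b := by
  rintro _ ⟨p, q, r, h1, h2, h3, rfl⟩
  exact ⟨p + q, r, add_nonneg h1 h2, h3, by module⟩

lemma C2_sub (a b c : W) : C2 a b ⊆ C3 a b c := by
  rintro _ ⟨p, q, h1, h2, rfl⟩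
  exact ⟨p, q, 0, h1, h2, le_rfl, by module⟩

lemma C2_symm (a b : W) : C2 a b = C2 b a := by
  ext x
  constructor <;> rintro ⟨p, q, h1, h2, rfl⟩ <;> exact ⟨q, p, h2, h1, by module⟩

lemma S2_sub1 (X Y Z : W) : S2 X Y ⊆ S3 X Y Z := by
  rintro _ ⟨p, q, h1, h2, h3, rfl⟩
  exact ⟨p, q, 0, h1, h2, le_rfl, by linarith, by module⟩

lemma S2_sub2 (X Y Z : W) : S2 X Z ⊆ S3 X Y Z := by
  rintro _ ⟨p, q, h1, h2, h3, rfl⟩
  exact ⟨p, 0, q, h1, le_rfl, h2, by linarith, by module⟩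

variable [FiniteDimensional ℝ W]

/-- a segment and the four faces of a tetrahedron -/
theorem par1 (h4 : finrank ℝ W = 4) (lam : W →ₗ[ℝ] ℝ) (V : P → W) (hl : ∀ a, 0 < lam (V a))
    {X Y : W} (gX : ∀ a b c, X ∉ C3 (V a) (V b) (V c)) (gY : ∀ a b c, Y ∉ C3 (V a) (V b) (V c))
    (gXY : ∀ a b, ∀ x ∈ S2 X Y, x ∉ C2 (V a) (V b)) (a b c e : P) :
    II X Y (V a) (V b) (V c) + II X Y (V a) (V b) (V e) + II X Y (V a) (V c) (V e) +
      II X Y (V b) (V c) (V e) =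
    tv (X ∈ C4 (V a) (V b) (V c) (V e)) + tv (Y ∈ C4 (V a) (V b) (V c) (V e)) := by
  let w : Fin 6 → W × ℝ := ![(X, 1), (Y, 1), (-V a, 0), (-V b, 0), (-V c, 0), (-V e, 0)]
  have fe : ∀ (u : ℝ) (l : Fin 6 → ℝ), Feas w (0, u) l ↔ (∀ i, 0 ≤ l i) ∧ l 0 + l 1 = u ∧
      l 0 • X + l 1 • Y = l 2 • V a + l 3 • V b + l 4 • V c + l 5 • V e := by
    intro u l
    simp only [Feas, Fin.sum_univ_six, w, Prod.ext_iff]
    simp
    intro _
    constructor
    · rintro ⟨h1, h2⟩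
      exact ⟨h2, by linear_combination (norm := module) h1⟩
    · rintro ⟨h1, h2⟩
      exact ⟨by linear_combination (norm := module) h2, h1⟩
  have all : ∀ p q r s u v : ℝ, 0 ≤ p → 0 ≤ q → 0 ≤ r → 0 ≤ s → 0 ≤ u → 0 ≤ v →
      ∀ i, 0 ≤ (![p, q, r, s, u, v] : Fin 6 → ℝ) i := by
    intro p q r s u v _ _ _ _ _ _ i
    fin_cases i <;> simpa
  have := par w (0, 1) (by simp [h4]) ?_ ?_
  · simp only [Fin.sum_univ_six, fe] at this
    have e0 : (∃ l : Fin 6 → ℝ, ((∀ i, 0 ≤ l i) ∧ l 0 + l 1 = 1 ∧ l 0 • X + l 1 • Y =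
        l 2 • V a + l 3 • V b + l 4 • V c + l 5 • V e) ∧ l 0 = 0) ↔
        Y ∈ C4 (V a) (V b) (V c) (V e) := by
      constructor
      · rintro ⟨l, ⟨h1, h2, h3⟩, h4⟩
        rw [h4, zero_add] at h2
        exact ⟨_, _, _, _, h1 2, h1 3, h1 4, h1 5, by rw [← h3, h2, h4]; module⟩
      · rintro ⟨p, q, r, s, h1, h2, h3, h4, h⟩
        exact ⟨![0, 1, p, q, r, s], ⟨all _ _ _ _ _ _ le_rfl zero_le_one h1 h2 h3 h4, by simp,
          by simpa using h⟩, rfl⟩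
    have e1 : (∃ l : Fin 6 → ℝ, ((∀ i, 0 ≤ l i) ∧ l 0 + l 1 = 1 ∧ l 0 • X + l 1 • Y =
        l 2 • V a + l 3 • V b + l 4 • V c + l 5 • V e) ∧ l 1 = 0) ↔
        X ∈ C4 (V a) (V b) (V c) (V e) := by
      constructor
      · rintro ⟨l, ⟨h1, h2, h3⟩, h4⟩
        rw [h4, add_zero] at h2
        exact ⟨_, _, _, _, h1 2, h1 3, h1 4, h1 5, by rw [← h3, h2, h4]; module⟩
      · rintro ⟨p, q, r, s, h1, h2, h3, h4, h⟩
        exact ⟨![1, 0, p, q, r, s], ⟨all _ _ _ _ _ _ zero_le_one le_rfl h1 h2 h3 h4, by simp,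
          by simpa using h⟩, rfl⟩
    have e2 : (∃ l : Fin 6 → ℝ, ((∀ i, 0 ≤ l i) ∧ l 0 + l 1 = 1 ∧ l 0 • X + l 1 • Y =
        l 2 • V a + l 3 • V b + l 4 • V c + l 5 • V e) ∧ l 2 = 0) ↔
        (S2 X Y ∩ C3 (V b) (V c) (V e)).Nonempty := by
      constructor
      · rintro ⟨l, ⟨h1, h2, h3⟩, h4⟩
        exact ⟨_, ⟨_, _, h1 0, h1 1, h2, rfl⟩, _, _, _, h1 3, h1 4, h1 5, by rw [h3, h4]; module⟩
      · rintro ⟨_, ⟨u, v, k1, k2, k3, rfl⟩, p, q, r, h1, h2, h3, h⟩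
        exact ⟨![u, v, 0, p, q, r], ⟨all _ _ _ _ _ _ k1 k2 le_rfl h1 h2 h3, k3,
          by simpa using h⟩, rfl⟩
    have e3 : (∃ l : Fin 6 → ℝ, ((∀ i, 0 ≤ l i) ∧ l 0 + l 1 = 1 ∧ l 0 • X + l 1 • Y =
        l 2 • V a + l 3 • V b + l 4 • V c + l 5 • V e) ∧ l 3 = 0) ↔
        (S2 X Y ∩ C3 (V a) (V c) (V e)).Nonempty := by
      constructor
      · rintro ⟨l, ⟨h1, h2, h3⟩, h4⟩
        exact ⟨_, ⟨_, _, h1 0, h1 1, h2, rfl⟩, _, _, _, h1 2, h1 4, h1 5, by rw [h3, h4]; module⟩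
      · rintro ⟨_, ⟨u, v, k1, k2, k3, rfl⟩, p, q, r, h1, h2, h3, h⟩
        exact ⟨![u, v, p, 0, q, r], ⟨all _ _ _ _ _ _ k1 k2 h1 le_rfl h2 h3, k3,
          by simpa using h⟩, rfl⟩
    have e4 : (∃ l : Fin 6 → ℝ, ((∀ i, 0 ≤ l i) ∧ l 0 + l 1 = 1 ∧ l 0 • X + l 1 • Y =
        l 2 • V a + l 3 • V b + l 4 • V c + l 5 • V e) ∧ l 4 = 0) ↔
        (S2 X Y ∩ C3 (V a) (V b) (V e)).Nonempty := by
      constructor
      · rintro ⟨l, ⟨h1, h2, h3⟩, h4⟩
        exact ⟨_, ⟨_, _, h1 0, h1 1, h2, rfl⟩, _, _, _, h1 2, h1 3, h1 5, by rw [h3, h4]; module⟩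
      · rintro ⟨_, ⟨u, v, k1, k2, k3, rfl⟩, p, q, r, h1, h2, h3, h⟩
        exact ⟨![u, v, p, q, 0, r], ⟨all _ _ _ _ _ _ k1 k2 h1 h2 le_rfl h3, k3,
          by simpa using h⟩, rfl⟩
    have e5 : (∃ l : Fin 6 → ℝ, ((∀ i, 0 ≤ l i) ∧ l 0 + l 1 = 1 ∧ l 0 • X + l 1 • Y =
        l 2 • V a + l 3 • V b + l 4 • V c + l 5 • V e) ∧ l 5 = 0) ↔
        (S2 X Y ∩ C3 (V a) (V b) (V c)).Nonempty := by
      constructor
      · rintro ⟨l, ⟨h1, h2, h3⟩, h4⟩
        exact ⟨_, ⟨_, _, h1 0, h1 1, h2, rfl⟩, _, _, _, h1 2, h1 3, h1 4, by rw [h3, h4]; module⟩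
      · rintro ⟨_, ⟨u, v, k1, k2, k3, rfl⟩, p, q, r, h1, h2, h3, h⟩
        exact ⟨![u, v, p, q, r, 0], ⟨all _ _ _ _ _ _ k1 k2 h1 h2 h3 le_rfl, k3,
          by simpa using h⟩, rfl⟩
    simp only [e0, e1, e2, e3, e4, e5] at this
    have t1 := two (tv (X ∈ C4 (V a) (V b) (V c) (V e)))
    have t2 := two (tv (Y ∈ C4 (V a) (V b) (V c) (V e)))
    simp only [II, tv] at t1 t2 ⊢
    linear_combination this - t1 - t2
  · intro k hk
    obtain ⟨h1, h2, h3⟩ := (fe 0 k).1 hk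
    have a0 := h1 0
    have a1 := h1 1
    have z0 : k 0 = 0 := by linarith
    have z1 : k 1 = 0 := by linarith
    have h5 := congrArg lam h3
    simp only [z0, z1, zero_smul, add_zero, map_zero, map_add, map_smul, smul_eq_mul] at h5
    have b2 := mul_nonneg (h1 2) (hl a).le
    have b3 := mul_nonneg (h1 3) (hl b).le
    have b4 := mul_nonneg (h1 4) (hl c).le
    have b5 := mul_nonneg (h1 5) (hl e).le
    have z : ∀ {x y : ℝ}, 0 < y → x * y = 0 → x = 0 := fun h k =>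
      (mul_eq_zero.1 k).resolve_right h.ne'
    have z2 : k 2 = 0 := z (hl a) (by linarith)
    have z3 : k 3 = 0 := z (hl b) (by linarith)
    have z4 : k 4 = 0 := z (hl c) (by linarith)
    have z5 : k 5 = 0 := z (hl e) (by linarith)
    funext i
    fin_cases i
    exacts [z0, z1, z2, z3, z4, z5]
  · intro l hk
    obtain ⟨h1, h2, h3⟩ := (fe 1 l).1 hk
    have m : l 0 • X + l 1 • Y ∈ S2 X Y := ⟨_, _, h1 0, h1 1, h2, rfl⟩
    have y0 : l 0 = 0 → Y = l 2 • V a + l 3 • V b + l 4 • V c + l 5 • V e := fun h => by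
      rw [h, zero_add] at h2
      rw [← h3, h, h2]; module
    have x0 : l 1 = 0 → X = l 2 • V a + l 3 • V b + l 4 • V c + l 5 • V e := fun h => by
      rw [h, add_zero] at h2
      rw [← h3, h, h2]; module
    have key : ∀ i j : Fin 6, i < j → l i = 0 → l j = 0 → False := by
      intro i j hij hi hj
      fin_cases i <;> fin_cases j <;> simp at hij hi hj
      · linarith
      · exact gY b c e ⟨_, _, _, h1 3, h1 4, h1 5, by rw [y0 hi, hj]; module⟩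
      · exact gY a c e ⟨_, _, _, h1 2, h1 4, h1 5, by rw [y0 hi, hj]; module⟩
      · exact gY a b e ⟨_, _, _, h1 2, h1 3, h1 5, by rw [y0 hi, hj]; module⟩
      · exact gY a b c ⟨_, _, _, h1 2, h1 3, h1 4, by rw [y0 hi, hj]; module⟩
      · exact gX b c e ⟨_, _, _, h1 3, h1 4, h1 5, by rw [x0 hi, hj]; module⟩
      · exact gX a c e ⟨_, _, _, h1 2, h1 4, h1 5, by rw [x0 hi, hj]; module⟩
      · exact gX a b e ⟨_, _, _, h1 2, h1 3, h1 5, by rw [x0 hi, hj]; module⟩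
      · exact gX a b c ⟨_, _, _, h1 2, h1 3, h1 4, by rw [x0 hi, hj]; module⟩
      · exact gXY c e _ m ⟨_, _, h1 4, h1 5, by rw [h3, hi, hj]; module⟩
      · exact gXY b e _ m ⟨_, _, h1 3, h1 5, by rw [h3, hi, hj]; module⟩
      · exact gXY b c _ m ⟨_, _, h1 3, h1 4, by rw [h3, hi, hj]; module⟩
      · exact gXY a e _ m ⟨_, _, h1 2, h1 5, by rw [h3, hi, hj]; module⟩
      · exact gXY a c _ m ⟨_, _, h1 2, h1 4, by rw [h3, hi, hj]; module⟩
      · exact gXY a b _ m ⟨_, _, h1 2, h1 3, by rw [h3, hi, hj]; module⟩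
    intro i j hij hi hj
    rcases lt_or_gt_of_ne hij with t | t
    exacts [key i j t hi hj, key j i t hj hi]

/-- a triangle of points and an ideal triangle -/
theorem par2 (h4 : finrank ℝ W = 4) (lam : W →ₗ[ℝ] ℝ) {O X Y a b c : W} (la : 0 < lam a)
    (lb : 0 < lam b) (lc : 0 < lam c) (gO : O ∉ C3 a b c)
    (gX : ∀ x ∈ S2 O X, x ∉ C2 a b ∧ x ∉ C2 b c ∧ x ∉ C2 c a)
    (gY : ∀ x ∈ S2 O Y, x ∉ C2 a b ∧ x ∉ C2 b c ∧ x ∉ C2 c a)
    (gXY : ∀ x ∈ S2 X Y, x ∉ C3 a b c)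
    (gr : ∀ p : ℝ, 0 ≤ p → p • a ∉ S3 O X Y ∧ p • b ∉ S3 O X Y ∧ p • c ∉ S3 O X Y) :
    II O X a b c + II O Y a b c = tv (S3 O X Y ∩ C2 a b).Nonempty +
      tv (S3 O X Y ∩ C2 b c).Nonempty + tv (S3 O X Y ∩ C2 c a).Nonempty := by
  let w : Fin 6 → W × ℝ := ![(O, 1), (X, 1), (Y, 1), (-a, 0), (-b, 0), (-c, 0)]
  have fe : ∀ (u : ℝ) (l : Fin 6 → ℝ), Feas w (0, u) l ↔ (∀ i, 0 ≤ l i) ∧ l 0 + l 1 + l 2 = u ∧
      l 0 • O + l 1 • X + l 2 • Y = l 3 • a + l 4 • b + l 5 • c := by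
    intro u l
    simp only [Feas, Fin.sum_univ_six, w, Prod.ext_iff]
    simp
    intro _
    constructor
    · rintro ⟨h1, h2⟩
      exact ⟨h2, by linear_combination (norm := module) h1⟩
    · rintro ⟨h1, h2⟩
      exact ⟨by linear_combination (norm := module) h2, h1⟩
  have all : ∀ p q r s u v : ℝ, 0 ≤ p → 0 ≤ q → 0 ≤ r → 0 ≤ s → 0 ≤ u → 0 ≤ v →
      ∀ i, 0 ≤ (![p, q, r, s, u, v] : Fin 6 → ℝ) i := by
    intro p q r s u v _ _ _ _ _ _ i
    fin_cases i <;> simpa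
  have n0 : ∀ l : Fin 6 → ℝ, (∀ i, 0 ≤ l i) → l 0 + l 1 + l 2 = 1 →
      l 0 • O + l 1 • X + l 2 • Y = l 3 • a + l 4 • b + l 5 • c → l 0 ≠ 0 := by
    intro l h1 h2 h3 h
    exact gXY _ ⟨_, _, h1 1, h1 2, by linarith, rfl⟩
      ⟨_, _, _, h1 3, h1 4, h1 5, by rw [← h3, h]; module⟩
  have := par w (0, 1) (by simp [h4]) ?_ ?_
  · simp only [Fin.sum_univ_six, fe] at this
    have e0 : (∃ l : Fin 6 → ℝ, ((∀ i, 0 ≤ l i) ∧ l 0 + l 1 + l 2 = 1 ∧
        l 0 • O + l 1 • X + l 2 • Y = l 3 • a + l 4 • b + l 5 • c) ∧ l 0 = 0) ↔ False :=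
      ⟨fun ⟨l, ⟨h1, h2, h3⟩, h4⟩ => n0 l h1 h2 h3 h4, False.elim⟩
    have e1 : (∃ l : Fin 6 → ℝ, ((∀ i, 0 ≤ l i) ∧ l 0 + l 1 + l 2 = 1 ∧
        l 0 • O + l 1 • X + l 2 • Y = l 3 • a + l 4 • b + l 5 • c) ∧ l 1 = 0) ↔
        (S2 O Y ∩ C3 a b c).Nonempty := by
      constructor
      · rintro ⟨l, ⟨h1, h2, h3⟩, h4⟩
        exact ⟨_, ⟨_, _, h1 0, h1 2, by linarith, rfl⟩, _, _, _, h1 3, h1 4, h1 5,
          by rw [← h3, h4]; module⟩
      · rintro ⟨_, ⟨u, v, k1, k2, k3, rfl⟩, p, q, r, h1, h2, h3, h⟩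
        exact ⟨![u, 0, v, p, q, r], ⟨all _ _ _ _ _ _ k1 le_rfl k2 h1 h2 h3, by simpa using k3,
          by simpa using h⟩, rfl⟩
    have e2 : (∃ l : Fin 6 → ℝ, ((∀ i, 0 ≤ l i) ∧ l 0 + l 1 + l 2 = 1 ∧
        l 0 • O + l 1 • X + l 2 • Y = l 3 • a + l 4 • b + l 5 • c) ∧ l 2 = 0) ↔
        (S2 O X ∩ C3 a b c).Nonempty := by
      constructor
      · rintro ⟨l, ⟨h1, h2, h3⟩, h4⟩
        exact ⟨_, ⟨_, _, h1 0, h1 1, by linarith, rfl⟩, _, _, _, h1 3, h1 4, h1 5,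
          by rw [← h3, h4]; module⟩
      · rintro ⟨_, ⟨u, v, k1, k2, k3, rfl⟩, p, q, r, h1, h2, h3, h⟩
        exact ⟨![u, v, 0, p, q, r], ⟨all _ _ _ _ _ _ k1 k2 le_rfl h1 h2 h3, by simpa using k3,
          by simpa using h⟩, rfl⟩
    have e3 : (∃ l : Fin 6 → ℝ, ((∀ i, 0 ≤ l i) ∧ l 0 + l 1 + l 2 = 1 ∧
        l 0 • O + l 1 • X + l 2 • Y = l 3 • a + l 4 • b + l 5 • c) ∧ l 3 = 0) ↔
        (S3 O X Y ∩ C2 b c).Nonempty := by
      constructor
      · rintro ⟨l, ⟨h1, h2, h3⟩, h4⟩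
        exact ⟨_, ⟨_, _, _, h1 0, h1 1, h1 2, h2, rfl⟩, _, _, h1 4, h1 5, by rw [h3, h4]; module⟩
      · rintro ⟨_, ⟨u, v, z, k1, k2, k3, k4, rfl⟩, p, q, h1, h2, h⟩
        exact ⟨![u, v, z, 0, p, q], ⟨all _ _ _ _ _ _ k1 k2 k3 le_rfl h1 h2, k4,
          by simpa using h⟩, rfl⟩
    have e4 : (∃ l : Fin 6 → ℝ, ((∀ i, 0 ≤ l i) ∧ l 0 + l 1 + l 2 = 1 ∧
        l 0 • O + l 1 • X + l 2 • Y = l 3 • a + l 4 • b + l 5 • c) ∧ l 4 = 0) ↔
        (S3 O X Y ∩ C2 c a).Nonempty := by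
      constructor
      · rintro ⟨l, ⟨h1, h2, h3⟩, h4⟩
        exact ⟨_, ⟨_, _, _, h1 0, h1 1, h1 2, h2, rfl⟩, _, _, h1 5, h1 3, by rw [h3, h4]; module⟩
      · rintro ⟨_, ⟨u, v, z, k1, k2, k3, k4, rfl⟩, p, q, h1, h2, h⟩
        exact ⟨![u, v, z, q, 0, p], ⟨all _ _ _ _ _ _ k1 k2 k3 h2 le_rfl h1, k4,
          by simpa [add_comm] using h⟩, rfl⟩
    have e5 : (∃ l : Fin 6 → ℝ, ((∀ i, 0 ≤ l i) ∧ l 0 + l 1 + l 2 = 1 ∧
        l 0 • O + l 1 • X + l 2 • Y = l 3 • a + l 4 • b + l 5 • c) ∧ l 5 = 0) ↔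
        (S3 O X Y ∩ C2 a b).Nonempty := by
      constructor
      · rintro ⟨l, ⟨h1, h2, h3⟩, h4⟩
        exact ⟨_, ⟨_, _, _, h1 0, h1 1, h1 2, h2, rfl⟩, _, _, h1 3, h1 4, by rw [h3, h4]; module⟩
      · rintro ⟨_, ⟨u, v, z, k1, k2, k3, k4, rfl⟩, p, q, h1, h2, h⟩
        exact ⟨![u, v, z, p, q, 0], ⟨all _ _ _ _ _ _ k1 k2 k3 h1 h2 le_rfl, k4,
          by simpa using h⟩, rfl⟩
    simp only [e0, e1, e2, e3, e4, e5, if_false] at this
    have t1 := two (tv (S3 O X Y ∩ C2 a b).Nonempty)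
    have t2 := two (tv (S3 O X Y ∩ C2 b c).Nonempty)
    have t3 := two (tv (S3 O X Y ∩ C2 c a).Nonempty)
    simp only [II, tv] at t1 t2 t3 ⊢
    linear_combination this - t1 - t2 - t3
  · intro k hk
    obtain ⟨h1, h2, h3⟩ := (fe 0 k).1 hk
    have a0 := h1 0
    have a1 := h1 1
    have a2 := h1 2
    have z0 : k 0 = 0 := by linarith
    have z1 : k 1 = 0 := by linarith
    have z2 : k 2 = 0 := by linarith
    have h5 := congrArg lam h3
    simp only [z0, z1, z2, zero_smul, add_zero, map_zero, map_add, map_smul, smul_eq_mul] at h5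
    have b3 := mul_nonneg (h1 3) la.le
    have b4 := mul_nonneg (h1 4) lb.le
    have b5 := mul_nonneg (h1 5) lc.le
    have z : ∀ {x y : ℝ}, 0 < y → x * y = 0 → x = 0 := fun h k =>
      (mul_eq_zero.1 k).resolve_right h.ne'
    have z3 : k 3 = 0 := z la (by linarith)
    have z4 : k 4 = 0 := z lb (by linarith)
    have z5 : k 5 = 0 := z lc (by linarith)
    funext i
    fin_cases i
    exacts [z0, z1, z2, z3, z4, z5]
  · intro l hk
    obtain ⟨h1, h2, h3⟩ := (fe 1 l).1 hk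
    have m : l 0 • O + l 1 • X + l 2 • Y ∈ S3 O X Y := ⟨_, _, _, h1 0, h1 1, h1 2, h2, rfl⟩
    have y0 : l 1 = 0 → l 3 • a + l 4 • b + l 5 • c ∈ S2 O Y := fun h =>
      ⟨_, _, h1 0, h1 2, by linarith, by rw [← h3, h]; module⟩
    have x0 : l 2 = 0 → l 3 • a + l 4 • b + l 5 • c ∈ S2 O X := fun h =>
      ⟨_, _, h1 0, h1 1, by linarith, by rw [← h3, h]; module⟩
    have key : ∀ i j : Fin 6, i < j → l i = 0 → l j = 0 → False := by
      intro i j hij hi hj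
      fin_cases i <;> fin_cases j <;> simp at hij hi hj
      iterate 5 exact n0 l h1 h2 h3 hi
      · have : l 0 = 1 := by linarith
        exact gO ⟨_, _, _, h1 3, h1 4, h1 5, by rw [← h3, hi, hj, this]; module⟩
      · exact (gY _ (y0 hi)).2.1 ⟨_, _, h1 4, h1 5, by rw [hj]; module⟩
      · exact (gY _ (y0 hi)).2.2 ⟨_, _, h1 5, h1 3, by rw [hj]; module⟩
      · exact (gY _ (y0 hi)).1 ⟨_, _, h1 3, h1 4, by rw [hj]; module⟩
      · exact (gX _ (x0 hi)).2.1 ⟨_, _, h1 4, h1 5, by rw [hj]; module⟩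
      · exact (gX _ (x0 hi)).2.2 ⟨_, _, h1 5, h1 3, by rw [hj]; module⟩
      · exact (gX _ (x0 hi)).1 ⟨_, _, h1 3, h1 4, by rw [hj]; module⟩
      · exact (gr _ (h1 5)).2.2 (by rw [h3, hi, hj] at m; simpa using m)
      · exact (gr _ (h1 4)).2.1 (by rw [h3, hi, hj] at m; simpa using m)
      · exact (gr _ (h1 3)).1 (by rw [h3, hi, hj] at m; simpa using m)
    intro i j hij hi hj
    rcases lt_or_gt_of_ne hij with t | t
    exacts [key i j t hi hj, key j i t hj hi]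

/-- `X` lies on no ideal triangle and the segment from `O` to `X` meets no ideal edge -/
structure Gen (V : P → W) (O X : W) : Prop where
  pt : ∀ a b c, X ∉ C3 (V a) (V b) (V c)
  sg : ∀ a b, ∀ x ∈ S2 O X, x ∉ C2 (V a) (V b)

omit [FiniteDimensional ℝ W] in
lemma Gen.comp {V : P → W} {O X : W} (h : Gen V O X) (s : P → P) : Gen (fun a => V (s a)) O X :=
  ⟨fun _ _ _ => h.pt _ _ _, fun _ _ => h.sg _ _⟩

/-- `X` lies in no tetrahedron of complexity at most `M` -/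
def Out (M : ℤ) (V : P → W) (X : W) : Prop := ∀ a b c e, |D a b| ≤ M → |D a c| ≤ M →
  |D a e| ≤ M → |D b c| ≤ M → |D b e| ≤ M → |D c e| ≤ M → X ∉ C4 (V a) (V b) (V c) (V e)

/-- finitely many triangles of complexity at most `M` meet `K` -/
def LF (M : ℤ) (V : P → W) (K : Set W) : Prop :=
  {x : P × P × P | |D x.1 x.2.1| ≤ M ∧ |D x.1 x.2.2| ≤ M ∧ |D x.2.1 x.2.2| ≤ M ∧
    (K ∩ C3 (V x.1) (V x.2.1) (V x.2.2)).Nonempty}.Finite

/-- parity of the number of Farey triangles met by the segment from `O` to `X` -/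
noncomputable def sP (V : P → W) (O X : W) : ZMod 2 :=
  ∑ᶠ x : FP, II O X (V x.1.1) (V x.1.2) (V (apex x.1.1 x.1.2))

theorem coc_II (h4 : finrank ℝ W = 4) (lam : W →ₗ[ℝ] ℝ) (V : P → W) (hl : ∀ a, 0 < lam (V a))
    {O X : W} {M : ℤ} (gO : ∀ a b c, O ∉ C3 (V a) (V b) (V c)) (gX : Gen V O X)
    (oO : Out M V O) (oX : Out M V X) (fin : LF M V (S2 O X)) :
    Coc M (fun a b c => II O X (V a) (V b) (V c)) where
  s1 a b c := by simp only [II, C3_s1 (V a)]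
  s2 a b c := by simp only [II, C3_s2 (V a) (V b)]
  dg a b := tv_neg fun ⟨x, h1, h2⟩ => gX.sg a b x h1 (C3_dg _ _ h2)
  coc a b c e h1 h2 h3 h4' h5 h6 := by
    rw [par1 h4 lam V hl gO gX.pt gX.sg, tv_neg (oO _ _ _ _ h1 h2 h3 h4' h5 h6),
      tv_neg (oX _ _ _ _ h1 h2 h3 h4' h5 h6), add_zero]
  fin := fin.subset fun _ hx => ⟨hx.1, hx.2.1, hx.2.2.1, tv_ne hx.2.2.2⟩

lemma Coc.add {M : ℤ} {f g : P → P → P → ZMod 2} (hf : Coc M f) (hg : Coc M g) :
    Coc M (fun a b c => f a b c + g a b c) where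
  s1 a b c := by rw [hf.s1, hg.s1]
  s2 a b c := by rw [hf.s2, hg.s2]
  dg a b := by rw [hf.dg, hg.dg, add_zero]
  coc a b c e h1 h2 h3 h4 h5 h6 := by
    linear_combination hf.coc a b c e h1 h2 h3 h4 h5 h6 + hg.coc a b c e h1 h2 h3 h4 h5 h6
  fin := (hf.fin.union hg.fin).subset fun x hx => by
    by_cases h : f x.1 x.2.1 x.2.2 = 0
    · exact Or.inr ⟨hx.1, hx.2.1, hx.2.2.1, by simpa [h] using hx.2.2.2⟩
    · exact Or.inl ⟨hx.1, hx.2.1, hx.2.2.1, h⟩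

lemma Coc.supp {M M0 : ℤ} {f : P → P → P → ZMod 2} (hf : Coc M f) {s : P → P}
    (hs : Function.Injective s) (hb : ∀ a b, |D a b| = 1 → |D (s a) (s b)| ≤ M0) (h : M0 ≤ M) :
    (Function.support fun x : FP => f (s x.1.1) (s x.1.2) (s (apex x.1.1 x.1.2))).Finite := by
  refine (hf.fin.preimage
    (f := fun x : FP => (s x.1.1, s x.1.2, s (apex x.1.1 x.1.2))) ?_).subset
    fun x hx => ⟨(hb _ _ x.2).trans h, ?_, (hb _ _ (apex_r x.2)).trans h, hx⟩
  · intro x _ y _ h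
    simp only [Prod.mk.injEq] at h
    exact Subtype.ext (Prod.ext (hs h.1) (hs h.2.1))
  · exact ((ab_symm _ _).trans_le (hb _ _ (apex_l x.2))).trans h

/-- a point outside all tetrahedra is on the same side of two consecutive levels -/
theorem level_eq (h4 : finrank ℝ W = 4) (lam : W →ₗ[ℝ] ℝ) (V : P → W) (hl : ∀ a, 0 < lam (V a))
    (M0 : ℤ) (s : P → P) (hs : Function.Injective s)
    (hb : ∀ a b, |D a b| = 1 → |D (s a) (s b)| ≤ M0) {O X Y : W}
    (gO : ∀ a b c, O ∉ C3 (V a) (V b) (V c)) (gX : Gen V O X) (gY : Gen V O Y)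
    (oO : Out (M0 ^ 2 + M0) V O) (oX : Out (M0 ^ 2 + M0) V X) (oY : Out (M0 ^ 2 + M0) V Y)
    (fX : LF (M0 ^ 2 + M0) V (S2 O X)) (fY : LF (M0 ^ 2 + M0) V (S2 O Y))
    (x0 : sP V O X = 1) (x1 : sP (fun a => V (s a)) O X = 1) :
    sP (fun a => V (s a)) O Y = sP V O Y := by
  have cX := coc_II h4 lam V hl gO gX oO oX fX
  have cY := coc_II h4 lam V hl gO gY oO oY fY
  have hM : 1 ≤ M0 := by
    have h : |D OnePoint.infty ((0 : ℚ) : P)| = 1 := by simp [D]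
    exact le_trans (abs_pos.2 (D_ne (hs.ne (fa_ne h)))) (hb _ _ h)
  have hM1 : M0 ≤ M0 ^ 2 + M0 := by nlinarith
  have i1 : ∀ a b, |D a b| = 1 → |D (id a) (id b)| ≤ M0 := fun a b h => h.trans_le hM
  have dich : ∀ z : ZMod 2, z = 0 ∨ z = 1 := by decide
  rcases dich (sP V O Y) with h | h
  · rw [h]
    exact chain M0 s hs hb _ cY h
  · have := chain M0 s hs hb _ (cX.add cY) (by
      refine (finsum_add_distrib (cX.supp Function.injective_id i1 hM1)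
        (cY.supp Function.injective_id i1 hM1)).trans ?_
      change sP V O X + sP V O Y = 0
      rw [x0, h, two])
    rw [finsum_add_distrib (cX.supp hs hb hM1) (cY.supp hs hb hM1)] at this
    change sP (fun a => V (s a)) O X + sP (fun a => V (s a)) O Y = 0 at this
    rw [h]
    linear_combination this - x1 - two 1

/-- the side of a level does not change along a segment that misses the level -/
theorem sP_eq (h4 : finrank ℝ W = 4) (lam : W →ₗ[ℝ] ℝ) (V : P → W) (hl : ∀ a, 0 < lam (V a))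
    {O X Y : W} (gO : ∀ a b c, O ∉ C3 (V a) (V b) (V c)) (gX : Gen V O X) (gY : Gen V O Y)
    (hXY : ∀ a b, |D a b| = 1 → ∀ x ∈ S2 X Y, x ∉ C3 (V a) (V b) (V (apex a b)))
    (gr : ∀ a, ∀ p : ℝ, 0 ≤ p → p • V a ∉ S3 O X Y) (fin : LF 1 V (S3 O X Y)) :
    sP V O X = sP V O Y := by
  have f0 : {x : FP | (S3 O X Y ∩ C3 (V x.1.1) (V x.1.2) (V (apex x.1.1 x.1.2))).Nonempty}.Finite := by
    refine (fin.preimage (f := fun x : FP => (x.1.1, x.1.2, apex x.1.1 x.1.2)) ?_).subset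
      fun x hx => ⟨x.2.le, ((ab_symm _ _).trans (apex_l x.2)).le, (apex_r x.2).le, hx⟩
    intro x _ y _ h
    simp only [Prod.mk.injEq] at h
    exact Subtype.ext (Prod.ext h.1 h.2.1)
  have := edge_cancel (fun a b => tv (S3 O X Y ∩ C2 (V a) (V b)).Nonempty)
    (fun a b _ => by rw [C2_symm])
    (f0.subset fun x hx => (tv_ne hx).mono (Set.inter_subset_inter_right _ (C2_sub _ _ _)))
  have e : sP V O X + sP V O Y = 0 := by
    unfold sP
    rw [← finsum_add_distrib, ← this]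
    · refine finsum_congr fun x => par2 h4 lam (hl _) (hl _) (hl _) (gO _ _ _)
        (fun z hz => ⟨gX.sg _ _ z hz, gX.sg _ _ z hz, gX.sg _ _ z hz⟩)
        (fun z hz => ⟨gY.sg _ _ z hz, gY.sg _ _ z hz, gY.sg _ _ z hz⟩) (hXY _ _ x.2)
        (fun p hp => ⟨gr _ p hp, gr _ p hp, gr _ p hp⟩)
    · exact f0.subset fun x hx => (tv_ne hx).mono (Set.inter_subset_inter_left _ (S2_sub1 _ _ _))
    · exact f0.subset fun x hx => (tv_ne hx).mono (Set.inter_subset_inter_left _ (S2_sub2 _ _ _))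
  linear_combination e - two (sP V O Y)

end geo

section dens
variable {W : Type} [NormedAddCommGroup W] [NormedSpace ℝ W] [FiniteDimensional ℝ W]

lemma dense_off (h4 : finrank ℝ W = 4) {ι : Type} [Countable ι] (a b c : ι → W) :
    Dense {x : W | ∀ i, x ∉ Submodule.span ℝ {a i, b i, c i}} := by
  borelize W
  refine MeasureTheory.Measure.dense_of_ae (μ := MeasureTheory.Measure.addHaar) ?_
  refine MeasureTheory.ae_all_iff.2 fun i => ?_
  refine MeasureTheory.measure_eq_zero_iff_ae_notMem.1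
    (MeasureTheory.Measure.addHaar_submodule _ _ fun h => ?_)
  have h1 := finrank_span_finset_le_card (R := ℝ) ({a i, b i, c i} : Finset W)
  have h2 : ({a i, b i, c i} : Finset W).card ≤ 3 := Finset.card_le_three
  rw [Set.finrank, Finset.coe_insert, Finset.coe_insert, Finset.coe_singleton, h, finrank_top] at h1
  omega

lemma mem_span3 (p q r : ℝ) (a b c : W) : p • a + q • b + r • c ∈ Submodule.span ℝ {a, b, c} := by
  refine add_mem (add_mem ?_ ?_) ?_ <;>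
    exact Submodule.smul_mem _ _ (Submodule.subset_span (by simp))

/-- points on no ideal triangle (of countably many families) are dense -/
theorem dense_base (h4 : finrank ℝ W = 4) (V : P → W) :
    Dense {O : W | ∀ a b c, O ∉ C3 (V a) (V b) (V c)} := by
  have : Countable P := inferInstanceAs (Countable (Option ℚ))
  refine (dense_off h4 (ι := P × P × P) (fun x => V x.1) (fun x => V x.2.1)
    (fun x => V x.2.2)).mono ?_
  rintro _ h a b c ⟨p, q, r, -, -, -, rfl⟩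
  exact h (a, b, c) (mem_span3 _ _ _ _ _ _)

/-- generic points are dense -/
theorem dense_gen (h4 : finrank ℝ W = 4) (V : P → W) {O : W}
    (gO : ∀ a b c, O ∉ C3 (V a) (V b) (V c)) : Dense {X : W | Gen V O X} := by
  have : Countable P := inferInstanceAs (Countable (Option ℚ))
  refine (dense_off h4 (ι := Option P × P × P) (fun x => x.1.elim O V) (fun x => V x.2.1)
    (fun x => V x.2.2)).mono fun X h => ⟨?_, ?_⟩
  · rintro a b c ⟨p, q, r, -, -, -, rfl⟩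
    exact h (some a, b, c) (mem_span3 _ _ _ _ _ _)
  · rintro a b _ ⟨u, v, -, -, k, rfl⟩ ⟨p, q, h1, h2, e⟩
    by_cases hv : v = 0
    · rw [hv, add_zero] at k
      exact gO a b b (C2_sub _ _ _ ⟨p, q, h1, h2, by rw [← e, k, hv]; module⟩)
    · refine h (none, a, b) ?_
      have : X = (-u / v) • O + (p / v) • V a + (q / v) • V b := by
        apply smul_right_injective W hv
        simp only [smul_add, smul_smul, mul_div_cancel₀ _ hv]
        linear_combination (norm := module) e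
      rw [this]
      exact mem_span3 _ _ _ _ _ _

end dens

end Pool.Agent.Lib.THU.CV
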